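import Pool.Agent.Lib.MP_c50dba_nt.EX.Stmts

set_option autoImplicit false

/-!
Module M1 (helper18): `S_bez4`, the bound for the number of nondegenerate zeros by Bezoutians.
-/

namespace Pool.Agent.Lib.MP_c50dba_nt.EX.Bez18

open MvPolynomial

variable {F : Type} [Field F] {c : ℕ}

/-- Division with remainder at a point `v` with control of the partial degrees. -/
def Good (v : Fin c → F) (e : Fin c → ℕ) (P : MvPolynomial (Fin c) F) : Prop :=
  ∃ D : Fin c → MvPolynomial (Fin c) F, (∀ j k, (D j).degreeOf k ≤ e k) ∧
    P = C (eval v P) + ∑ j, D j * (X j - C (v j))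

theorem Good.add {v : Fin c → F} {e : Fin c → ℕ} {P Q : MvPolynomial (Fin c) F}
    (hP : Good v e P) (hQ : Good v e Q) : Good v e (P + Q) := by
  obtain ⟨D, hD, hD'⟩ := hP
  obtain ⟨E, hE, hE'⟩ := hQ
  refine ⟨fun j => D j + E j, fun j k => ?_, ?_⟩
  · exact (degreeOf_add_le k _ _).trans (max_le (hD j k) (hE j k))
  · conv_lhs => rw [hD', hE']
    simp only [map_add, add_mul, Finset.sum_add_distrib]
    ring

theorem Good.zero {v : Fin c → F} {e : Fin c → ℕ} : Good v e 0 :=
  ⟨fun _ => 0, fun _ _ => by simp, by simp⟩

theorem Good.sum {ι : Type*} {v : Fin c → F} {e : Fin c → ℕ} (s : Finset ι)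
    (P : ι → MvPolynomial (Fin c) F) (h : ∀ i ∈ s, Good v e (P i)) : Good v e (∑ i ∈ s, P i) := by
  classical
  induction s using Finset.induction_on with
  | empty => simpa using Good.zero
  | insert a s ha ih =>
    rw [Finset.sum_insert ha]
    exact (h a (Finset.mem_insert_self a s)).add (ih fun i hi => h i (Finset.mem_insert_of_mem hi))

theorem good_monomial (v : Fin c → F) (e : Fin c → ℕ) (n : ℕ) : ∀ s : Fin c →₀ ℕ,
    s.degree = n → (∀ k, s k ≤ e k) → ∀ a : F, Good v e (monomial s a) := by
  induction n with
  | zero =>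
    intro s hs _ a
    have : s = 0 := (Finsupp.degree_eq_zero_iff s).mp hs
    subst this
    have hC : (monomial (0 : Fin c →₀ ℕ) a : MvPolynomial (Fin c) F) = C a := rfl
    refine ⟨fun _ => 0, fun _ _ => by simp, ?_⟩
    rw [hC]
    simp
  | succ n ih =>
    intro s hs he a
    have hne : s ≠ 0 := by
      rintro rfl
      simp at hs
    obtain ⟨j, hj⟩ : ∃ j, s j ≠ 0 := by
      by_contra h
      push Not at h
      exact hne (Finsupp.ext h)
    set s' : Fin c →₀ ℕ := s - Finsupp.single j 1 with hs'
    have hss : s = s' + Finsupp.single j 1 := by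
      rw [hs']
      exact (tsub_add_cancel_of_le (by simpa using Nat.one_le_iff_ne_zero.mpr hj)).symm
    have hle : ∀ k, s' k ≤ e k := fun k =>
      le_trans (by rw [hss]; simp) (he k)
    have hdeg : s'.degree = n := by
      have : s.degree = s'.degree + 1 := by
        rw [hss]; simp
      omega
    obtain ⟨D, hD, hD'⟩ := ih s' hdeg hle a
    refine ⟨fun i => C (v j) * D i + if i = j then monomial s' a else 0, fun i k => ?_, ?_⟩
    · refine (degreeOf_add_le k _ _).trans (max_le ?_ ?_)
      · exact (degreeOf_C_mul_le _ _ _).trans (hD i k)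
      · split_ifs
        · refine le_trans ?_ (hle k)
          by_cases ha : a = 0
          · simp [ha]
          · rw [degreeOf_monomial_eq _ _ ha]
        · simp
    · have h1 : monomial s a = monomial s' a * X j := by
        rw [hss, X, monomial_mul, mul_one]
      have h2 : eval v (monomial s a) = eval v (monomial s' a) * v j := by
        rw [h1]; simp
      rw [h2]
      simp only [add_mul, Finset.sum_add_distrib, ite_mul, zero_mul, Finset.sum_ite_eq',
        Finset.mem_univ, if_true]
      rw [h1]
      have h3 : ∑ i, C (v j) * D i * (X i - C (v i)) = C (v j) * ∑ i, D i * (X i - C (v i)) := by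
        rw [Finset.mul_sum]
        exact Finset.sum_congr rfl fun i _ => by ring
      rw [h3]
      have h4 : ∑ i, D i * (X i - C (v i)) = monomial s' a - C (eval v (monomial s' a)) := by
        exact eq_sub_of_add_eq' hD'.symm
      rw [h4, C_mul]
      ring

theorem good (v : Fin c → F) (e : Fin c → ℕ) (P : MvPolynomial (Fin c) F)
    (hP : ∀ j, P.degreeOf j ≤ e j) : Good v e P := by
  rw [P.as_sum]
  exact Good.sum _ _ fun s hs => good_monomial v e _ s rfl
    (fun k => (monomial_le_degreeOf k hs).trans (hP k)) _

theorem eval_pderiv (v : Fin c → F) (P : MvPolynomial (Fin c) F)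
    (D : Fin c → MvPolynomial (Fin c) F)
    (h : P = C (eval v P) + ∑ j, D j * (X j - C (v j))) (k : Fin c) :
    eval v (pderiv k P) = eval v (D k) := by
  rw [h]
  simp only [map_add, map_sum, pderiv_C, zero_add, Derivation.leibniz, map_sub, pderiv_X,
    smul_eq_mul, map_mul, eval_X, eval_C, sub_zero, sub_self, zero_mul, add_zero]
  rw [Finset.sum_eq_single k]
  · simp
  · intro j _ hjk
    simp [hjk]
  · simp

theorem degreeOf_det (D : Matrix (Fin c) (Fin c) (MvPolynomial (Fin c) F)) (e : Fin c → ℕ)
    (hD : ∀ i j k, (D i j).degreeOf k ≤ e k) (k : Fin c) : D.det.degreeOf k ≤ c * e k := by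
  rw [Matrix.det_apply]
  refine (degreeOf_sum_le _ _ _).trans (Finset.sup_le fun σ _ => ?_)
  have h1 : (∏ i, D (σ i) i).degreeOf k ≤ c * e k := by
    refine (degreeOf_prod_le _ _ _).trans ?_
    refine (Finset.sum_le_sum fun i _ => hD (σ i) i k).trans ?_
    simp
  rcases Int.units_eq_one_or (Equiv.Perm.sign σ) with h | h
  · rw [h, one_smul]; exact h1
  · rw [h, Units.neg_smul, one_smul, degreeOf_neg]; exact h1

theorem bez4_18 : S_bez4 := by
  intro F _ c Q e hQ Z hZ
  classical
  choose D hD hD' using fun (v : Fin c → F) (i : Fin c) => good v e (Q i) (hQ i)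
  -- the Bezoutians
  let g : (Fin c → F) → MvPolynomial (Fin c) F := fun v => (Matrix.of fun i j => D v i j).det
  have hgdeg : ∀ v k, (g v).degreeOf k ≤ c * e k := fun v k =>
    degreeOf_det _ e (fun i j k => hD v i j k) k
  have hg0 : ∀ v ∈ Z, ∀ v' ∈ Z, v' ≠ v → eval v' (g v) = 0 := by
    intro v hv v' hv' hne
    have h1 : eval v' (g v) = (Matrix.of fun i j => eval v' (D v i j)).det := by
      simp only [g]
      rw [RingHom.map_det]
      rfl
    rw [h1]
    rw [← Matrix.exists_mulVec_eq_zero_iff]
    refine ⟨fun j => v' j - v j, fun h => hne ?_, ?_⟩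
    · funext j
      have := congrFun h j
      simpa [sub_eq_zero] using this
    · funext i
      have h2 := congrArg (eval v') (hD' v i)
      rw [(hZ v' hv').1 i, (hZ v hv).1 i] at h2
      simp only [map_zero, zero_add, map_sum, map_mul, map_sub, eval_X, eval_C] at h2
      simp only [Matrix.mulVec, dotProduct, Matrix.of_apply, Pi.zero_apply]
      exact h2.symm
  have hg1 : ∀ v ∈ Z, eval v (g v) ≠ 0 := by
    intro v hv
    have h1 : eval v (g v) = (Matrix.of fun i j => eval v (pderiv j (Q i))).det := by
      simp only [g]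
      rw [RingHom.map_det]
      congr 1
      ext i j
      simp only [RingHom.mapMatrix_apply, Matrix.map_apply, Matrix.of_apply]
      exact (eval_pderiv v (Q i) (D v i) (hD' v i) j).symm
    rw [h1]
    exact (hZ v hv).2
  -- coefficient vectors
  let T := ∀ j : Fin c, Fin (c * e j + 1)
  let ts : T → (Fin c →₀ ℕ) := fun t => Finsupp.equivFunOnFinite.symm fun j => (t j : ℕ)
  have hts : Function.Injective ts := by
    intro t t' h
    funext j
    have := DFunLike.congr_fun h j
    exact Fin.ext (by simpa [ts] using this)
  let A : Z → T → F := fun v t => coeff (ts t) (g v)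
  have hgA : ∀ v : Z, g v = ∑ t, monomial (ts t) (A v t) := by
    intro v
    ext s
    rw [coeff_sum]
    by_cases hs : ∀ j, s j ≤ c * e j
    · let t0 : T := fun j => ⟨s j, Nat.lt_succ_of_le (hs j)⟩
      have ht0 : ts t0 = s := by
        ext j
        simp [ts, t0]
      rw [Finset.sum_eq_single t0]
      · rw [coeff_monomial, if_pos ht0]
        simp only [A, ht0]
      · intro t _ hne
        rw [coeff_monomial, if_neg]
        rw [← ht0]
        exact fun h => hne (hts h)
      · simp
    · push Not at hs
      obtain ⟨j, hj⟩ := hs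
      rw [Finset.sum_eq_zero]
      · rw [← notMem_support_iff]
        intro hmem
        exact absurd (monomial_le_degreeOf j hmem) (not_le.mpr (lt_of_le_of_lt (hgdeg v j) hj))
      · intro t _
        rw [coeff_monomial, if_neg]
        rintro rfl
        simp only [ts, Finsupp.coe_equivFunOnFinite_symm] at hj
        exact absurd (Nat.lt_succ_iff.mp (t j).2) (not_le.mpr hj)
  have hli : LinearIndependent F A := by
    rw [Fintype.linearIndependent_iff]
    intro a ha v
    have h1 : ∑ w : Z, C (a w) * g w = 0 := by
      calc ∑ w : Z, C (a w) * g w = ∑ w : Z, ∑ t, monomial (ts t) (a w * A w t) := by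
            refine Finset.sum_congr rfl fun w _ => ?_
            rw [hgA w, Finset.mul_sum]
            exact Finset.sum_congr rfl fun t _ => by rw [C_mul_monomial]
        _ = ∑ t, monomial (ts t) (∑ w : Z, a w * A w t) := by
            rw [Finset.sum_comm]
            refine Finset.sum_congr rfl fun t _ => ?_
            rw [map_sum]
        _ = 0 := by
            refine Finset.sum_eq_zero fun t _ => ?_
            have h2 := congrFun ha t
            simp only [Finset.sum_apply, Pi.smul_apply, smul_eq_mul, Pi.zero_apply] at h2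
            rw [h2, monomial_zero]
    have h2 := congrArg (eval (v : Fin c → F)) h1
    rw [map_sum, map_zero, Finset.sum_eq_single v] at h2
    · rw [map_mul, eval_C] at h2
      exact (mul_eq_zero.mp h2).resolve_right (hg1 v v.2)
    · intro w _ hne
      rw [map_mul, hg0 w w.2 v v.2 (fun h => hne (Subtype.ext h.symm)), mul_zero]
    · simp
  have h3 := hli.fintype_card_le_finrank
  rw [Module.finrank_fintype_fun_eq_card] at h3
  have h4 : Fintype.card Z = Z.card := Fintype.card_coe Z
  have h5 : Fintype.card T = ∏ j, (c * e j + 1) := by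
    simp only [T, Fintype.card_pi, Fintype.card_fin]
  rw [h4, h5] at h3
  exact h3

end Pool.Agent.Lib.MP_c50dba_nt.EX.Bez18
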