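import Pool.Agent.Lib.MP_c50dba_nt.SixExp

set_option autoImplicit false

/-!
The p-adic exponential of integer combinations.
-/

namespace Pool.Agent.Lib.MP_c50dba_nt.EX

variable {p : ℕ} [hp : Fact p.Prime]

lemma norm_ex_sub_le_83 {𝒞 : Type*} [NormedField 𝒞] [CompleteSpace 𝒞] [IsUltrametricDist 𝒞]
    [NormedAlgebra ℚ_[p] 𝒞] {a : 𝒞} (ha : ‖a‖ ≤ 1 / 4) : ‖ex a - 1 - a‖ ≤ 4 * ‖a‖ ^ 2 := by
  have hs : Summable (fun k : ℕ => a ^ k / (k.factorial : 𝒞)) := (summable_norm_ex (p := p) ha).of_norm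
  have h1 : ex a - 1 - a = ∑' k : ℕ, a ^ (k + 2) / ((k + 2).factorial : 𝒞) := by
    unfold ex
    rw [hs.tsum_eq_zero_add, ((summable_nat_add_iff 1).mpr hs).tsum_eq_zero_add]
    simp
  rw [h1]
  apply IsUltrametricDist.norm_tsum_le_of_forall_le_of_nonneg (by positivity)
  intro k
  refine (norm_div_factorial_le (p := p) a (k + 2)).trans ?_
  have h2 : (2 * ‖a‖) ^ k ≤ 1 := pow_le_one₀ (by positivity) (by linarith)
  calc (2 * ‖a‖) ^ (k + 2) = (2 * ‖a‖) ^ k * (4 * ‖a‖ ^ 2) := by ring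
    _ ≤ 1 * (4 * ‖a‖ ^ 2) := by gcongr
    _ = _ := one_mul _

lemma ex_ne_zero_83 {𝒞 : Type*} [NormedField 𝒞] [CompleteSpace 𝒞] [IsUltrametricDist 𝒞]
    [NormedAlgebra ℚ_[p] 𝒞] {a : 𝒞} (ha : ‖a‖ ≤ 1 / 4) : ex a ≠ 0 := by
  intro h
  have h1 := norm_ex_sub_le_83 (p := p) ha
  have h2 : ‖(-1 : 𝒞) - a‖ = 1 := by
    rw [← norm_neg, neg_sub, sub_neg_eq_add, add_comm]
    have h3 : ‖(1 : 𝒞) + a‖ = max ‖(1 : 𝒞)‖ ‖a‖ := by
      apply IsUltrametricDist.norm_add_eq_max_of_norm_ne_norm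
      rw [norm_one]
      intro h
      rw [← h] at ha
      norm_num at ha
    rw [h3, norm_one]
    exact max_eq_left (by linarith)
  rw [h, zero_sub, h2] at h1
  have := norm_nonneg a
  nlinarith

lemma ex_neg_83 {𝒞 : Type*} [NormedField 𝒞] [CompleteSpace 𝒞] [IsUltrametricDist 𝒞]
    [NormedAlgebra ℚ_[p] 𝒞] {a : 𝒞} (ha : ‖a‖ ≤ 1 / 4) : ex (-a) = (ex a)⁻¹ := by
  have h1 := ex_add (p := p) ha (b := -a) (by rwa [norm_neg])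
  rw [add_neg_cancel, ex_zero] at h1
  exact eq_inv_of_mul_eq_one_right h1.symm

lemma ex_int_mul_83 {𝒞 : Type*} [NormedField 𝒞] [CompleteSpace 𝒞] [IsUltrametricDist 𝒞]
    [NormedAlgebra ℚ_[p] 𝒞] {a : 𝒞} (ha : ‖a‖ ≤ 1 / 4) (n : ℤ) : ex ((n : 𝒞) * a) = ex a ^ n := by
  cases n with
  | ofNat n =>
    simp only [Int.ofNat_eq_natCast, Int.cast_natCast, zpow_natCast]
    exact ex_nat_mul (p := p) ha n
  | negSucc n =>
    have h1 : ‖((n + 1 : ℕ) : 𝒞) * a‖ ≤ 1 / 4 := by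
      rw [norm_mul]
      calc ‖((n + 1 : ℕ) : 𝒞)‖ * ‖a‖ ≤ 1 * (1 / 4) := by
            gcongr
            exact IsUltrametricDist.norm_natCast_le_one 𝒞 _
        _ = 1 / 4 := one_mul _
    rw [Int.cast_negSucc, neg_mul, ex_neg_83 (p := p) h1, ex_nat_mul (p := p) ha, zpow_negSucc]

lemma norm_int_mul_le_83 {𝒞 : Type*} [NormedField 𝒞] [IsUltrametricDist 𝒞] {a : 𝒞} (ha : ‖a‖ ≤ 1 / 4) (n : ℤ) : ‖(n : 𝒞) * a‖ ≤ 1 / 4 := by
  rw [norm_mul]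
  calc ‖(n : 𝒞)‖ * ‖a‖ ≤ 1 * (1 / 4) := by
        gcongr
        exact IsUltrametricDist.norm_intCast_le_one 𝒞 _
    _ = 1 / 4 := one_mul _

lemma norm_combo_le_83 {𝒞 : Type*} [NormedField 𝒞] [IsUltrametricDist 𝒞] {ι : Type*} (s : Finset ι) (c : ι → ℤ) (lam : ι → 𝒞)
    (hl : ∀ i, ‖lam i‖ ≤ 1 / 4) : ‖∑ i ∈ s, (c i : 𝒞) * lam i‖ ≤ 1 / 4 := by
  apply IsUltrametricDist.norm_sum_le_of_forall_le_of_nonneg (by norm_num)
  intro i _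
  exact norm_int_mul_le_83 (hl i) _

lemma ex_combo_83 {𝒞 : Type*} [NormedField 𝒞] [CompleteSpace 𝒞] [IsUltrametricDist 𝒞]
    [NormedAlgebra ℚ_[p] 𝒞] {ι : Type*} (s : Finset ι) (c : ι → ℤ) (lam : ι → 𝒞)
    (hl : ∀ i, ‖lam i‖ ≤ 1 / 4) :
    ex (∑ i ∈ s, (c i : 𝒞) * lam i) = ∏ i ∈ s, ex (lam i) ^ c i := by
  rw [ex_sum (p := p) s _ (fun i _ => norm_int_mul_le_83 (hl i) _)]
  apply Finset.prod_congr rfl
  intro i _
  exact ex_int_mul_83 (p := p) (hl i) _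

lemma eq_zero_of_ex_eq_one_83 {𝒞 : Type*} [NormedField 𝒞] [CompleteSpace 𝒞] [IsUltrametricDist 𝒞]
    [NormedAlgebra ℚ_[p] 𝒞] {a : 𝒞} (ha : ‖a‖ ≤ 1 / 4) (h : ex a = 1) : a = 0 := by
  have h1 : ex ((p : 𝒞) * a) = 1 := by
    rw [ex_nat_mul (p := p) ha, h, one_pow]
  have hpn : ‖(p : 𝒞)‖ ≤ 1 / 2 := by
    have h2 : ‖(p : 𝒞)‖ = ‖(p : ℚ_[p])‖ := by
      have := norm_algebraMap' 𝒞 (p : ℚ_[p])
      simpa using this
    rw [h2, Padic.norm_p]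
    rw [one_div]
    apply inv_anti₀ (by norm_num)
    exact_mod_cast hp.out.two_le
  have hpa : ‖(p : 𝒞) * a‖ ≤ 1 / 8 := by
    rw [norm_mul]
    calc ‖(p : 𝒞)‖ * ‖a‖ ≤ (1 / 2) * (1 / 4) := by gcongr
      _ = 1 / 8 := by norm_num
  have h3 := norm_ex_sub_le_83 (p := p) (a := (p : 𝒞) * a) (by linarith)
  rw [h1, sub_self, zero_sub, norm_neg] at h3
  have h4 : ‖(p : 𝒞) * a‖ = 0 := by
    have := norm_nonneg ((p : 𝒞) * a)
    nlinarith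
  rw [norm_eq_zero, mul_eq_zero] at h4
  have : CharZero 𝒞 := charZero_of_injective_algebraMap (algebraMap ℚ_[p] 𝒞).injective
  exact h4.resolve_left (by exact_mod_cast hp.out.ne_zero)

end Pool.Agent.Lib.MP_c50dba_nt.EX
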