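import Pool.Agent.Lib.MP_c50dba_nt.EX.CoreAux83
import Pool.Agent.Lib.MP_c50dba_nt.EX.ExpZ83

set_option autoImplicit false

/-!
M13: the core contradiction.
-/

namespace Pool.Agent.Lib.MP_c50dba_nt.EX

open Module NumberField MvPolynomial

theorem core_83 (hz : S_zero) (hdet : S_det) (hobst : S_obst) (hpar : S_param) : S_core := by
  classical
  intro p _ 𝒞 _ _ _ _ K _ _ φ d n hd u hu α hα0 lam hlam hex hind R hR hbig hss
  have hC0 : CharZero 𝒞 := charZero_of_injective_algebraMap (algebraMap ℚ_[p] 𝒞).injective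
  obtain ⟨δ', ω, hω0, hω, hδ⟩ := exists_omega_83 K
  have hω0' : ((ω 0 : 𝓞 K) : K) = 1 := by rw [hω0]; rfl
  have hcc := exists_cc_83 K d n δ' (fun i => (ω i : K)) hω hδ R
  obtain ⟨N, hN⟩ : ∃ N, N = finrank K R := ⟨_, rfl⟩
  rw [← hN] at hbig hss hcc
  have hN1 : 1 ≤ N := by omega
  obtain ⟨l, hl⟩ : ∃ l, l = (δ' + 1) * N := ⟨_, rfl⟩
  rw [← hl] at hcc
  obtain ⟨cc, hccR, hccI⟩ := hcc
  have hl1 : 1 ≤ l := by
    rw [hl]
    exact Nat.one_le_iff_ne_zero.mpr (by positivity)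
  -- the relation in coordinates
  have hrelcc : ∀ j : Fin l, ∑ i, ∑ ν, (u i * φ (ω ν : K)) * ∑ m, (cc j i m ν : 𝒞) * lam m = 0 := by
    intro j
    have h1 := hR _ (hccR j)
    rw [← h1]
    apply Finset.sum_congr rfl
    intro i _
    simp only [map_sum, map_mul, map_intCast, Finset.sum_mul, Finset.mul_sum]
    rw [Finset.sum_comm]
    apply Finset.sum_congr rfl
    intro m _
    apply Finset.sum_congr rfl
    intro ν _
    ring
  obtain ⟨i₁, hi₁⟩ := Function.ne_iff.mp hu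
  rw [Pi.zero_apply] at hi₁
  -- the case of one variable
  rcases Nat.lt_or_ge (d * (δ' + 1)) 2 with hsmall | hlarge
  · have hd1 : d = 1 := by nlinarith
    have hδ0 : δ' = 0 := by
      subst hd1
      omega
    subst hd1
    subst hδ0
    have h1 := hrelcc ⟨0, hl1⟩
    rw [Fin.sum_univ_one, Fin.sum_univ_one] at h1
    have hi0 : i₁ = 0 := Subsingleton.elim _ _
    rw [hi0] at hi₁
    rw [hω0', map_one, mul_one] at h1
    have h2 := (mul_eq_zero.mp h1).resolve_left hi₁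
    have h3 := hind _ h2
    apply hccI.ne_zero ⟨0, hl1⟩
    funext i m ν
    have h4 := congrFun h3 m
    have h5 : i = 0 := Subsingleton.elim _ _
    have h6 : ν = 0 := Fin.eq_zero ν
    rw [h5, h6]
    exact h4
  -- general case
  obtain ⟨r, hr⟩ : ∃ r, d * (δ' + 1) = r + 1 := ⟨d * (δ' + 1) - 1, by omega⟩
  have hr1 : 1 ≤ r := by omega
  let en : Fin (r + 1) ≃ Fin d × Fin (δ' + 1) := (finCongr hr.symm).trans finProdFinEquiv.symm
  let ew : Fin (d * δ') ≃ Fin d × Fin δ' := finProdFinEquiv.symm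
  let β : Fin (d * δ') → Fin (r + 1) → 𝓞 K := fun i ν =>
    if en ν = ((ew i).1, (ew i).2.succ) then 1
      else if en ν = ((ew i).1, 0) then - ω (ew i).2.succ else 0
  have hβK : ∀ i ν, ((β i ν : 𝓞 K) : K) = if en ν = ((ew i).1, (ew i).2.succ) then 1
      else if en ν = ((ew i).1, 0) then - (ω (ew i).2.succ : K) else 0 := by
    intro i ν
    simp only [β]
    split_ifs <;> simp
  let y : Fin l → Fin (r + 1) → 𝒞 := fun j ν => ∑ m, (cc j (en ν).1 m (en ν).2 : 𝒞) * lam m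
  let a : Fin l → Fin (r + 1) → K := fun j ν => ∏ m, α m ^ (cc j (en ν).1 m (en ν).2)
  have hy : ∀ j ν, ‖y j ν‖ ≤ 1 / 4 := fun j ν => norm_combo_le_83 _ _ _ hlam
  have ha0 : ∀ j ν, a j ν ≠ 0 := fun j ν =>
    Finset.prod_ne_zero_iff.mpr (fun m _ => zpow_ne_zero _ (hα0 m))
  have ha : ∀ j ν, φ (a j ν) = Pool.Agent.Lib.MP_c50dba_nt.ex (y j ν) := by
    intro j ν
    simp only [a, y]
    rw [ex_combo_83 (p := p) _ _ _ hlam, map_prod]
    apply Finset.prod_congr rfl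
    intro m _
    rw [map_zpow₀, hex]
  -- the hyperplane
  let u' : Fin (r + 1) → 𝒞 := fun ν => u (en ν).1 * φ (ω (en ν).2 : K)
  have hsum : ∀ f : Fin d × Fin (δ' + 1) → 𝒞, ∑ ν, f (en ν) = ∑ i, ∑ ν, f (i, ν) := by
    intro f
    rw [Equiv.sum_comp en f, Fintype.sum_prod_type]
  have hu'y : ∀ j, ∑ ν, u' ν * y j ν = 0 := by
    intro j
    rw [← hrelcc j]
    exact hsum (fun x => (u x.1 * φ (ω x.2 : K)) * ∑ m, (cc j x.1 m x.2 : 𝒞) * lam m)
  have hu'β : ∀ j, ∑ ν, u' ν * φ (β j ν : K) = 0 := by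
    intro j
    let G : Fin d × Fin (δ' + 1) → 𝒞 := fun x =>
        (u x.1 * φ (ω x.2 : K)) * φ (if x = ((ew j).1, (ew j).2.succ) then 1
          else if x = ((ew j).1, 0) then - (ω (ew j).2.succ : K) else 0)
    have h1 : ∀ ν, u' ν * φ (β j ν : K) = G (en ν) := by
      intro ν
      simp only [u', G]
      rw [hβK]
    rw [Finset.sum_congr rfl (fun ν _ => h1 ν), Equiv.sum_comp en G]
    have hne : (((ew j).1, (ew j).2.succ) : Fin d × Fin (δ' + 1)) ≠ ((ew j).1, 0) := by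
      intro h
      exact Fin.succ_ne_zero _ (Prod.ext_iff.mp h).2
    rw [← Finset.sum_subset (Finset.subset_univ
      ({((ew j).1, (ew j).2.succ), ((ew j).1, 0)} : Finset (Fin d × Fin (δ' + 1))))]
    · rw [Finset.sum_pair hne]
      simp only [G, if_true, if_neg hne.symm]
      simp only [hω0', map_one, mul_one, map_neg]
      ring
    · intro x _ hx
      rw [Finset.mem_insert, Finset.mem_singleton, not_or] at hx
      simp only [G]
      rw [if_neg hx.1, if_neg hx.2, map_zero, mul_zero]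
  obtain ⟨i₀, -, hi₀⟩ := Finset.exists_max_image Finset.univ (fun ν => ‖u' ν‖)
    ⟨en.symm (i₁, 0), Finset.mem_univ _⟩
  have hu'i₀ : u' i₀ ≠ 0 := by
    intro h
    have h1 := hi₀ (en.symm (i₁, 0)) (Finset.mem_univ _)
    rw [h, norm_zero] at h1
    have h2 : u' (en.symm (i₁, 0)) = u i₁ := by
      simp only [u', Equiv.apply_symm_apply]
      rw [hω0', map_one, mul_one]
    rw [h2] at h1
    exact hi₁ (norm_le_zero_iff.mp h1)
  let b : Fin r → 𝒞 := fun i => - u' (i₀.succAbove i) / u' i₀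
  have hb : ∀ i, ‖b i‖ ≤ 1 := by
    intro i
    simp only [b]
    rw [norm_div, norm_neg]
    exact div_le_one_of_le₀ (hi₀ _ (Finset.mem_univ _)) (norm_nonneg _)
  have hpivot : ∀ z : Fin (r + 1) → 𝒞, ∑ ν, u' ν * z ν = 0 →
      z i₀ = ∑ i, b i * z (i₀.succAbove i) := by
    intro z hz
    rw [Fin.sum_univ_succAbove _ i₀] at hz
    have h1 : z i₀ = - (∑ i, u' (i₀.succAbove i) * z (i₀.succAbove i)) / u' i₀ := by
      rw [eq_div_iff hu'i₀]
      linear_combination hz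
    rw [h1, neg_div, Finset.sum_div, ← Finset.sum_neg_distrib]
    apply Finset.sum_congr rfl
    intro i _
    simp only [b]
    ring
  -- parameters
  obtain ⟨q, A, hq1, hqA, hA1, hp1, hp2⟩ := hpar d (δ' + 1) N hd (by omega) hbig
  have hAn : A * r + 1 ≤ (A - 1) * (d * δ') + q * l := by
    have h1 : d * (δ' + 1) - 1 = r := by omega
    rw [h1, Nat.add_sub_cancel, ← hl] at hp2
    exact hp2
  obtain ⟨X₀, hX₀⟩ := hdet p 𝒞 r hr1 (d * δ') l K φ β a y hy ha i₀ b hb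
    (fun j => hpivot _ (hu'y j)) (fun j => hpivot (fun ν => φ (β j ν : K)) (hu'β j)) A q
    (d * δ' + l) hA1 hqA hAn
  set M := (d * δ' + l + 1) ^ (d * δ' + l) with hM
  set X := max X₀ (M + 1) with hX
  have hX1 : 1 ≤ X := (Nat.succ_le_succ (Nat.zero_le M)).trans (le_max_right _ _)
  obtain ⟨P, hP0, hPw, hPl, hPvan⟩ := hX₀ X (le_max_left _ _)
  obtain ⟨Δ, hΔ1, hΔ2⟩ := hz K (d * δ') l (r + 1) (fun i ν => (β i ν : K)) a ha0 (X ^ (A - 1))
    (X ^ q) (X ^ (A - q)) (Nat.one_le_pow _ _ hX1) (Nat.one_le_pow _ _ hX1) P hP0 hPw hPl hPvan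
  -- the obstruction inequality
  have hlog : ∀ (t : Fin (r + 1) → ℤ) (s : Fin l → ℤ), ∏ j, Xpt a t j ^ s j = 1 →
      ∀ m : Fin n, ∑ ν, t ν * ∑ j, s j * cc j (en ν).1 m (en ν).2 = 0 := by
    intro t s hprod
    have h1 : ∀ j, φ (Xpt a t j) = Pool.Agent.Lib.MP_c50dba_nt.ex (∑ ν, (t ν : 𝒞) * y j ν) := by
      intro j
      rw [ex_combo_83 (p := p) _ _ _ (hy j)]
      simp only [Xpt]
      rw [map_prod]
      apply Finset.prod_congr rfl
      intro ν _
      rw [map_zpow₀, ha]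
    have hYn : ∀ j, ‖∑ ν, (t ν : 𝒞) * y j ν‖ ≤ 1 / 4 := fun j => norm_combo_le_83 _ _ _ (hy j)
    have h2 : Pool.Agent.Lib.MP_c50dba_nt.ex (∑ j, (s j : 𝒞) * ∑ ν, (t ν : 𝒞) * y j ν) = 1 := by
      rw [ex_combo_83 (p := p) _ _ _ hYn]
      have h3 := congrArg φ hprod
      rw [map_prod, map_one] at h3
      rw [← h3]
      apply Finset.prod_congr rfl
      intro j _
      rw [map_zpow₀, h1]
    have h3 := eq_zero_of_ex_eq_one_83 (p := p) (norm_combo_le_83 _ _ _ hYn) h2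
    have h4 := hind (fun m => ∑ ν, t ν * ∑ j, s j * cc j (en ν).1 m (en ν).2) (by
      rw [← h3]
      simp only [y]
      push_cast
      simp only [Finset.mul_sum, Finset.sum_mul]
      rw [Finset.sum_comm]
      rw [Finset.sum_congr rfl (fun ν _ => Finset.sum_comm)]
      rw [Finset.sum_comm]
      apply Finset.sum_congr rfl
      intro j _
      apply Finset.sum_congr rfl
      intro ν _
      apply Finset.sum_congr rfl
      intro m _
      ring)
    intro m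
    exact congrFun h4 m
  rw [hN] at hss hp1
  have hfin := hobst K d n δ' (r + 1) (d * δ') l hd (fun i => (ω i : K)) hω0' hω hδ en ew
    (fun i ν => (β i ν : K)) hβK R cc hccR hccI a ha0 hlog hss q A hq1 hqA hp1 Δ hΔ1
  -- contradiction
  have hXM : M < X := (Nat.lt_succ_self M).trans_le (le_max_right _ _)
  set c₀ := c0 (fun i ν => (β i ν : K)) Δ
  set c₁ := c1 a ha0 Δ
  have h5 : X ^ ((A - 1) * c₀ + q * c₁ + 1) ≤ M * X ^ ((A - 1) * c₀ + q * c₁) := by
    calc X ^ ((A - 1) * c₀ + q * c₁ + 1) ≤ X ^ ((A - q) * (r + 1 - finrank ℤ Δ)) :=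
          Nat.pow_le_pow_right hX1 hfin
      _ = (X ^ (A - q)) ^ (r + 1 - finrank ℤ Δ) := pow_mul _ _ _
      _ ≤ (X ^ (A - q) + 1) ^ (r + 1 - finrank ℤ Δ) := Nat.pow_le_pow_left (Nat.le_succ _) _
      _ ≤ M * (X ^ (A - 1)) ^ c₀ * (X ^ q) ^ c₁ := hΔ2
      _ = M * X ^ ((A - 1) * c₀ + q * c₁) := by
          rw [← pow_mul, ← pow_mul, mul_assoc, ← pow_add]
  rw [pow_succ, mul_comm] at h5
  have h6 := Nat.le_of_mul_le_mul_right h5 (Nat.pow_pos (by omega))
  omega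

end Pool.Agent.Lib.MP_c50dba_nt.EX
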