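import Pool.Agent.Lib.MP_c50dba_nt.EX.Stmts

set_option autoImplicit false

/-!
EXPANSION project, module Z4 (helper74): coordinate complements of submodules of `ℤ ^ m`, and many
classes of a box modulo a subgroup.
-/

namespace Pool.Agent.Lib.MP_c50dba_nt.EX

open Module

/-- Coordinate complement over a field. -/
theorem coordField74 {F : Type*} [Field F] {m : ℕ} (L : Submodule F (Fin m → F)) :
    ∃ I : Finset (Fin m), I.card + finrank F L = m ∧ ∀ c ∈ L, (∀ i ∉ I, c i = 0) → c = 0 := by
  classical
  obtain ⟨κ, a, ha, hspan, hli⟩ := exists_linearIndependent' F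
    (fun i : Fin m => L.mkQ (Pi.single i 1))
  have hfin : Finite κ := Finite.of_injective a ha
  have hft : Fintype κ := Fintype.ofFinite κ
  have htop : Submodule.span F (Set.range (fun i : Fin m => L.mkQ (Pi.single i 1))) = ⊤ := by
    have h1 : Set.range (fun i : Fin m => L.mkQ (Pi.single i 1)) =
        L.mkQ '' Set.range (fun i : Fin m => (Pi.single i 1 : Fin m → F)) := by
      rw [← Set.range_comp]; rfl
    rw [h1, Submodule.span_image]
    have h2 : Submodule.span F (Set.range (fun i : Fin m => (Pi.single i 1 : Fin m → F))) = ⊤ := by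
      have := (Pi.basisFun F (Fin m)).span_eq
      convert this using 3
      funext i
      simp [Pi.basisFun_apply]
    rw [h2, Submodule.map_top, Submodule.range_mkQ]
  have hcard : Fintype.card κ = finrank F ((Fin m → F) ⧸ L) := by
    have h1 := finrank_span_eq_card hli
    rw [hspan, htop, finrank_top] at h1
    exact h1.symm
  refine ⟨Finset.univ.image a, ?_, ?_⟩
  · rw [Finset.card_image_of_injective _ ha, Finset.card_univ, hcard]
    have h := Submodule.finrank_quotient_add_finrank L
    rw [h]
    simp
  · intro c hc h0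
    have h1 : c = ∑ i, c i • (Pi.single i 1 : Fin m → F) := by
      funext j
      simp [Finset.sum_apply, Pi.single_apply]
    have h2 : ∑ i, c i • L.mkQ (Pi.single i 1 : Fin m → F) = 0 := by
      have : L.mkQ c = 0 := by simpa using hc
      rw [h1, map_sum] at this
      simpa only [map_smul] using this
    have h3 : ∑ i, c i • L.mkQ (Pi.single i 1 : Fin m → F) =
        ∑ x : κ, c (a x) • L.mkQ (Pi.single (a x) 1 : Fin m → F) := by
      rw [← Finset.sum_image (s := Finset.univ) (g := a)
        (f := fun i => c i • L.mkQ (Pi.single i 1 : Fin m → F)) (fun x _ y _ h => ha h)]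
      symm
      apply Finset.sum_subset (Finset.subset_univ _)
      intro i _ hi
      rw [h0 i hi, zero_smul]
    rw [h3] at h2
    have h4 := Fintype.linearIndependent_iff.mp hli (fun x => c (a x)) h2
    funext i
    by_cases hi : i ∈ Finset.univ.image a
    · obtain ⟨x, _, rfl⟩ := Finset.mem_image.mp hi
      exact h4 x
    · exact h0 i hi

/-- Coordinate complement over the integers. -/
theorem coordInt74 {m : ℕ} (L : Submodule ℤ (Fin m → ℤ)) :
    ∃ I : Finset (Fin m), I.card + finrank ℤ L = m ∧ ∀ c ∈ L, (∀ i ∉ I, c i = 0) → c = 0 := by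
  classical
  let b := Module.finBasis ℤ L
  let ι : (Fin m → ℤ) →ₗ[ℤ] (Fin m → ℚ) :=
    { toFun := fun c i => (c i : ℚ)
      map_add' := by intro x y; funext i; simp
      map_smul' := by intro r x; funext i; simp }
  have hι : Function.Injective ι := by
    intro x y h
    funext i
    have h1 : ((x i : ℤ) : ℚ) = ((y i : ℤ) : ℚ) := congrFun h i
    exact_mod_cast h1
  let v : Fin (finrank ℤ L) → (Fin m → ℚ) := fun i => ι (b i)
  have hv : LinearIndependent ℤ v := by
    have h1 : LinearIndependent ℤ (fun i => (b i : Fin m → ℤ)) :=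
      b.linearIndependent.map' L.subtype (Submodule.ker_subtype L)
    exact h1.map' ι (LinearMap.ker_eq_bot.mpr hι)
  have hv' : LinearIndependent ℚ v := (LinearIndependent.iff_fractionRing ℤ ℚ).mp hv
  obtain ⟨I, hI, hI'⟩ := coordField74 (Submodule.span ℚ (Set.range v))
  refine ⟨I, ?_, ?_⟩
  · rw [finrank_span_eq_card hv', Fintype.card_fin] at hI
    exact hI
  · intro c hc h0
    apply hι
    rw [map_zero]
    apply hI' (ι c)
    · have h1 : c = ∑ i, b.repr ⟨c, hc⟩ i • (b i : Fin m → ℤ) := by
        have h2 := congrArg (L.subtype) (b.sum_repr ⟨c, hc⟩)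
        rw [map_sum] at h2
        simp only [map_smul, Submodule.subtype_apply] at h2
        exact h2.symm
      rw [h1, map_sum]
      apply Submodule.sum_mem
      intro i _
      rw [map_zsmul]
      have h3 : ι (b i) ∈ Submodule.span ℚ (Set.range v) := Submodule.subset_span ⟨i, rfl⟩
      exact zsmul_mem h3 _
    · intro i hi
      show ((c i : ℤ) : ℚ) = 0
      rw [h0 i hi]; simp

/-- Z4. Many classes of a box modulo a subgroup. -/
theorem count_74 : S_count := by
  classical
  intro D T Δ
  obtain ⟨I, hI, hI'⟩ := coordInt74 Δ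
  let B : Finset (Fin D → ℤ) :=
    Fintype.piFinset (fun ν => if ν ∈ I then Finset.Icc (0 : ℤ) T else {0})
  refine ⟨B, ?_, ?_, ?_⟩
  · intro t ht ν
    have h := (Fintype.mem_piFinset.mp ht) ν
    split_ifs at h with h1
    · exact Finset.mem_Icc.mp h
    · rw [Finset.mem_singleton.mp h]
      exact ⟨le_refl _, by positivity⟩
  · intro t ht t' ht' h
    have h1 : t - t' = 0 := by
      apply hI' _ h
      intro i hi
      have h2 := (Fintype.mem_piFinset.mp ht) i
      have h3 := (Fintype.mem_piFinset.mp ht') i
      rw [if_neg hi, Finset.mem_singleton] at h2 h3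
      simp [h2, h3]
    exact sub_eq_zero.mp h1
  · have h1 : B.card = (T + 1) ^ I.card := by
      rw [Fintype.card_piFinset]
      have h2 : ∀ ν : Fin D, (if ν ∈ I then Finset.Icc (0 : ℤ) T else {0}).card =
          if ν ∈ I then (T + 1) else 1 := by
        intro ν
        split_ifs
        · simp
        · simp
      rw [Finset.prod_congr rfl (fun ν _ => h2 ν), Finset.prod_ite, Finset.prod_const_one, mul_one,
        Finset.prod_const]
      congr 2
      ext ν
      simp
    rw [h1]
    have h2 : D - finrank ℤ Δ = I.card := by omega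
    rw [h2]

end Pool.Agent.Lib.MP_c50dba_nt.EX
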