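import Pool.Agent.Lib.MP_c50dba_nt.EX.Stmts
import Pool.Agent.Lib.MP_c50dba_nt.Interp

set_option autoImplicit false

/-!
EXPANSION, module M10: the interpolation determinant on `G_a^w × G_m^l`.
-/

namespace Pool.Agent.Lib.MP_c50dba_nt.EX

open MvPolynomial NumberField Module

namespace Det32

/-- Evaluation as a sum over a box of monomials. -/
lemma eval_eq_box {C : Type*} [Field C] {r n : ℕ} (F : MvPolynomial (Fin r) C)
    (hF : ∀ i, F.degreeOf i < n) (ζ : Fin r → C) :
    eval ζ F = ∑ k : Fin r → Fin n,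
      coeff (Finsupp.equivFunOnFinite.symm (fun i => (k i : ℕ))) F * ∏ i, ζ i ^ (k i : ℕ) := by
  classical
  let toF : (Fin r → Fin n) → (Fin r →₀ ℕ) :=
    fun k => Finsupp.equivFunOnFinite.symm (fun i => (k i : ℕ))
  have htoF : Function.Injective toF := by
    intro k k' h
    funext i
    apply Fin.ext
    exact DFunLike.congr_fun h i
  rw [eval_eq']
  have h1 : F.support ⊆ Finset.univ.image toF := by
    intro d hd
    rw [Finset.mem_image]
    refine ⟨fun i => ⟨d i, ?_⟩, Finset.mem_univ _, ?_⟩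
    · exact lt_of_le_of_lt (monomial_le_degreeOf i hd) (hF i)
    · ext i; rfl
  rw [Finset.sum_subset h1, Finset.sum_image (fun _ _ _ _ h => htoF h)]
  · rfl
  · intro d _ hd
    rw [notMem_support_iff.mp hd, zero_mul]

/-- The linear form with coefficients `c`. -/
noncomputable def lform {C : Type*} [Field C] {r : ℕ} (c : Fin r → C) : MvPolynomial (Fin r) C :=
  ∑ i, MvPolynomial.C (c i) * X i

lemma eval_lform {C : Type*} [Field C] {r : ℕ} (c ζ : Fin r → C) :
    eval ζ (lform c) = ∑ i, c i * ζ i := by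
  simp [lform]

lemma degreeOf_lform_le {C : Type*} [Field C] {r : ℕ} (c : Fin r → C) (i : Fin r) :
    (lform c).degreeOf i ≤ 1 := by
  classical
  refine (degreeOf_sum_le i _ _).trans ?_
  apply Finset.sup_le
  intro j _
  refine (degreeOf_C_mul_le _ _ _).trans ?_
  rw [degreeOf_X]
  split_ifs <;> simp

variable {p : ℕ} [hp : Fact p.Prime]

/-- Upper bound for interpolation determinants of products of powers of linear forms and
exponentials. -/
theorem norm_det_mixed_le {C : Type*} [NormedField C] [CompleteSpace C] [IsUltrametricDist C]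
    [NormedAlgebra ℚ_[p] C] {ι : Type*} [Fintype ι] [DecidableEq ι] (r T S w : ℕ) (hT : 1 ≤ T)
    (lin : Fin w → Fin r → C) (hlin : ∀ i i', ‖lin i i'‖ ≤ 1)
    (τ : ι → Fin w → ℕ) (hτ : ∀ m, ∑ i, τ m i ≤ S)
    (v : ι → Fin r → C) (hv : ∀ m i, ‖v m i‖ ≤ 1 / 4)
    (ζ : ι → Fin r → C) (hζ : ∀ m i, ‖ζ m i‖ ≤ 1) :
    ‖(Matrix.of (fun m t => (∏ i, (∑ i', lin i i' * ζ t i') ^ τ m i) *
      ex (∑ i', v m i' * ζ t i'))).det‖ ≤ (1 / 2) ^ (T * (Fintype.card ι - (S + T) ^ r)) := by
  classical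
  let pr : ι → ι → C := fun m t => ∏ i, (∑ i', lin i i' * ζ t i') ^ τ m i
  let tr : ι → ι → C := fun m t =>
    ∑ j ∈ Finset.range T, (∑ i', v m i' * ζ t i') ^ j / (j.factorial : C)
  let F : ι → MvPolynomial (Fin r) C := fun m => (∏ i, lform (lin i) ^ τ m i) *
    ∑ j ∈ Finset.range T, MvPolynomial.C ((j.factorial : C)⁻¹) * lform (v m) ^ j
  have hFeval : ∀ m t, eval (ζ t) (F m) = pr m t * tr m t := by
    intro m t
    simp only [F, pr, tr, map_mul, map_prod, map_pow, map_sum, eval_lform, eval_C]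
    congr 1
    apply Finset.sum_congr rfl
    intro j _
    rw [div_eq_mul_inv, mul_comm]
  have hFdeg : ∀ m i, (F m).degreeOf i < S + T := by
    intro m i
    have h1 : (∏ i, lform (lin i) ^ τ m i).degreeOf i ≤ S := by
      refine (degreeOf_prod_le i _ _).trans ?_
      refine le_trans (Finset.sum_le_sum (fun j _ => ?_)) (hτ m)
      refine (degreeOf_pow_le i _ _).trans ?_
      calc τ m j * (lform (lin j)).degreeOf i ≤ τ m j * 1 :=
            Nat.mul_le_mul_left _ (degreeOf_lform_le _ _)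
        _ = τ m j := mul_one _
    have h2 : (∑ j ∈ Finset.range T, MvPolynomial.C ((j.factorial : C)⁻¹) *
        lform (v m) ^ j).degreeOf i ≤ T - 1 := by
      refine (degreeOf_sum_le i _ _).trans ?_
      apply Finset.sup_le
      intro j hj
      rw [Finset.mem_range] at hj
      refine (degreeOf_C_mul_le _ _ _).trans ?_
      refine (degreeOf_pow_le i _ _).trans ?_
      calc j * (lform (v m)).degreeOf i ≤ j * 1 :=
            Nat.mul_le_mul_left _ (degreeOf_lform_le _ _)
        _ ≤ T - 1 := by omega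
    have h3 := (degreeOf_mul_le i (∏ i, lform (lin i) ^ τ m i)
      (∑ j ∈ Finset.range T, MvPolynomial.C ((j.factorial : C)⁻¹) * lform (v m) ^ j))
    simp only [F]
    omega
  let A : ι → (Fin r → Fin (S + T)) → C := fun m k =>
    coeff (Finsupp.equivFunOnFinite.symm (fun i => (k i : ℕ))) (F m)
  let B : (Fin r → Fin (S + T)) → ι → C := fun k t => ∏ i, ζ t i ^ (k i : ℕ)
  let U : ι → ι → C := fun m t => pr m t * tr m t
  let W : ι → ι → C := fun m t => pr m t * (ex (∑ i', v m i' * ζ t i') - tr m t)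
  have hUW : (fun m t => (∏ i, (∑ i', lin i i' * ζ t i') ^ τ m i) *
      ex (∑ i', v m i' * ζ t i')) = U + W := by
    funext m t
    simp only [U, W, pr, Pi.add_apply]
    ring
  have hU : ∀ m, U m = ∑ k, A m k • B k := by
    intro m
    funext t
    rw [Finset.sum_apply]
    simp only [U, A, B, Pi.smul_apply, smul_eq_mul]
    rw [← hFeval, eval_eq_box (F m) (hFdeg m)]
  have hu : ∀ m t, ‖∑ i', v m i' * ζ t i'‖ ≤ 1 / 4 := by
    intro m t
    have h1 := norm_sum_mul_le (w := ζ t) (z := v m) (hζ t) (hv m)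
    rwa [Finset.sum_congr rfl (fun i _ => mul_comm (v m i) (ζ t i))]
  have hpr : ∀ m t, ‖pr m t‖ ≤ 1 := by
    intro m t
    simp only [pr]
    rw [norm_prod]
    apply Finset.prod_le_one (fun i _ => norm_nonneg _)
    intro i _
    rw [norm_pow]
    apply pow_le_one₀ (norm_nonneg _)
    apply IsUltrametricDist.norm_sum_le_of_forall_le_of_nonneg zero_le_one
    intro i' _
    rw [norm_mul]
    exact mul_le_one₀ (hlin i i') (norm_nonneg _) (hζ t i')
  have h1 := norm_det_low_rank_le A B U W hU ((1 / 2) ^ T) (by positivity)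
    (pow_le_one₀ (by norm_num) (by norm_num))
    (fun m t => by
      simp only [U]
      rw [norm_mul]
      exact mul_le_one₀ (hpr m t) (norm_nonneg _) (norm_trunc_le (p := p) (hu m t) T))
    (fun m t => by
      simp only [W]
      rw [norm_mul]
      calc ‖pr m t‖ * ‖ex (∑ i', v m i' * ζ t i') - tr m t‖ ≤ 1 * (1 / 2) ^ T := by
            gcongr
            · exact hpr m t
            · exact norm_ex_sub_trunc_le (p := p) (hu m t) T
        _ = _ := one_mul _)
  rw [hUW]
  refine h1.trans ?_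
  rw [← pow_mul]
  apply le_of_eq
  congr 2
  simp

/-- Liouville for determinants. -/
theorem one_le_of_det {C : Type*} [NormedField C] [IsUltrametricDist C]
    [NormedAlgebra ℚ_[p] C] {K : Type*} [Field K] [NumberField K] (φ : K →+* C)
    {ι : Type*} [Fintype ι] [DecidableEq ι] (M : Matrix ι ι K) (hM : M.det ≠ 0)
    (dd : ℕ) (hdd : dd ≠ 0) (e : ℕ) (bb : ι → ι → 𝓞 K)
    (hbb : ∀ m m', ((bb m m' : 𝓞 K) : K) = (dd : K) ^ e * M m m') (H : ℝ)
    (hH : ∀ m m', house ((bb m m' : 𝓞 K) : K) ≤ H) :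
    1 ≤ ‖φ M.det‖ * ((Fintype.card ι).factorial * H ^ (Fintype.card ι)) ^ (finrank ℚ K) := by
  set B : 𝓞 K := (Matrix.of bb).det with hB
  have hBK : ((B : 𝓞 K) : K) = ((dd : K) ^ e) ^ (Fintype.card ι) * M.det := by
    have h1 : ((B : 𝓞 K) : K) = ((algebraMap (𝓞 K) K).mapMatrix (Matrix.of bb)).det := by
      rw [hB]
      exact RingHom.map_det _ _
    have h2 : (algebraMap (𝓞 K) K).mapMatrix (Matrix.of bb) = ((dd : K) ^ e) • M := by
      ext m m'
      rw [RingHom.mapMatrix_apply, Matrix.map_apply, Matrix.smul_apply, Matrix.of_apply,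
        smul_eq_mul]
      exact hbb m m'
    rw [h1, h2, Matrix.det_smul]
  have hB0 : B ≠ 0 := by
    intro h
    rw [h] at hBK
    have h1 : ((0 : 𝓞 K) : K) = 0 := rfl
    rw [h1] at hBK
    have h2 : ((dd : K) ^ e) ^ (Fintype.card ι) ≠ 0 :=
      pow_ne_zero _ (pow_ne_zero _ (by exact_mod_cast hdd))
    exact hM ((mul_eq_zero.mp hBK.symm).resolve_left h2)
  have hBH : house ((B : 𝓞 K) : K) ≤ (Fintype.card ι).factorial * H ^ (Fintype.card ι) := by
    have h1 : ((B : 𝓞 K) : K) = (Matrix.of (fun m m' => ((bb m m' : 𝓞 K) : K))).det := by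
      rw [hB]
      exact RingHom.map_det (algebraMap (𝓞 K) K) _
    rw [h1]
    exact house_det_le _ _ (fun m m' => hH m m')
  have hliou := liouville (p := p) φ B hB0 hBH
  have h0 : 0 ≤ (Fintype.card ι).factorial * H ^ (Fintype.card ι) :=
    (house_nonneg _).trans hBH
  have hBup : ‖φ ((B : 𝓞 K) : K)‖ ≤ ‖φ M.det‖ := by
    rw [hBK, map_mul, map_pow, map_pow, map_natCast, norm_mul, norm_pow, norm_pow]
    calc (‖(dd : C)‖ ^ e) ^ (Fintype.card ι) * ‖φ M.det‖ ≤ 1 * ‖φ M.det‖ := by
          gcongr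
          exact pow_le_one₀ (by positivity) (pow_le_one₀ (norm_nonneg _)
            (IsUltrametricDist.norm_natCast_le_one C _))
      _ = _ := one_mul _
  refine hliou.trans ?_
  gcongr


/-- Integral entries and their houses. -/
lemma exists_entry {K : Type*} [Field K] [NumberField K] {r w l : ℕ} (β : Fin w → Fin (r + 1) → 𝓞 K)
    (a : Fin l → Fin (r + 1) → K) (dd : ℕ) (γ : Fin l × Fin (r + 1) → 𝓞 K) (A B₀ : ℕ)
    (hγ : ∀ ki, (γ ki : K) = dd * a ki.1 ki.2) (hddA : (dd : ℝ) ≤ 2 ^ A)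
    (hγA : ∀ ki, house (γ ki : K) ≤ 2 ^ A) (hβ : ∀ i ν, house (β i ν : K) ≤ B₀)
    (L₀ L₁ Tm h : ℕ) (hh : (r + 1) * B₀ * Tm ≤ 2 ^ h)
    (τ : Fin w → ℕ) (hτ : ∀ i, τ i ≤ L₀) (s : Fin l → ℕ) (hs : ∀ j, s j ≤ L₁)
    (t : Fin (r + 1) → ℕ) (ht : ∀ ν, t ν ≤ Tm) :
    ∃ b : 𝓞 K, (b : K) = (dd : K) ^ (l * (r + 1) * (L₁ * Tm)) *
        ((∏ i, (∑ ν, (t ν : K) * (β i ν : K)) ^ τ i) * ∏ j, (∏ ν, a j ν ^ t ν) ^ s j) ∧
      house (b : K) ≤ 2 ^ (w * (h * L₀) + A * (l * (r + 1) * (L₁ * Tm))) := by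
  classical
  set e := l * (r + 1) * (L₁ * Tm) with he
  set E := ∑ j, ∑ ν, t ν * s j with hE
  have hEe : E ≤ e := by
    calc E ≤ ∑ _j : Fin l, ∑ _ν : Fin (r + 1), Tm * L₁ := by
          apply Finset.sum_le_sum
          intro j _
          apply Finset.sum_le_sum
          intro ν _
          exact Nat.mul_le_mul (ht ν) (hs j)
      _ = e := by simp [he]; ring
  have hβK : ∀ x : 𝓞 K, algebraMap (𝓞 K) K x = (x : K) := fun _ => rfl
  let b : 𝓞 K := (∏ i, (∑ ν, (t ν : 𝓞 K) * β i ν) ^ τ i) *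
    ((dd : 𝓞 K) ^ (e - E) * ∏ j, ∏ ν, (γ (j, ν)) ^ (t ν * s j))
  have hbK : (b : K) = (∏ i, (∑ ν, (t ν : K) * (β i ν : K)) ^ τ i) *
      ((dd : K) ^ (e - E) * ∏ j, ∏ ν, ((dd : K) * a j ν) ^ (t ν * s j)) := by
    have h6 : ∀ ki, algebraMap (𝓞 K) K (γ ki) = (dd : K) * a ki.1 ki.2 := fun ki => hγ ki
    rw [← hβK]
    simp only [b, map_mul, map_pow, map_natCast, map_prod, map_sum, h6, hβK]
  refine ⟨b, ?_, ?_⟩
  · rw [hbK]
    have h1 : ∀ j ν, ((dd : K) * a j ν) ^ (t ν * s j) =
        (dd : K) ^ (t ν * s j) * a j ν ^ (t ν * s j) := fun j ν => mul_pow _ _ _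
    have h2 : (dd : K) ^ e = (dd : K) ^ (e - E) * (dd : K) ^ E := by
      rw [← pow_add]
      congr 1
      omega
    have h3 : ∏ j, (∏ ν, a j ν ^ t ν) ^ s j = ∏ j, ∏ ν, a j ν ^ (t ν * s j) := by
      apply Finset.prod_congr rfl
      intro j _
      rw [← Finset.prod_pow]
      apply Finset.prod_congr rfl
      intro ν _
      rw [pow_mul]
    rw [h2, h3]
    simp only [h1, Finset.prod_mul_distrib, Finset.prod_pow_eq_pow_sum]
    rw [hE]
    ring
  · have hd' : house ((dd : K)) ≤ 2 ^ A := by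
      have := house_intCast (K := K) (dd : ℤ)
      simp only [Int.cast_natCast] at this
      rw [this]
      simpa using hddA
    have hγ' : ∀ j ν, house ((dd : K) * a j ν) ≤ 2 ^ A := by
      intro j ν
      have := hγA (j, ν)
      rwa [hγ (j, ν)] at this
    have hlin : ∀ i, house (∑ ν, (t ν : K) * (β i ν : K)) ≤ 2 ^ h := by
      intro i
      refine (house_sum_le_sum_house _ _).trans ?_
      calc ∑ ν, house ((t ν : K) * (β i ν : K)) ≤ ∑ _ν : Fin (r + 1), (Tm : ℝ) * B₀ := by
            apply Finset.sum_le_sum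
            intro ν _
            refine (house_mul_le _ _).trans ?_
            have h7 : house ((t ν : K)) ≤ Tm := by
              have := house_intCast (K := K) (t ν : ℤ)
              simp only [Int.cast_natCast] at this
              rw [this]
              simpa using ht ν
            exact mul_le_mul h7 (hβ i ν) (house_nonneg _) (Nat.cast_nonneg _)
        _ = (((r + 1) * B₀ * Tm : ℕ) : ℝ) := by
            simp
            ring
        _ ≤ 2 ^ h := by exact_mod_cast hh
    rw [hbK]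
    calc _ ≤ house (∏ i, (∑ ν, (t ν : K) * (β i ν : K)) ^ τ i) *
          (house ((dd : K) ^ (e - E)) * house (∏ j, ∏ ν, ((dd : K) * a j ν) ^ (t ν * s j))) := by
          refine (house_mul_le _ _).trans ?_
          gcongr
          · exact house_nonneg _
          · exact house_mul_le _ _
      _ ≤ (∏ _i : Fin w, (2 ^ h : ℝ) ^ L₀) *
          ((2 ^ A) ^ (e - E) * ∏ j, ∏ ν, (2 ^ A : ℝ) ^ (t ν * s j)) := by
          gcongr
          · exact mul_nonneg (house_nonneg _) (house_nonneg _)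
          · refine (house_prod_le' _ _).trans ?_
            apply Finset.prod_le_prod (fun _ _ => house_nonneg _)
            intro i _
            refine (house_pow_le _ _).trans ?_
            refine (pow_le_pow_left₀ (house_nonneg _) (hlin i) _).trans ?_
            exact pow_le_pow_right₀ (one_le_pow₀ one_le_two) (hτ i)
          · exact house_nonneg _
          · exact (house_pow_le _ _).trans (pow_le_pow_left₀ (house_nonneg _) hd' _)
          · refine (house_prod_le' _ _).trans ?_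
            apply Finset.prod_le_prod (fun _ _ => house_nonneg _)
            intro j _
            refine (house_prod_le' _ _).trans ?_
            apply Finset.prod_le_prod (fun _ _ => house_nonneg _)
            intro ν _
            exact (house_pow_le _ _).trans (pow_le_pow_left₀ (house_nonneg _) (hγ' j ν) _)
      _ = 2 ^ (w * (h * L₀) + A * e) := by
          simp only [Finset.prod_pow_eq_pow_sum]
          have h8 : e - E + ∑ j, ∑ ν, t ν * s j = e := by omega
          rw [← pow_add, ← pow_mul, ← pow_mul, ← pow_add, h8]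
          congr 1
          simp only [Finset.sum_const, Finset.card_univ, Fintype.card_fin, smul_eq_mul]
          ring


/-- The interpolation determinant, abstract parameters. -/
theorem exists_poly_core {𝒞 : Type*} [NormedField 𝒞] [CompleteSpace 𝒞] [IsUltrametricDist 𝒞]
    [NormedAlgebra ℚ_[p] 𝒞] (r w l : ℕ) {K : Type*} [Field K] [NumberField K]
    (φ : K →+* 𝒞) (β : Fin w → Fin (r + 1) → 𝓞 K) (a : Fin l → Fin (r + 1) → K)
    (y : Fin l → Fin (r + 1) → 𝒞) (hy : ∀ j ν, ‖y j ν‖ ≤ 1 / 4)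
    (hay : ∀ j ν, φ (a j ν) = Pool.Agent.Lib.MP_c50dba_nt.ex (y j ν))
    (i₀ : Fin (r + 1)) (b : Fin r → 𝒞) (hb : ∀ i, ‖b i‖ ≤ 1)
    (hyb : ∀ j, y j i₀ = ∑ i, b i * y j (i₀.succAbove i))
    (hβb : ∀ j, φ (β j i₀ : K) = ∑ i, b i * φ (β j (i₀.succAbove i) : K)) :
    ∃ c : ℕ, ∀ L₀ L₁ Tm h g T : ℕ, 1 ≤ T → L₀ ^ w * L₁ ^ l ≤ 2 ^ g → c * Tm ≤ 2 ^ h →
      c * (L₀ ^ w * L₁ ^ l * (g + h * L₀ + L₁ * Tm)) <
        T * (L₀ ^ w * L₁ ^ l - (w * L₀ + T) ^ r) →
      ∃ P : MvPolynomial (Fin w ⊕ Fin l) K, P ≠ 0 ∧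
        (∀ i, P.degreeOf (Sum.inl i) ≤ L₀) ∧ (∀ j, P.degreeOf (Sum.inr j) ≤ L₁) ∧
        ∀ t : Fin (r + 1) → ℕ, (∀ ν, t ν ≤ Tm) →
          eval (Sum.elim (fun i => ∑ ν, (t ν : K) * (β i ν : K)) (fun j => ∏ ν, a j ν ^ t ν)) P
            = 0 := by
  classical
  obtain ⟨dd, γ, A, hdd0, hγ, hddA, hγA⟩ := exists_denominator K
    (fun ki : Fin l × Fin (r + 1) => a ki.1 ki.2)
  obtain ⟨B₀, hB₀⟩ : ∃ B₀ : ℕ, ∀ i ν, house (β i ν : K) ≤ B₀ := by
    obtain ⟨B₀, hB₀⟩ := exists_nat_ge (∑ i, ∑ ν, house (β i ν : K))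
    refine ⟨B₀, fun i ν => le_trans ?_ hB₀⟩
    calc house (β i ν : K) ≤ ∑ ν, house (β i ν : K) :=
          Finset.single_le_sum (f := fun ν => house (β i ν : K)) (fun _ _ => house_nonneg _)
            (Finset.mem_univ ν)
      _ ≤ ∑ i, ∑ ν, house (β i ν : K) :=
          Finset.single_le_sum (f := fun i => ∑ ν, house (β i ν : K))
            (fun _ _ => Finset.sum_nonneg (fun _ _ => house_nonneg _)) (Finset.mem_univ i)
  set D := finrank ℚ K with hD
  refine ⟨D * (1 + w + A * (l * (r + 1))) + (r + 1) * B₀, ?_⟩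
  set c := D * (1 + w + A * (l * (r + 1))) + (r + 1) * B₀ with hc
  intro L₀ L₁ Tm h g T hT hg hh hparam
  have hh' : (r + 1) * B₀ * Tm ≤ 2 ^ h :=
    le_trans (Nat.mul_le_mul_right _ (by omega)) hh
  let ι := (Fin w → Fin L₀) × (Fin l → Fin L₁)
  have hιcard : Fintype.card ι = L₀ ^ w * L₁ ^ l := by simp [ι]
  let Pt := Fin (r + 1) → Fin (Tm + 1)
  let M : Matrix ι Pt K := Matrix.of (fun m t =>
    (∏ i, (∑ ν, ((t ν : ℕ) : K) * (β i ν : K)) ^ (m.1 i : ℕ)) *
      ∏ j, (∏ ν, a j ν ^ (t ν : ℕ)) ^ (m.2 j : ℕ))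
  -- the rows are dependent
  have hdep : ¬ LinearIndependent K (fun m => M m) := by
    intro hli
    obtain ⟨cc, hcinj, hdet⟩ := exists_minor_ne_zero M hli
    -- arithmetic
    have hent : ∀ m m', ∃ b : 𝓞 K, (b : K) = (dd : K) ^ (l * (r + 1) * (L₁ * Tm)) *
        (M.submatrix id cc) m m' ∧
        house (b : K) ≤ 2 ^ (w * (h * L₀) + A * (l * (r + 1) * (L₁ * Tm))) := by
      intro m m'
      exact exists_entry β a dd γ A B₀ hγ hddA hγA hB₀ L₀ L₁ Tm h hh'
        (fun i => (m.1 i : ℕ)) (fun i => (m.1 i).isLt.le) (fun j => (m.2 j : ℕ))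
        (fun j => (m.2 j).isLt.le) (fun ν => (cc m' ν : ℕ)) (fun ν => Nat.lt_succ_iff.mp (cc m' ν).isLt)
    choose bb hbb hbbH using hent
    have hliou := one_le_of_det (p := p) φ (M.submatrix id cc) hdet dd hdd0 _ bb hbb _ hbbH
    -- the analytic upper bound
    have hup : ‖φ (M.submatrix id cc).det‖ ≤
        (1 / 2) ^ (T * (Fintype.card ι - (w * L₀ + T) ^ r)) := by
      let lin : Fin w → Fin r → 𝒞 := fun i i' => φ (β i (i₀.succAbove i') : K)
      let v : ι → Fin r → 𝒞 := fun m i' => ∑ j, ((m.2 j : ℕ) : 𝒞) * y j (i₀.succAbove i')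
      let ζ : ι → Fin r → 𝒞 := fun m' i' => ((cc m' (i₀.succAbove i') : ℕ) : 𝒞) +
        ((cc m' i₀ : ℕ) : 𝒞) * b i'
      have hlin : ∀ i i', ‖lin i i'‖ ≤ 1 := by
        intro i i'
        apply norm_le_one_of_isIntegral
        exact (β i (i₀.succAbove i')).isIntegral_coe.map (φ : K →+* 𝒞).toIntAlgHom
      have hv : ∀ m i, ‖v m i‖ ≤ 1 / 4 := by
        intro m i
        apply IsUltrametricDist.norm_sum_le_of_forall_le_of_nonneg (by norm_num)
        intro j _
        rw [norm_mul]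
        calc ‖((m.2 j : ℕ) : 𝒞)‖ * ‖y j (i₀.succAbove i)‖ ≤ 1 * (1 / 4) := by
              gcongr
              · exact IsUltrametricDist.norm_natCast_le_one 𝒞 _
              · exact hy _ _
          _ = 1 / 4 := one_mul _
      have hζ : ∀ m i, ‖ζ m i‖ ≤ 1 := by
        intro m i
        refine (IsUltrametricDist.norm_add_le_max _ _).trans (max_le ?_ ?_)
        · exact IsUltrametricDist.norm_natCast_le_one 𝒞 _
        · rw [norm_mul]
          exact mul_le_one₀ (IsUltrametricDist.norm_natCast_le_one 𝒞 _) (norm_nonneg _) (hb i)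
      have h1 := norm_det_mixed_le (p := p) r T (w * L₀) w hT lin hlin
        (fun m i => ((m : ι).1 i : ℕ)) (fun m => by
          calc ∑ i, ((m : ι).1 i : ℕ) ≤ ∑ _i : Fin w, L₀ :=
                Finset.sum_le_sum (fun i _ => (m.1 i).isLt.le)
            _ = w * L₀ := by simp) v hv ζ hζ
      have hlinform : ∀ (x : Fin (r + 1) → 𝒞), x i₀ = ∑ i, b i * x (i₀.succAbove i) →
          ∀ m' : ι, ∑ i', ζ m' i' * x (i₀.succAbove i') = ∑ ν, ((cc m' ν : ℕ) : 𝒞) * x ν := by
        intro x hx m'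
        rw [Fin.sum_univ_succAbove _ i₀, hx, Finset.mul_sum, ← Finset.sum_add_distrib]
        apply Finset.sum_congr rfl
        intro i _
        simp only [ζ]
        ring
      have h2 : φ (M.submatrix id cc).det = (Matrix.of (fun m t =>
          (∏ i, (∑ i', lin i i' * ζ t i') ^ ((m : ι).1 i : ℕ)) *
            ex (∑ i', v m i' * ζ t i'))).det := by
        rw [RingHom.map_det]
        congr 1
        ext m m'
        rw [RingHom.mapMatrix_apply, Matrix.map_apply, Matrix.submatrix_apply, Matrix.of_apply]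
        simp only [M, Matrix.of_apply, id]
        rw [map_mul, map_prod, map_prod]
        congr 1
        · apply Finset.prod_congr rfl
          intro i _
          rw [map_pow, map_sum]
          congr 1
          have h3 := hlinform (fun ν => φ (β i ν : K)) (hβb i) m'
          simp only [map_mul, map_natCast, lin]
          rw [← h3]
          apply Finset.sum_congr rfl
          intro i' _
          ring
        · have h5 : ∀ j ν, ‖((((m.2 j : ℕ) * (cc m' ν : ℕ) : ℕ) : 𝒞) * y j ν)‖ ≤ 1 / 4 := by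
            intro j ν
            rw [norm_mul]
            calc ‖((((m.2 j : ℕ) * (cc m' ν : ℕ) : ℕ) : 𝒞))‖ * ‖y j ν‖ ≤ 1 * (1 / 4) := by
                  gcongr
                  · exact IsUltrametricDist.norm_natCast_le_one 𝒞 _
                  · exact hy _ _
              _ = 1 / 4 := one_mul _
          have h6 : ∑ i', v m i' * ζ m' i' =
              ∑ j, ∑ ν, (((m.2 j : ℕ) * (cc m' ν : ℕ) : ℕ) : 𝒞) * y j ν := by
            have h7 : ∀ j, ∑ ν, (((m.2 j : ℕ) * (cc m' ν : ℕ) : ℕ) : 𝒞) * y j ν =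
                ((m.2 j : ℕ) : 𝒞) * ∑ i', ζ m' i' * y j (i₀.succAbove i') := by
              intro j
              rw [hlinform (fun ν => y j ν) (hyb j) m', Finset.mul_sum]
              apply Finset.sum_congr rfl
              intro ν _
              push_cast
              ring
            rw [Finset.sum_congr rfl (fun j _ => h7 j)]
            simp only [v, Finset.sum_mul, Finset.mul_sum]
            rw [Finset.sum_comm]
            apply Finset.sum_congr rfl
            intro j _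
            apply Finset.sum_congr rfl
            intro i' _
            ring
          rw [h6, ex_sum (p := p)]
          · apply Finset.prod_congr rfl
            intro j _
            rw [ex_sum (p := p) _ _ (fun ν _ => h5 j ν), map_pow, map_prod, ← Finset.prod_pow]
            apply Finset.prod_congr rfl
            intro ν _
            rw [ex_nat_mul (p := p) (hy j ν), map_pow, hay, ← pow_mul, mul_comm]
          · intro j _
            apply IsUltrametricDist.norm_sum_le_of_forall_le_of_nonneg (by norm_num)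
            intro ν _
            exact h5 j ν
      rw [h2]
      exact h1
    -- comparison
    set N := L₀ ^ w * L₁ ^ l with hN
    set H := w * (h * L₀) + A * (l * (r + 1) * (L₁ * Tm)) with hH
    rw [hιcard] at hliou hup
    have hHN : ((N.factorial : ℝ) * (2 ^ H) ^ N) ≤ 2 ^ (N * (g + H)) := by
      have h1 : N.factorial ≤ 2 ^ (N * g) := by
        calc N.factorial ≤ N ^ N := Nat.factorial_le_pow _
          _ ≤ (2 ^ g) ^ N := Nat.pow_le_pow_left hg _
          _ = 2 ^ (N * g) := by rw [← pow_mul, mul_comm]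
      have h1' : (N.factorial : ℝ) ≤ 2 ^ (N * g) := by exact_mod_cast h1
      calc ((N.factorial : ℝ) * (2 ^ H) ^ N) ≤ 2 ^ (N * g) * (2 ^ H) ^ N := by gcongr
        _ = 2 ^ (N * (g + H)) := by
            rw [← pow_mul, ← pow_add]
            congr 1
            ring
    have hfin : (1 : ℝ) ≤ (1 / 2) ^ (T * (N - (w * L₀ + T) ^ r)) * 2 ^ (D * (N * (g + H))) := by
      calc (1 : ℝ) ≤ _ := hliou
        _ ≤ (1 / 2) ^ (T * (N - (w * L₀ + T) ^ r)) * (2 ^ (N * (g + H))) ^ D := by
            gcongr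
        _ = _ := by rw [← pow_mul, mul_comm D]
    have hlt : D * (N * (g + H)) < T * (N - (w * L₀ + T) ^ r) := by
      refine lt_of_le_of_lt ?_ hparam
      have h9 : g + H ≤ (1 + w + A * (l * (r + 1))) * (g + h * L₀ + L₁ * Tm) := by
        rw [hH]
        calc g + (w * (h * L₀) + A * (l * (r + 1) * (L₁ * Tm))) =
              1 * g + w * (h * L₀) + (A * (l * (r + 1))) * (L₁ * Tm) := by ring
          _ ≤ 1 * (g + h * L₀ + L₁ * Tm) + w * (g + h * L₀ + L₁ * Tm) +
              (A * (l * (r + 1))) * (g + h * L₀ + L₁ * Tm) := by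
              gcongr <;> omega
          _ = _ := by ring
      calc D * (N * (g + H)) ≤ D * (N * ((1 + w + A * (l * (r + 1))) * (g + h * L₀ + L₁ * Tm))) := by
            gcongr
        _ = D * (1 + w + A * (l * (r + 1))) * (N * (g + h * L₀ + L₁ * Tm)) := by ring
        _ ≤ c * (N * (g + h * L₀ + L₁ * Tm)) := by
            apply Nat.mul_le_mul_right
            omega
    have hlt' : (1 / 2 : ℝ) ^ (T * (N - (w * L₀ + T) ^ r)) * 2 ^ (D * (N * (g + H))) < 1 := by
      have h1 : (2 : ℝ) ^ (D * (N * (g + H))) < 2 ^ (T * (N - (w * L₀ + T) ^ r)) :=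
        pow_lt_pow_right₀ (by norm_num) hlt
      calc (1 / 2 : ℝ) ^ (T * (N - (w * L₀ + T) ^ r)) * 2 ^ (D * (N * (g + H))) <
            (1 / 2 : ℝ) ^ (T * (N - (w * L₀ + T) ^ r)) * 2 ^ (T * (N - (w * L₀ + T) ^ r)) := by
            gcongr
        _ = 1 := by rw [← mul_pow]; norm_num
    linarith
  -- the polynomial
  rw [Fintype.not_linearIndependent_iff] at hdep
  obtain ⟨q, hq, m₀, hm₀⟩ := hdep
  let toF : ι → (Fin w ⊕ Fin l →₀ ℕ) := fun m => Finsupp.equivFunOnFinite.symm
    (Sum.elim (fun i => (m.1 i : ℕ)) (fun j => (m.2 j : ℕ)))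
  have htoF1 : ∀ m i, toF m (Sum.inl i) = (m.1 i : ℕ) := fun m i => rfl
  have htoF2 : ∀ m j, toF m (Sum.inr j) = (m.2 j : ℕ) := fun m j => rfl
  have htoFinj : Function.Injective toF := by
    intro m m' h
    apply Prod.ext
    · funext i
      apply Fin.ext
      rw [← htoF1, ← htoF1, h]
    · funext j
      apply Fin.ext
      rw [← htoF2, ← htoF2, h]
  have hdeg : ∀ (x : Fin w ⊕ Fin l) (n : ℕ), (∀ m, toF m x ≤ n) →
      degreeOf x (∑ m, MvPolynomial.monomial (toF m) (q m)) ≤ n := by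
    intro x n hn
    refine (MvPolynomial.degreeOf_sum_le x _ _).trans ?_
    apply Finset.sup_le
    intro m _
    by_cases hqm : q m = 0
    · simp [hqm]
    · rw [MvPolynomial.degreeOf_monomial_eq _ _ hqm]
      exact hn m
  refine ⟨∑ m, MvPolynomial.monomial (toF m) (q m), ?_, ?_, ?_, ?_⟩
  · intro h
    apply hm₀
    have h1 := congrArg (MvPolynomial.coeff (toF m₀)) h
    rw [MvPolynomial.coeff_sum, MvPolynomial.coeff_zero] at h1
    simp only [MvPolynomial.coeff_monomial] at h1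
    rw [Finset.sum_eq_single m₀] at h1
    · simpa using h1
    · intro m _ hm
      rw [if_neg (fun h => hm (htoFinj h))]
    · intro h
      exact absurd (Finset.mem_univ _) h
  · intro i
    exact hdeg _ _ (fun m => by rw [htoF1]; exact (m.1 i).isLt.le)
  · intro j
    exact hdeg _ _ (fun m => by rw [htoF2]; exact (m.2 j).isLt.le)
  · intro t ht
    rw [map_sum]
    have h1 := congrFun hq (fun ν => (⟨t ν, Nat.lt_succ_iff.mpr (ht ν)⟩ : Fin (Tm + 1)))
    rw [Finset.sum_apply] at h1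
    simp only [Pi.zero_apply] at h1
    rw [← h1]
    apply Finset.sum_congr rfl
    intro m _
    rw [MvPolynomial.eval_monomial, Finsupp.prod_fintype _ _ (fun i => pow_zero _),
      Fintype.prod_sum_type]
    simp only [M, Matrix.of_apply, Pi.smul_apply, smul_eq_mul, htoF1, htoF2, Sum.elim_inl,
      Sum.elim_inr]

/-- The choice of parameters. -/
lemma det_param (c r w l A q m : ℕ) (hA : 1 ≤ A) (hqA : q ≤ A)
    (h : A * r + 1 ≤ (A - 1) * w + q * l) :
    ∃ X₀ : ℕ, ∀ X ≥ X₀, ∃ h' g T : ℕ, 1 ≤ T ∧ (X ^ (A - 1)) ^ w * (X ^ q) ^ l ≤ 2 ^ g ∧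
      c * (m * X ^ (A - q)) ≤ 2 ^ h' ∧
      c * ((X ^ (A - 1)) ^ w * (X ^ q) ^ l * (g + h' * X ^ (A - 1) + X ^ q * (m * X ^ (A - q)))) <
        T * ((X ^ (A - 1)) ^ w * (X ^ q) ^ l - (w * X ^ (A - 1) + T) ^ r) := by
  set n := (A - 1) * w + q * l with hn
  set κ := n + (c * m + A) + m with hκ
  set C := 2 * (c * κ) + 1 with hC
  refine ⟨2 * (w + C) ^ r + 1, ?_⟩
  intro X hX
  have hX1 : 1 ≤ X := by omega
  have hXn : ∀ j, X ^ j ≤ 2 ^ (j * X) := by
    intro j
    calc X ^ j ≤ (2 ^ X) ^ j := Nat.pow_le_pow_left Nat.lt_two_pow_self.le _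
      _ = 2 ^ (j * X) := by rw [← pow_mul, mul_comm]
  have hN : (X ^ (A - 1)) ^ w * (X ^ q) ^ l = X ^ n := by
    rw [← pow_mul, ← pow_mul, ← pow_add]
  have hXA : X * X ^ (A - 1) = X ^ A := by
    rw [← pow_succ']
    congr 1
    omega
  have hXA1 : X ^ (A - 1) ≤ X ^ A := Nat.pow_le_pow_right hX1 (by omega)
  have hXXA : X ≤ X ^ A := by
    calc X = X ^ 1 := (pow_one X).symm
      _ ≤ X ^ A := Nat.pow_le_pow_right hX1 hA
  have hApos : 0 < X ^ A := by positivity
  refine ⟨c * m + A * X, n * X, C * X ^ A, ?_, ?_, ?_, ?_⟩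
  · exact Nat.mul_pos (by omega) hApos
  · rw [hN]
    exact hXn n
  · calc c * (m * X ^ (A - q)) = (c * m) * X ^ (A - q) := by ring
      _ ≤ 2 ^ (c * m) * 2 ^ ((A - q) * X) :=
          Nat.mul_le_mul Nat.lt_two_pow_self.le (hXn _)
      _ = 2 ^ (c * m + (A - q) * X) := by rw [pow_add]
      _ ≤ 2 ^ (c * m + A * X) := Nat.pow_le_pow_right (by norm_num) (by
          have : (A - q) * X ≤ A * X := Nat.mul_le_mul_right _ (by omega)
          omega)
  · rw [hN]
    have h1 : n * X + (c * m + A * X) * X ^ (A - 1) + X ^ q * (m * X ^ (A - q)) ≤ κ * X ^ A := by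
      have e1 : n * X ≤ n * X ^ A := Nat.mul_le_mul_left _ hXXA
      have e2 : (c * m + A * X) * X ^ (A - 1) ≤ (c * m + A) * X ^ A := by
        calc (c * m + A * X) * X ^ (A - 1) = c * m * X ^ (A - 1) + A * (X * X ^ (A - 1)) := by ring
          _ ≤ c * m * X ^ A + A * X ^ A := by
              rw [hXA]
              exact Nat.add_le_add_right (Nat.mul_le_mul_left _ hXA1) _
          _ = _ := by ring
      have e3 : X ^ q * (m * X ^ (A - q)) = m * X ^ A := by
        calc X ^ q * (m * X ^ (A - q)) = m * (X ^ q * X ^ (A - q)) := by ring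
          _ = m * X ^ A := by
              rw [← pow_add]
              congr 2
              omega
      rw [e3]
      calc n * X + (c * m + A * X) * X ^ (A - 1) + m * X ^ A ≤
            n * X ^ A + (c * m + A) * X ^ A + m * X ^ A := by omega
        _ = κ * X ^ A := by rw [hκ]; ring
    have h2 : 2 * (w * X ^ (A - 1) + C * X ^ A) ^ r ≤ X ^ n := by
      calc 2 * (w * X ^ (A - 1) + C * X ^ A) ^ r ≤ 2 * ((w + C) * X ^ A) ^ r := by
            gcongr
            calc w * X ^ (A - 1) + C * X ^ A ≤ w * X ^ A + C * X ^ A :=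
                  Nat.add_le_add_right (Nat.mul_le_mul_left _ hXA1) _
              _ = (w + C) * X ^ A := by ring
        _ = (2 * (w + C) ^ r) * X ^ (A * r) := by rw [mul_pow, ← pow_mul]; ring
        _ ≤ X * X ^ (A * r) := Nat.mul_le_mul_right _ (by omega)
        _ = X ^ (A * r + 1) := by rw [pow_succ']
        _ ≤ X ^ n := Nat.pow_le_pow_right hX1 h
    have hnpos : 0 < X ^ n := by positivity
    set R := (w * X ^ (A - 1) + C * X ^ A) ^ r with hR
    have h3 : X ^ n ≤ 2 * (X ^ n - R) := by omega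
    have h4 : 2 * (c * (X ^ n * (n * X + (c * m + A * X) * X ^ (A - 1) +
        X ^ q * (m * X ^ (A - q))))) < 2 * (C * X ^ A * (X ^ n - R)) := by
      calc 2 * (c * (X ^ n * (n * X + (c * m + A * X) * X ^ (A - 1) +
            X ^ q * (m * X ^ (A - q))))) ≤ 2 * (c * (X ^ n * (κ * X ^ A))) := by gcongr
        _ = (2 * (c * κ)) * (X ^ A * X ^ n) := by ring
        _ < C * (X ^ A * X ^ n) := by
            apply Nat.mul_lt_mul_of_pos_right
            · omega
            · positivity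
        _ = C * X ^ A * X ^ n := by ring
        _ ≤ C * X ^ A * (2 * (X ^ n - R)) := Nat.mul_le_mul_left _ h3
        _ = 2 * (C * X ^ A * (X ^ n - R)) := by ring
    omega

end Det32

/-- Module M10. -/
theorem det_32 : S_det := by
  intro p hp 𝒞 _ _ _ _ r _ w l K _ _ φ β a y hy hay i₀ b hb hyb hβb A q m hA hqA h
  obtain ⟨c, hc⟩ := Det32.exists_poly_core (p := p) r w l φ β a y hy hay i₀ b hb hyb hβb
  obtain ⟨X₀, hX₀⟩ := Det32.det_param c r w l A q m hA hqA h
  refine ⟨X₀, fun X hX => ?_⟩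
  obtain ⟨h', g, T, h1, h2, h3, h4⟩ := hX₀ X hX
  obtain ⟨P, hP0, hP1, hP2, hP3⟩ := hc _ _ _ h' g T h1 h2 h3 h4
  refine ⟨P, hP0, hP1, hP2, ?_⟩
  intro t ht
  have ht' : ∀ ν, ((t ν).toNat : ℤ) = t ν := fun ν => Int.toNat_of_nonneg (ht ν).1
  have h5 := hP3 (fun ν => (t ν).toNat) (fun ν => by
    have h6 := (ht ν).2
    rw [← ht' ν] at h6
    exact_mod_cast h6)
  rw [← h5]
  congr 2
  funext x
  rcases x with i | j
  · simp only [Sum.elim_inl, xpt]
    apply Finset.sum_congr rfl
    intro ν _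
    have h7 : ((t ν : ℤ) : K) = (((t ν).toNat : ℕ) : K) := by
      calc ((t ν : ℤ) : K) = (((t ν).toNat : ℤ) : K) := by rw [ht' ν]
        _ = (((t ν).toNat : ℕ) : K) := Int.cast_natCast _
    rw [h7]
  · simp only [Sum.elim_inr, Xpt]
    apply Finset.prod_congr rfl
    intro ν _
    calc a j ν ^ (t ν) = a j ν ^ (((t ν).toNat : ℕ) : ℤ) := by rw [ht' ν]
      _ = a j ν ^ (t ν).toNat := zpow_natCast _ _

end Pool.Agent.Lib.MP_c50dba_nt.EX
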