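import Pool.Agent.Lib.MP_c50dba_nt.EX.Stmts

set_option autoImplicit false

namespace Pool.Agent.Lib.MP_c50dba_nt.EX

open MvPolynomial

/-- If every element of a finite algebraically independent family `ξ` is algebraic over a family
`s` of at most as many elements, then the elements of `s` are algebraic over `ξ`. -/
lemma alg_of_count_69 {F Ω ι σ : Type} [Field F] [Field Ω] [Algebra F Ω] [Fintype ι] [Fintype σ]
    (ξ : ι → Ω) (hξ : AlgebraicIndependent F ξ) (s : σ → Ω)
    (hs : ∀ i, IsAlgebraic (Algebra.adjoin F (Set.range s)) (ξ i))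
    (hcard : Fintype.card σ ≤ Fintype.card ι) (j : σ) :
    IsAlgebraic (Algebra.adjoin F (Set.range ξ)) (s j) := by
  classical
  set Mt := AlgebraicIndependent.matroid F Ω with hMt
  have hI : Mt.Indep (Set.range ξ) := by
    rw [hMt, AlgebraicIndependent.matroid_indep_iff]
    exact hξ.to_subtype_range
  have hsub : Set.range ξ ⊆ Mt.closure (Set.range s) := by
    rintro _ ⟨i, rfl⟩
    rw [hMt, AlgebraicIndependent.matroid_closure_eq]
    exact hs i
  have hX : Mt.IsRkFinite (Set.range ξ) := Mt.isRkFinite_of_finite (Set.finite_range ξ)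
  have hr : Mt.eRk (Mt.closure (Set.range s)) ≤ Mt.eRk (Set.range ξ) := by
    rw [Matroid.eRk_closure_eq, hI.eRk_eq_encard]
    refine (Mt.eRk_le_encard _).trans ?_
    have h1 : (Set.range s).encard ≤ Fintype.card σ := by
      rw [← Set.image_univ]
      refine (Set.encard_image_le _ _).trans ?_
      rw [Set.encard_univ, ENat.card_eq_coe_fintype_card]
    have h2 : (Set.range ξ).encard = Fintype.card ι := by
      rw [← Set.image_univ, (hξ.injective.injOn).encard_image, Set.encard_univ,
        ENat.card_eq_coe_fintype_card]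
    rw [h2]
    refine h1.trans ?_
    exact_mod_cast hcard
  have h3 := hX.closure_eq_closure_of_subset_of_eRk_ge_eRk hsub hr
  have h4 : s j ∈ Mt.closure (Set.range ξ) := by
    rw [h3]
    have h5 : Set.range s ⊆ Mt.closure (Set.range s) := Mt.subset_closure _ (by
      rw [hMt, AlgebraicIndependent.matroid_e]
      exact Set.subset_univ _)
    have h6 : Mt.closure (Set.range s) ⊆ Mt.closure (Mt.closure (Set.range s)) :=
      Mt.subset_closure _ (Mt.closure_subset_ground _)
    exact h6 (h5 ⟨j, rfl⟩)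
  rw [hMt, AlgebraicIndependent.matroid_closure_eq] at h4
  exact h4

/-- An element algebraic over a subalgebra contained in the image of a field `F₁` is algebraic
over `F₁`. -/
lemma alg_of_sub_69 {F F₁ Ω : Type} [Field F] [Field F₁] [Field Ω] [Algebra F Ω] [Algebra F F₁]
    [Algebra F₁ Ω] [IsScalarTower F F₁ Ω] (S : Subalgebra F Ω)
    (hS : ∀ x ∈ S, ∃ z : F₁, algebraMap F₁ Ω z = x) (a : Ω) (ha : IsAlgebraic S a) :
    IsAlgebraic F₁ a := by
  obtain ⟨p, hp, hpa⟩ := ha
  have hlift : p.map (algebraMap S Ω) ∈ Polynomial.lifts (algebraMap F₁ Ω) := by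
    rw [Polynomial.lifts_iff_coeff_lifts]
    intro n
    rw [Polynomial.coeff_map]
    obtain ⟨z, hz⟩ := hS _ (p.coeff n).2
    exact ⟨z, hz⟩
  rw [Polynomial.mem_lifts] at hlift
  obtain ⟨q, hq⟩ := hlift
  refine ⟨q, ?_, ?_⟩
  · rintro rfl
    rw [Polynomial.map_zero] at hq
    apply hp
    exact (Polynomial.map_eq_zero_iff (f := algebraMap S Ω) Subtype.val_injective).mp hq.symm
  · rw [Polynomial.aeval_def, ← Polynomial.eval_map, hq, Polynomial.eval_map,
      ← Polynomial.aeval_def, hpa]

/-- M3. -/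
theorem generic_69 : S_generic := by
  classical
  intro F _ _ c M J P hfin
  let A := MvPolynomial (Fin c × Fin M) F
  let K := FractionRing A
  let F₁ := AlgebraicClosure K
  refine ⟨F₁, inferInstance, inferInstance, inferInstance,
    fun i κ => algebraMap A F₁ (X (i, κ)), ?_⟩
  intro Ω _ _ y hyJ hy i
  let _ : Algebra F Ω := ((algebraMap F₁ Ω).comp (algebraMap F F₁)).toAlgebra
  have _ : IsScalarTower F F₁ Ω := IsScalarTower.of_algebraMap_eq (fun x => rfl)
  set ξ : Fin c × Fin M → Ω := fun p => algebraMap F₁ Ω (algebraMap A F₁ (X p)) with hξdef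
  have hA : Function.Injective (algebraMap A F₁) := by
    rw [IsScalarTower.algebraMap_eq A K F₁]
    exact (algebraMap K F₁).injective.comp (IsFractionRing.injective A K)
  have hξ : AlgebraicIndependent F ξ := by
    have h1 : AlgebraicIndependent F (X : Fin c × Fin M → A) := algebraicIndependent_X _ _
    have h2 := h1.map' (f := (IsScalarTower.toAlgHom F A F₁)) hA
    have h3 := h2.map' (f := (IsScalarTower.toAlgHom F F₁ Ω)) (algebraMap F₁ Ω).injective
    exact h3
  have hy2 : ∀ i, ∑ κ, ξ (i, κ) * aeval y (P κ) = 0 := by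
    intro i
    have := hy i
    simp only [map_sum, map_mul, aeval_C, aeval_map_algebraMap] at this
    exact this
  by_cases hall : ∀ κ, aeval y (P κ) = 0
  · exact (hfin Ω y hyJ hall i).tower_top F₁
  · push Not at hall
    obtain ⟨κ₀, hκ₀⟩ := hall
    let s : Fin c ⊕ (Fin c × {κ : Fin M // κ ≠ κ₀}) → Ω :=
      Sum.elim y (fun q => ξ (q.1, q.2.1))
    have hP : ∀ κ, aeval y (P κ) ∈ Algebra.adjoin F (Set.range s) := by
      intro κ
      have h1 : aeval y (P κ) ∈ Algebra.adjoin F (Set.range y) := by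
        rw [Algebra.adjoin_range_eq_range_aeval]
        exact ⟨_, rfl⟩
      refine Algebra.adjoin_mono ?_ h1
      rintro _ ⟨j, rfl⟩
      exact ⟨Sum.inl j, rfl⟩
    have hs : ∀ p, IsAlgebraic (Algebra.adjoin F (Set.range s)) (ξ p) := by
      rintro ⟨i, κ⟩
      by_cases hκ : κ = κ₀
      · subst hκ
        have h1 := hy2 i
        rw [← Finset.add_sum_erase _ _ (Finset.mem_univ κ)] at h1
        have h2 : ∑ κ' ∈ Finset.univ.erase κ, ξ (i, κ') * aeval y (P κ')
            ∈ Algebra.adjoin F (Set.range s) := by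
          apply Subalgebra.sum_mem
          intro κ' hκ'
          apply Subalgebra.mul_mem _ _ (hP κ')
          apply Algebra.subset_adjoin
          exact ⟨Sum.inr (i, ⟨κ', (Finset.mem_erase.mp hκ').1⟩), rfl⟩
        let a : Algebra.adjoin F (Set.range s) := ⟨_, h2⟩
        let b : Algebra.adjoin F (Set.range s) := ⟨_, hP κ⟩
        refine ⟨Polynomial.C b * Polynomial.X + Polynomial.C a, ?_, ?_⟩
        · intro h0
          have h3 := congrArg (fun q => Polynomial.coeff q 1) h0
          simp [Polynomial.coeff_C] at h3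
          exact hκ₀ (congrArg Subtype.val h3)
        · rw [map_add, map_mul, Polynomial.aeval_C, Polynomial.aeval_C, Polynomial.aeval_X]
          have h4 : (algebraMap (Algebra.adjoin F (Set.range s)) Ω) b = aeval y (P κ) := rfl
          have h5 : (algebraMap (Algebra.adjoin F (Set.range s)) Ω) a
            = ∑ κ' ∈ Finset.univ.erase κ, ξ (i, κ') * aeval y (P κ') := rfl
          rw [h4, h5, mul_comm]
          exact h1
      · have h1 : ξ (i, κ) ∈ Algebra.adjoin F (Set.range s) :=
          Algebra.subset_adjoin ⟨Sum.inr (i, ⟨κ, hκ⟩), rfl⟩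
        exact isAlgebraic_algebraMap (⟨_, h1⟩ : Algebra.adjoin F (Set.range s))
    have hcard : Fintype.card (Fin c ⊕ (Fin c × {κ : Fin M // κ ≠ κ₀}))
        ≤ Fintype.card (Fin c × Fin M) := by
      rw [Fintype.card_sum, Fintype.card_prod, Fintype.card_prod, Fintype.card_fin,
        Fintype.card_fin, Fintype.card_subtype_compl, Fintype.card_fin, Fintype.card_subtype_eq]
      have hM : 1 ≤ M := Nat.succ_le_of_lt (lt_of_le_of_lt (Nat.zero_le _) κ₀.2)
      obtain ⟨M', rfl⟩ : ∃ M', M = M' + 1 := ⟨M - 1, by omega⟩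
      rw [Nat.add_sub_cancel]
      apply le_of_eq
      ring
    have h6 := alg_of_count_69 ξ hξ s hs hcard (Sum.inl i)
    refine alg_of_sub_69 (F₁ := F₁) (Algebra.adjoin F (Set.range ξ)) ?_ (y i) h6
    intro x hx
    have h7 : Algebra.adjoin F (Set.range ξ) ≤ (IsScalarTower.toAlgHom F F₁ Ω).range := by
      rw [Algebra.adjoin_le_iff]
      rintro _ ⟨p, rfl⟩
      exact ⟨algebraMap A F₁ (X p), rfl⟩
    exact h7 hx

end Pool.Agent.Lib.MP_c50dba_nt.EX
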