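import Pool.Agent.Lib.MP_c50dba_nt.EX.Stmts

set_option autoImplicit false

namespace Pool.Agent.Lib.MP_c50dba_nt.EX

open Module

/-- Iterating the hyperplane step. -/
lemma reduce_83 (h : S_hyper) {k 𝒞 : Type} [Field k] [IsAlgClosed k] [Field 𝒞] [Algebra k 𝒞]
    (V : Submodule k 𝒞) [FiniteDimensional k V] (hV : V ≠ ⊥) :
    ∀ (m : ℕ) (U : Submodule k 𝒞) [FiniteDimensional k U] (d : ℕ), finrank k U = d + m →
      ∃ U' : Submodule k 𝒞, U' ≤ U ∧ finrank k U' = d ∧
        finrank k (U' * V : Submodule k 𝒞) + m ≤ finrank k (U * V : Submodule k 𝒞) := by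
  intro m
  induction m with
  | zero =>
    intro U _ d hd
    exact ⟨U, le_rfl, by simpa using hd, by simp⟩
  | succ m ih =>
    intro U _ d hd
    have hU : U ≠ ⊥ := by
      rintro rfl
      rw [finrank_bot] at hd
      omega
    obtain ⟨U₁, hU₁, hf, hm⟩ := h k 𝒞 U V hV hU
    have : FiniteDimensional k U₁ := Submodule.finiteDimensional_of_le hU₁
    obtain ⟨U', hU', hf', hm'⟩ := ih U₁ d (by omega)
    exact ⟨U', hU'.trans hU₁, hf', by omega⟩

lemma exists_basis_83 {k 𝒞 : Type} [Field k] [Field 𝒞] [Algebra k 𝒞] (U : Submodule k 𝒞)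
    [FiniteDimensional k U] (d : ℕ) (hf : finrank k U = d) :
    ∃ u : Fin d → 𝒞, LinearIndependent k u ∧ Submodule.span k (Set.range u) = U := by
  let bb := finBasisOfFinrankEq k U hf
  refine ⟨fun i => (bb i : 𝒞), bb.linearIndependent.map' U.subtype (Submodule.ker_subtype _), ?_⟩
  have h6 := congrArg (Submodule.map U.subtype) bb.span_eq
  rw [Submodule.map_span, Submodule.map_top, Submodule.range_subtype, ← Set.range_comp] at h6
  exact h6

/-- M16: the growth theorem from the strong rank theorem and the hyperplane step. -/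
theorem growth_83 (h1 : S_rank) (h2 : S_hyper) : S_growth := by
  intro p _ L hmul hLp hser n hn α hα0 halg hind U _ d hd
  set V := Submodule.span (algebraicClosure ℚ (PadicAlgCl p)) (Set.range (fun i => L (α i)))
    with hVdef
  have hVfin : FiniteDimensional (algebraicClosure ℚ (PadicAlgCl p)) V :=
    FiniteDimensional.span_of_finite _ (Set.finite_range _)
  have hclosed : IsAlgClosed (algebraicClosure ℚ (PadicAlgCl p)) :=
    (algebraicClosure.isAlgClosure ℚ (PadicAlgCl p)).isAlgClosed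
  have hV : V ≠ ⊥ := by
    intro h
    have h3 : L (α ⟨0, hn⟩) = 0 := by
      have : L (α ⟨0, hn⟩) ∈ V := Submodule.subset_span ⟨⟨0, hn⟩, rfl⟩
      rw [h] at this
      simpa using this
    have h4 := hind (Pi.single ⟨0, hn⟩ 1) (by
      rw [Finset.sum_eq_single ⟨0, hn⟩]
      · rw [h3, mul_zero]
      · intro i _ hi
        rw [Pi.single_eq_of_ne hi]
        simp
      · intro h; exact absurd (Finset.mem_univ _) h)
    have h5 := congrFun h4 ⟨0, hn⟩
    rw [Pi.single_eq_same, Pi.zero_apply] at h5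
    exact one_ne_zero h5
  obtain ⟨U', hU', hf, hm⟩ := reduce_83 h2 V hV (finrank (algebraicClosure ℚ (PadicAlgCl p)) U - d)
    U d (by omega)
  have hU'fin : FiniteDimensional (algebraicClosure ℚ (PadicAlgCl p)) U' :=
    Submodule.finiteDimensional_of_le hU'
  -- a basis of U'
  obtain ⟨u, hu, hspan⟩ := exists_basis_83 U' d hf
  have hUV : Submodule.span (algebraicClosure ℚ (PadicAlgCl p))
      (Set.range (fun ij : Fin d × Fin n => u ij.1 * L (α ij.2))) = U' * V := by
    rw [← hspan, hVdef, Submodule.span_mul_span]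
    congr 1
    ext x
    simp only [Set.mem_range, Set.mem_mul, Prod.exists]
    constructor
    · rintro ⟨i, j, rfl⟩
      exact ⟨_, ⟨i, rfl⟩, _, ⟨j, rfl⟩, rfl⟩
    · rintro ⟨_, ⟨i, rfl⟩, _, ⟨j, rfl⟩, rfl⟩
      exact ⟨i, j, rfl⟩
  have h7 := h1 p L hmul hLp hser n α hα0 halg hind d u hu
  rw [hUV] at h7
  have h8 : d * (n + 1) = d * n + d := by ring
  omega

end Pool.Agent.Lib.MP_c50dba_nt.EX
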