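import Pool.Agent.Lib.MP_c50dba_nt.EX.Stmts

set_option autoImplicit false

namespace Pool.Agent.Lib.MP_c50dba_nt.EX

open Module

/-- A `k`-point of a finitely generated `k`-subalgebra of a field at which a given nonzero element
does not vanish. -/
theorem exists_point90 {k C : Type} [Field k] [IsAlgClosed k] [Field C] [Algebra k C]
    (s : Finset C) (b : C) (hb : b ≠ 0) :
    ∃ (B : Subalgebra k C) (φ : B →ₐ[k] k), (∀ x ∈ s, x ∈ B) ∧
      ∀ (hbB : b ∈ B), φ ⟨b, hbB⟩ ≠ 0 := by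
  classical
  set B : Subalgebra k C := Algebra.adjoin k ((insert b⁻¹ s : Finset C) : Set C) with hB
  have hsub : ((insert b⁻¹ s : Finset C) : Set C) ⊆ B := Algebra.subset_adjoin
  have hft : Algebra.FiniteType k B := by
    rw [← Subalgebra.fg_iff_finiteType]
    exact ⟨_, rfl⟩
  obtain ⟨m, hm⟩ := Ideal.exists_maximal B
  let _ := Ideal.Quotient.field m
  have : Algebra.FiniteType k (B ⧸ m) :=
    Algebra.FiniteType.of_surjective (Ideal.Quotient.mkₐ k m) (Ideal.Quotient.mkₐ_surjective k m)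
  have : Module.Finite k (B ⧸ m) := finite_of_finite_type_of_isJacobsonRing k (B ⧸ m)
  have hbij : Function.Bijective (algebraMap k (B ⧸ m)) :=
    IsAlgClosed.algebraMap_bijective_of_isIntegral
  let e : k ≃ₐ[k] (B ⧸ m) := AlgEquiv.ofBijective (Algebra.ofId k (B ⧸ m)) hbij
  refine ⟨B, (e.symm : (B ⧸ m) →ₐ[k] k).comp (Ideal.Quotient.mkₐ k m), ?_, ?_⟩
  · intro x hx
    exact hsub (by simp [hx])
  · intro hbB h0
    have hinv : b⁻¹ ∈ B := hsub (by simp)
    have h1 : (⟨b, hbB⟩ : B) * ⟨b⁻¹, hinv⟩ = 1 := Subtype.ext (mul_inv_cancel₀ hb)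
    have h2 := congrArg ((e.symm : (B ⧸ m) →ₐ[k] k).comp (Ideal.Quotient.mkₐ k m)) h1
    rw [map_mul, h0, zero_mul, map_one] at h2
    exact zero_ne_one h2

theorem hyper90 : S_hyper := by
  classical
  intro k C _ _ _ _ U V _ _ hV hU
  obtain ⟨u0, hu0, hu0'⟩ := Submodule.exists_mem_ne_zero_of_ne_bot hU
  obtain ⟨v0, hv0, hv0'⟩ := Submodule.exists_mem_ne_zero_of_ne_bot hV
  obtain ⟨su, hsu⟩ := (Module.Finite.iff_fg.mp (inferInstance : Module.Finite k U))
  obtain ⟨sv, hsv⟩ := (Module.Finite.iff_fg.mp (inferInstance : Module.Finite k V))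
  obtain ⟨B, φ, hB, hφ⟩ := exists_point90 (k := k) (su ∪ sv) (u0 * v0) (mul_ne_zero hu0' hv0')
  have hUB : U ≤ Subalgebra.toSubmodule B := by
    rw [← hsu, Submodule.span_le]
    intro x hx
    exact hB x (Finset.mem_union_left _ hx)
  have hVB : V ≤ Subalgebra.toSubmodule B := by
    rw [← hsv, Submodule.span_le]
    intro x hx
    exact hB x (Finset.mem_union_right _ hx)
  have hUVB : U * V ≤ Subalgebra.toSubmodule B := by
    rw [Submodule.mul_le]
    intro x hx y hy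
    exact B.mul_mem (hUB hx) (hVB hy)
  have hfg : FiniteDimensional k (U * V : Submodule k C) :=
    Module.Finite.iff_fg.mpr (Submodule.FG.mul (Module.Finite.iff_fg.mp inferInstance)
      (Module.Finite.iff_fg.mp inferInstance))
  -- the functional on `B`
  let Φ : Subalgebra.toSubmodule B →ₗ[k] k := φ.toLinearMap
  have key : ∀ (W : Submodule k C) (hW : W ≤ Subalgebra.toSubmodule B) [FiniteDimensional k W]
      (w : C) (hw : w ∈ W), Φ ⟨w, hW hw⟩ ≠ 0 →
      finrank k ((LinearMap.ker (Φ.comp (Submodule.inclusion hW))).map W.subtype) + 1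
        = finrank k W := by
    intro W hW _ w hw hne
    have h1 : Φ.comp (Submodule.inclusion hW) ≠ 0 := by
      intro h0
      apply hne
      exact LinearMap.congr_fun h0 ⟨w, hw⟩
    have h2 := Module.Dual.finrank_ker_add_one_of_ne_zero (f := Φ.comp (Submodule.inclusion hW)) h1
    rw [← h2]
    congr 1
    exact ((Submodule.equivMapOfInjective W.subtype (Submodule.injective_subtype W)
      (LinearMap.ker (Φ.comp (Submodule.inclusion hW)))).finrank_eq).symm
  have hu0v0 : Φ ⟨u0 * v0, hUVB (Submodule.mul_mem_mul hu0 hv0)⟩ ≠ 0 :=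
    hφ (hUVB (Submodule.mul_mem_mul hu0 hv0))
  have hmul : ∀ (x y : C) (hx : x ∈ B) (hy : y ∈ B),
      Φ ⟨x * y, B.mul_mem hx hy⟩ = Φ ⟨x, hx⟩ * Φ ⟨y, hy⟩ := by
    intro x y hx hy
    exact map_mul φ ⟨x, hx⟩ ⟨y, hy⟩
  have hu0ne : Φ ⟨u0, hUB hu0⟩ ≠ 0 := by
    intro h0
    apply hu0v0
    have := hmul u0 v0 (hUB hu0) (hVB hv0)
    rw [h0, zero_mul] at this
    exact this
  refine ⟨(LinearMap.ker (Φ.comp (Submodule.inclusion hUB))).map U.subtype, ?_,
    key U hUB u0 hu0 hu0ne, ?_⟩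
  · rintro x ⟨y, _, rfl⟩
    exact y.2
  · rw [← key (U * V) hUVB (u0 * v0) (Submodule.mul_mem_mul hu0 hv0) hu0v0]
    refine Nat.add_le_add_right (Submodule.finrank_mono ?_) 1
    rw [Submodule.mul_le]
    rintro x ⟨x', hx', rfl⟩ y hy
    refine ⟨⟨(x' : C) * y, Submodule.mul_mem_mul x'.2 hy⟩, ?_, rfl⟩
    rw [SetLike.mem_coe, LinearMap.mem_ker] at hx' ⊢
    have h3 := hmul (x' : C) y (hUB x'.2) (hVB hy)
    have h4 : Φ ⟨(x' : C), hUB x'.2⟩ = 0 := hx'
    rw [h4, zero_mul] at h3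
    exact h3

end Pool.Agent.Lib.MP_c50dba_nt.EX
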