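import Pool.Agent.Lib.MP_c50dba_nt.EX.Stmts

set_option autoImplicit false

namespace Pool.Agent.Lib.MP_c50dba_nt.EX

open MvPolynomial Module

namespace Indep47

section Coord

theorem coord {R : Type*} [CommRing R] [IsDomain R] [IsNoetherianRing R] (n : ℕ)
    (M : Submodule R (Fin n → R)) :
    ∃ J : Finset (Fin n), J.card + finrank R M = n ∧
      ∀ b ∈ M, (∀ j, j ∉ J → b j = 0) → b = 0 := by
  classical
  let good : Finset (Fin n) → Prop := fun J => ∀ b ∈ M, (∀ j, j ∉ J → b j = 0) → b = 0
  have h0 : good ∅ := fun b _ hb => funext (fun j => hb j (by simp))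
  obtain ⟨J, hJ, hmax⟩ := Finset.exists_max_image (Finset.univ.filter good) Finset.card
    ⟨∅, by simp only [Finset.mem_filter, Finset.mem_univ, true_and]; exact h0⟩
  simp only [Finset.mem_filter, Finset.mem_univ, true_and] at hJ hmax
  refine ⟨J, ?_, hJ⟩
  have hcard : Fintype.card {j // j ∉ J} = n - J.card := by
    simp [Fintype.card_subtype_compl]
  have hle : J.card ≤ n := by
    simpa using Finset.card_le_univ J
  have ha : finrank R M ≤ n - J.card := by
    let f : M →ₗ[R] ({j // j ∉ J} → R) :=
      (LinearMap.funLeft R R (fun j : {j // j ∉ J} => (j : Fin n))).comp M.subtype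
    have hf : Function.Injective f := by
      rw [← LinearMap.ker_eq_bot, LinearMap.ker_eq_bot']
      intro b hb
      apply Subtype.ext
      apply hJ b.1 b.2
      intro j hj
      exact congrFun hb ⟨j, hj⟩
    have h1 := LinearMap.finrank_le_finrank_of_injective hf
    rwa [finrank_pi, hcard] at h1
  have hb : n - J.card ≤ finrank R M := by
    have hex : ∀ j : {j // j ∉ J}, ∃ b : M, (∀ i, i ∉ insert j.1 J → b.1 i = 0) ∧ b.1 j.1 ≠ 0 := by
      intro j
      have hng : ¬ good (insert j.1 J) := by
        intro hg
        have h1 := hmax _ hg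
        rw [Finset.card_insert_of_notMem j.2] at h1
        omega
      simp only [good, not_forall] at hng
      obtain ⟨b, hbM, hb, hb0⟩ := hng
      refine ⟨⟨b, hbM⟩, hb, ?_⟩
      intro hj
      apply hb0
      apply hJ b hbM
      intro i hi
      by_cases hij : i = j.1
      · rw [hij]; exact hj
      · exact hb i (by simp [hij, hi])
    choose b hb1 hb2 using hex
    have hli : LinearIndependent R b := by
      rw [Fintype.linearIndependent_iff]
      intro c hc i
      have h1 := congrFun (congrArg Subtype.val hc) i.1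
      simp only [Submodule.coe_sum, Submodule.coe_smul, Finset.sum_apply, Pi.smul_apply,
        smul_eq_mul, Submodule.coe_zero, Pi.zero_apply] at h1
      rw [Finset.sum_eq_single i] at h1
      · exact (mul_eq_zero.mp h1).resolve_right (hb2 i)
      · intro j _ hji
        rw [hb1 j i.1, mul_zero]
        simp only [Finset.mem_insert, not_or]
        exact ⟨fun h => hji (Subtype.ext h.symm), i.2⟩
      · intro h; exact absurd (Finset.mem_univ _) h
    have h1 := hli.fintype_card_le_finrank
    rwa [hcard] at h1
  omega

end Coord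

section Pol

variable {G Ω : Type*} [AddCommGroup G] [Field Ω]

/-- Polynomial functions of degree `< d`. -/
def Pol : ℕ → (G → Ω) → Prop
  | 0, h => ∀ t, h t = 0
  | d + 1, h => ∀ s, Pol d (fun t => h (t + s) - h t)

theorem Pol.congr {d : ℕ} {h h' : G → Ω} (H : Pol d h) (e : ∀ t, h t = h' t) : Pol d h' := by
  have : h = h' := funext e
  rwa [← this]

theorem Pol.add {d : ℕ} : ∀ {h h' : G → Ω}, Pol d h → Pol d h' → Pol d (fun t => h t + h' t) := by
  induction d with
  | zero => intro h h' H H' t; simp only [H t, H' t, add_zero]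
  | succ d ih =>
    intro h h' H H' s
    exact (ih (H s) (H' s)).congr (fun t => by ring)

theorem Pol.smul {d : ℕ} : ∀ {h : G → Ω} (c : Ω), Pol d h → Pol d (fun t => c * h t) := by
  induction d with
  | zero => intro h c H t; simp only [H t, mul_zero]
  | succ d ih =>
    intro h c H s
    exact (ih c (H s)).congr (fun t => by ring)

theorem Pol.succ {d : ℕ} : ∀ {h : G → Ω}, Pol d h → Pol (d + 1) h := by
  induction d with
  | zero => intro h H s t; show h (t + s) - h t = 0; rw [H (t + s), H t, sub_zero]
  | succ d ih => intro h H s; exact ih (H s)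

theorem Pol.mono {d e : ℕ} {h : G → Ω} (H : Pol d h) (hde : d ≤ e) : Pol e h := by
  induction hde with
  | refl => exact H
  | step _ ih => exact ih.succ

theorem Pol.shift {d : ℕ} {h : G → Ω} (H : Pol d h) (s : G) : Pol d (fun t => h (t + s)) := by
  cases d with
  | zero => intro t; exact H _
  | succ d =>
    have h1 : Pol (d + 1) (fun t => h (t + s) - h t) := (H s).succ
    exact (h1.add H).congr (fun t => by ring)

theorem Pol.mulAdd {d : ℕ} (x : G → Ω) (hx : ∀ s t, x (s + t) = x s + x t) :
    ∀ {h : G → Ω}, Pol d h → Pol (d + 1) (fun t => x t * h t) := by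
  induction d with
  | zero => intro h H s t; simp only [H _, mul_zero, sub_zero]
  | succ d ih =>
    intro h H s
    have h1 : Pol (d + 1) (fun t => x t * (h (t + s) - h t)) := ih (H s)
    have h2 : Pol (d + 1) (fun t => x s * h (t + s)) := (H.shift s).smul (x s)
    exact (h1.add h2).congr (fun t => by
      show x t * (h (t + s) - h t) + x s * h (t + s) = x (t + s) * h (t + s) - x t * h t
      rw [hx]; ring)

theorem Pol.const (c : Ω) : Pol 1 (fun _ : G => c) := by
  intro s t
  simp

theorem Pol.eigen {d : ℕ} (s : G) (ρ : Ω) (hρ : ρ ≠ 1) :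
    ∀ {h : G → Ω}, Pol d h → (∀ t, h (t + s) = ρ * h t) → ∀ t, h t = 0 := by
  induction d with
  | zero => intro h H _ t; exact H t
  | succ d ih =>
    intro h H he t
    have h1 := ih (H s) (fun t => by simp only [he]; ring) t
    simp only [he] at h1
    have h2 : (ρ - 1) * h t = 0 := by linear_combination h1
    exact (mul_eq_zero.mp h2).resolve_left (sub_ne_zero.mpr hρ)

theorem indep_chars {ι : Type*} [DecidableEq ι] (χ : ι → G → Ω)
    (hmul : ∀ i s t, χ i (s + t) = χ i s * χ i t) (hne : ∀ i t, χ i t ≠ 0)
    (hsep : ∀ i j, i ≠ j → ∃ s, χ i s ≠ χ j s) (S : Finset ι) :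
    ∀ h : ι → G → Ω, (∀ i ∈ S, ∃ d, Pol d (h i)) → (∀ t, ∑ i ∈ S, h i t * χ i t = 0) →
      ∀ i ∈ S, ∀ t, h i t = 0 := by
  induction S using Finset.induction_on with
  | empty => intro h _ _ i hi; simp at hi
  | insert a S ha ih =>
    have key : ∀ n : ℕ, ∀ h : ι → G → Ω, Pol n (h a) → (∀ i ∈ S, ∃ d, Pol d (h i)) →
        (∀ t, ∑ i ∈ insert a S, h i t * χ i t = 0) → ∀ i ∈ insert a S, ∀ t, h i t = 0 := by
      intro n
      induction n with
      | zero =>
        intro h H0 HS hsum i hi t
        have h1 : ∀ t, ∑ i ∈ S, h i t * χ i t = 0 := by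
          intro t
          have h2 := hsum t
          rw [Finset.sum_insert ha, H0 t, zero_mul, zero_add] at h2
          exact h2
        rcases Finset.mem_insert.mp hi with rfl | hi
        · exact H0 t
        · exact ih h HS h1 i hi t
      | succ n ihn =>
        intro h H0 HS hsum i hi t
        have step : ∀ s : G, ∀ i ∈ insert a S, ∀ t, χ i s * h i (t + s) - χ a s * h i t = 0 := by
          intro s
          refine ihn (fun i t => χ i s * h i (t + s) - χ a s * h i t) ?_ ?_ ?_
          · exact ((H0 s).smul (χ a s)).congr (fun t => by ring)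
          · intro i hi
            obtain ⟨d, hd⟩ := HS i hi
            refine ⟨d, ?_⟩
            exact (((hd.shift s).smul (χ i s)).add (hd.smul (-χ a s))).congr
              (fun t => by ring)
          · intro t
            have h1 := hsum (t + s)
            have h2 := hsum t
            have h3 : ∑ i ∈ insert a S, (χ i s * h i (t + s) - χ a s * h i t) * χ i t
                = ∑ i ∈ insert a S, h i (t + s) * χ i (t + s)
                  - χ a s * ∑ i ∈ insert a S, h i t * χ i t := by
              rw [Finset.mul_sum, ← Finset.sum_sub_distrib]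
              refine Finset.sum_congr rfl (fun i _ => ?_)
              rw [hmul]
              ring
            rw [h3, h1, h2, mul_zero, sub_zero]
        have hS : ∀ i ∈ S, ∀ t, h i t = 0 := by
          intro i hi
          have hia : i ≠ a := fun h => ha (h ▸ hi)
          obtain ⟨s, hs⟩ := hsep i a hia
          obtain ⟨d, hd⟩ := HS i hi
          refine hd.eigen s (χ a s / χ i s) ?_ ?_
          · intro h1
            rw [div_eq_one_iff_eq (hne i s)] at h1
            exact hs h1.symm
          · intro t
            have h1 := step s i (Finset.mem_insert_of_mem hi) t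
            have h2 := hne i s
            field_simp
            linear_combination h1
        rcases Finset.mem_insert.mp hi with rfl | hi
        · have h2 := hsum t
          rw [Finset.sum_insert ha, Finset.sum_eq_zero (fun j hj => by rw [hS j hj t, zero_mul]),
            add_zero] at h2
          exact (mul_eq_zero.mp h2).resolve_right (hne _ t)
        · exact hS i hi t
    intro h HS hsum
    obtain ⟨d, hd⟩ := HS a (Finset.mem_insert_self a S)
    exact key d h hd (fun i hi => HS i (Finset.mem_insert_of_mem hi)) hsum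

theorem pol_aeval {k : Type*} [Field k] [Algebra k Ω] {σ : Type*} (z : σ → Ω) (x : σ → G → Ω)
    (hx : ∀ i s t, x i (s + t) = x i s + x i t) (g : MvPolynomial σ k) :
    ∃ d, Pol d (fun t => aeval (fun i => z i + x i t) g) := by
  induction g using MvPolynomial.induction_on with
  | C c => exact ⟨1, (Pol.const (algebraMap k Ω c)).congr (fun t => by simp)⟩
  | add p q hp hq =>
    obtain ⟨d, hd⟩ := hp
    obtain ⟨e, he⟩ := hq
    refine ⟨max d e, ?_⟩
    exact ((hd.mono (le_max_left d e)).add (he.mono (le_max_right d e))).congr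
      (fun t => by simp)
  | mul_X p i hp =>
    obtain ⟨d, hd⟩ := hp
    refine ⟨d + 1, ?_⟩
    exact ((hd.succ.smul (z i)).add (Pol.mulAdd (x i) (hx i) hd)).congr
      (fun t => by simp; ring)

end Pol

section Dense

variable {Ω : Type*} [Field Ω] [CharZero Ω] {σ : Type*}

theorem dense (Γ : Set (σ → Ω)) (h0 : (0 : σ → Ω) ∈ Γ) (hadd : ∀ x ∈ Γ, ∀ y ∈ Γ, x + y ∈ Γ)
    (hspan : Submodule.span Ω Γ = ⊤) (z : σ → Ω) (P : MvPolynomial σ Ω)
    (hP : ∀ y ∈ Γ, eval (z + y) P = 0) : P = 0 := by
  let 𝒢 : Set (MvPolynomial σ Ω) := {Q | ∀ y ∈ Γ, eval (z + y) Q = 0}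
  let Z : Set (σ → Ω) := {u | ∀ Q ∈ 𝒢, eval u Q = 0}
  have hzZ : z ∈ Z := by
    intro Q hQ
    have := hQ 0 h0
    rwa [add_zero] at this
  have hshift : ∀ (v : σ → Ω) (Q : MvPolynomial σ Ω) (u : σ → Ω),
      eval u (aeval (fun i => X i + C (v i)) Q) = eval (u + v) Q := by
    intro v Q u
    rw [← MvPolynomial.coe_aeval_eq_eval, ← MvPolynomial.coe_aeval_eq_eval]
    simp only [RingHom.coe_coe]
    rw [← AlgHom.comp_apply]
    congr 1
    apply MvPolynomial.algHom_ext
    intro i
    simp
  have hZ1 : ∀ v ∈ Γ, ∀ u ∈ Z, u + v ∈ Z := by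
    intro v hv u hu Q hQ
    rw [← hshift v Q u]
    apply hu
    intro y hy
    rw [hshift, add_assoc]
    exact hQ _ (hadd y hy v hv)
  have hZ2 : ∀ v ∈ Γ, ∀ u ∈ Z, ∀ n : ℕ, u + (n : Ω) • v ∈ Z := by
    intro v hv u hu n
    induction n with
    | zero => simpa using hu
    | succ n ih =>
      have := hZ1 v hv _ ih
      have h2 : u + ((n + 1 : ℕ) : Ω) • v = u + (n : Ω) • v + v := by
        push_cast
        rw [add_smul, one_smul, add_assoc]
      rw [h2]
      exact this
  have hZ3 : ∀ v ∈ Γ, ∀ u ∈ Z, ∀ c : Ω, u + c • v ∈ Z := by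
    intro v hv u hu c Q hQ
    let q : Polynomial Ω := aeval (fun i => Polynomial.C (u i) + Polynomial.X * Polynomial.C (v i)) Q
    have hq : ∀ c : Ω, q.eval c = eval (u + c • v) Q := by
      intro c
      have : (Polynomial.aeval c).comp
          (aeval (fun i => Polynomial.C (u i) + Polynomial.X * Polynomial.C (v i)) :
            MvPolynomial σ Ω →ₐ[Ω] Polynomial Ω) = (aeval (u + c • v) : MvPolynomial σ Ω →ₐ[Ω] Ω) := by
        apply MvPolynomial.algHom_ext
        intro i
        simp only [AlgHom.comp_apply, aeval_X, map_add, Polynomial.aeval_C, map_mul,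
          Polynomial.aeval_X, Pi.add_apply, Pi.smul_apply, smul_eq_mul, Algebra.algebraMap_self,
          RingHom.id_apply]
      have h1 := congrArg (fun f : MvPolynomial σ Ω →ₐ[Ω] Ω => f Q) this
      simpa [q, Polynomial.coe_aeval_eq_eval] using h1
    have hq0 : q = 0 := by
      apply Polynomial.eq_zero_of_infinite_isRoot
      apply Set.Infinite.mono (s := Set.range (fun n : ℕ => (n : Ω)))
      · rintro _ ⟨n, rfl⟩
        simp only [Set.mem_ofPred_eq, Polynomial.IsRoot.def]
        rw [hq]
        exact hZ2 v hv u hu n Q hQ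
      · exact Set.infinite_range_of_injective Nat.cast_injective
    rw [← hq, hq0, Polynomial.eval_zero]
  have hZ4 : ∀ w : σ → Ω, ∀ c : Ω, ∀ u ∈ Z, u + c • w ∈ Z := by
    intro w
    have hw : w ∈ Submodule.span Ω Γ := by rw [hspan]; trivial
    induction hw using Submodule.span_induction with
    | mem x hx => intro c u hu; exact hZ3 x hx u hu c
    | zero => intro c u hu; simpa using hu
    | add x y _ _ hx hy =>
      intro c u hu
      rw [smul_add, ← add_assoc]
      exact hy c _ (hx c u hu)
    | smul a x _ hx =>
      intro c u hu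
      rw [smul_smul]
      exact hx (c * a) u hu
  apply MvPolynomial.funext
  intro u
  have h1 := hZ4 (u - z) 1 z hzZ P hP
  rw [one_smul, add_sub_cancel] at h1
  rw [h1, map_zero]

end Dense

theorem aeval_sum_elim {k Ω : Type*} [Field k] [Field Ω] [Algebra k Ω] {σ τ : Type*} [Fintype σ]
    (y : σ → Ω) (x : τ → Ω) (p : MvPolynomial (σ ⊕ τ) k) :
    aeval (Sum.elim y x) p = ∑ μ ∈ (sumAlgEquiv k σ τ p).support,
      aeval x (coeff μ (sumAlgEquiv k σ τ p)) * ∏ j, y j ^ μ j := by
  have h1 : ((aeval (Sum.elim y x) : MvPolynomial (σ ⊕ τ) k →ₐ[k] Ω) : MvPolynomial (σ ⊕ τ) k →+* Ω)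
      = (eval₂Hom ((aeval x : MvPolynomial τ k →ₐ[k] Ω) : MvPolynomial τ k →+* Ω) y).comp
        ((sumAlgEquiv k σ τ : MvPolynomial (σ ⊕ τ) k ≃ₐ[k] MvPolynomial σ (MvPolynomial τ k)) :
          MvPolynomial (σ ⊕ τ) k →+* MvPolynomial σ (MvPolynomial τ k)) := by
    apply MvPolynomial.ringHom_ext
    · intro r
      simp [sumAlgEquiv_C_inl]
    · intro i
      cases i with
      | inl i => simp [sumAlgEquiv_X_inl]
      | inr i => simp [sumAlgEquiv_X_inr]
  have h2 := congrArg (fun f : MvPolynomial (σ ⊕ τ) k →+* Ω => f p) h1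
  simp only [RingHom.comp_apply, RingHom.coe_coe] at h2
  rw [h2, coe_eval₂Hom, eval₂_eq']
  rfl

theorem xpt_add {k : Type} [Field k] {w D : ℕ} (β : Fin w → Fin D → k) (s t : Fin D → ℤ)
    (i : Fin w) : xpt β (s + t) i = xpt β s i + xpt β t i := by
  simp only [xpt, Pi.add_apply, Int.cast_add, add_mul, Finset.sum_add_distrib]

theorem Xpt_add {k : Type} [Field k] {l D : ℕ} (a : Fin l → Fin D → k) (ha : ∀ j ν, a j ν ≠ 0)
    (s t : Fin D → ℤ) (j : Fin l) : Xpt a (s + t) j = Xpt a s j * Xpt a t j := by
  simp only [Xpt, Pi.add_apply, fun ν => zpow_add₀ (ha j ν) (s ν) (t ν), Finset.prod_mul_distrib]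

theorem Xpt_ne {k : Type} [Field k] {l D : ℕ} (a : Fin l → Fin D → k) (ha : ∀ j ν, a j ν ≠ 0)
    (t : Fin D → ℤ) (j : Fin l) : Xpt a t j ≠ 0 :=
  Finset.prod_ne_zero_iff.mpr (fun ν _ => zpow_ne_zero _ (ha j ν))

end Indep47

open Indep47 in
theorem indep_47 : S_indep := by
  intro k Ω _ _ _ _ w l D β a ha Δ z hz hstab
  classical
  have : CharZero Ω := charZero_of_injective_algebraMap (algebraMap k Ω).injective
  obtain ⟨I0, hI0, hI⟩ := coord w (linRel β Δ)
  obtain ⟨J0, hJ0, hJ⟩ := coord l (mulRel a ha Δ)
  have main : AlgebraicIndependent k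
      (Sum.elim (fun j : J0 => z (Sum.inr j)) (fun i : I0 => z (Sum.inl i))) := by
    rw [algebraicIndependent_iff]
    intro p hp
    let F := sumAlgEquiv k J0 I0 p
    -- translates
    have hF : ∀ t : Δ, ∑ μ ∈ F.support,
        (aeval (fun i : I0 => z (Sum.inl i) + algebraMap k Ω (xpt β t.1 i)) (coeff μ F) *
          ∏ j : J0, z (Sum.inr j) ^ μ j) * ∏ j : J0, algebraMap k Ω (Xpt a t.1 j) ^ μ j = 0 := by
      intro t
      let f : MvPolynomial (Fin w ⊕ Fin l) k :=
        rename (Sum.elim (fun j : J0 => Sum.inr j.1) (fun i : I0 => Sum.inl i.1)) p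
      have hf0 : aeval z f = 0 := by
        rw [aeval_rename, ← hp]
        congr 2
        funext i
        cases i <;> rfl
      have hf1 := hstab t.1 t.2 f hf0
      rw [aeval_rename] at hf1
      have hfun : (act β a t.1 z) ∘ (Sum.elim (fun j : J0 => Sum.inr j.1) (fun i : I0 => Sum.inl i.1))
          = Sum.elim (fun j : J0 => z (Sum.inr j) * algebraMap k Ω (Xpt a t.1 j))
            (fun i : I0 => z (Sum.inl i) + algebraMap k Ω (xpt β t.1 i)) := by
        funext i
        cases i <;> rfl
      rw [hfun, aeval_sum_elim] at hf1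
      rw [← hf1]
      refine Finset.sum_congr rfl (fun μ _ => ?_)
      simp only [mul_pow, Finset.prod_mul_distrib]
      ring
    have hall := indep_chars (G := Δ) (Ω := Ω)
      (fun (μ : J0 →₀ ℕ) (t : Δ) => ∏ j : J0, algebraMap k Ω (Xpt a t.1 j) ^ μ j)
      (by
        intro μ s t
        rw [← Finset.prod_mul_distrib]
        refine Finset.prod_congr rfl (fun j _ => ?_)
        rw [← mul_pow, ← map_mul, ← Xpt_add a ha]
        rfl)
      (by
        intro μ t
        refine Finset.prod_ne_zero_iff.mpr (fun j _ => pow_ne_zero _ ?_)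
        rw [Ne, map_eq_zero]
        exact Xpt_ne a ha _ _)
      (by
        intro μ ν hμν
        by_contra hcon
        push Not at hcon
        apply hμν
        let b : Fin l → ℤ := fun j => if h : j ∈ J0 then (μ ⟨j, h⟩ : ℤ) - (ν ⟨j, h⟩ : ℤ) else 0
        have hb : b = 0 := by
          apply hJ b
          · intro t ht
            have h1 := hcon ⟨t, ht⟩
            simp only [← map_pow, ← map_prod] at h1
            have h2 : ∏ j : J0, Xpt a t j ^ μ j = ∏ j : J0, Xpt a t j ^ ν j :=
              (algebraMap k Ω).injective h1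
            have h3 : ∏ j, Xpt a t j ^ b j = ∏ j : J0, Xpt a t j ^ ((μ j : ℤ) - (ν j : ℤ)) := by
              rw [← Finset.prod_subset (Finset.subset_univ J0), ← Finset.prod_coe_sort J0]
              · refine Finset.prod_congr rfl (fun j _ => ?_)
                simp only [b, j.2, dif_pos]
              · intro j _ hj
                simp only [b, hj, dif_neg, not_false_iff, zpow_zero]
            rw [h3]
            simp only [fun j : J0 => zpow_sub₀ (Xpt_ne a ha t j.1) (μ j : ℤ) (ν j : ℤ),
              zpow_natCast, Finset.prod_div_distrib]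
            rw [h2]
            apply div_self
            exact Finset.prod_ne_zero_iff.mpr (fun j _ => pow_ne_zero _ (Xpt_ne a ha _ _))
          · intro j hj
            simp only [b, hj, dif_neg, not_false_iff]
        apply Finsupp.ext
        intro j
        have h1 := congrFun hb j.1
        simp only [b, j.2, dif_pos, Pi.zero_apply] at h1
        have h2 : (μ j : ℤ) = ν j := by linarith
        exact_mod_cast h2)
      F.support
      (fun μ t => aeval (fun i : I0 => z (Sum.inl i) + algebraMap k Ω (xpt β t.1 i)) (coeff μ F) *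
          ∏ j : J0, z (Sum.inr j) ^ μ j)
      (by
        intro μ _
        obtain ⟨d, hd⟩ := pol_aeval (G := Δ) (fun i : I0 => z (Sum.inl i))
          (fun (i : I0) (t : Δ) => algebraMap k Ω (xpt β t.1 i))
          (by
            intro i s t
            rw [← map_add, ← xpt_add]
            rfl) (coeff μ F)
        exact ⟨d, (hd.smul (∏ j : J0, z (Sum.inr j) ^ μ j)).congr (fun t => mul_comm _ _)⟩)
      hF
    have hcoef : ∀ μ ∈ F.support, coeff μ F = 0 := by
      intro μ hμ
      have h1 : ∀ t : Δ, aeval (fun i : I0 => z (Sum.inl i) + algebraMap k Ω (xpt β t.1 i))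
          (coeff μ F) = 0 := by
        intro t
        have h2 := hall μ hμ t
        refine (mul_eq_zero.mp h2).resolve_right ?_
        exact Finset.prod_ne_zero_iff.mpr (fun j _ => pow_ne_zero _ (hz _))
      have hspank : Submodule.span k
          (Set.range (fun t : Δ => fun i : I0 => xpt β t.1 i)) = ⊤ := by
        by_contra hne
        obtain ⟨f, hf0, hf⟩ := Submodule.exists_le_ker_of_lt_top _ (lt_top_iff_ne_top.mpr hne)
        apply hf0
        let c : Fin w → k := fun i => if h : i ∈ I0 then f (Pi.single ⟨i, h⟩ 1) else 0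
        have hfe : ∀ x : I0 → k, f x = ∑ i : I0, x i * f (Pi.single i 1) := by
          intro x
          conv_lhs => rw [pi_eq_sum_univ' x]
          rw [map_sum]
          refine Finset.sum_congr rfl (fun i _ => ?_)
          rw [map_smul, smul_eq_mul]
        have hc : c = 0 := by
          apply hI c
          · intro t ht
            have h3 : ∑ i, c i * xpt β t i = ∑ i : I0, xpt β t i * f (Pi.single i 1) := by
              rw [← Finset.sum_subset (Finset.subset_univ I0), ← Finset.sum_coe_sort I0]
              · refine Finset.sum_congr rfl (fun i _ => ?_)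
                simp only [c, i.2, dif_pos]
                exact mul_comm _ _
              · intro i _ hi
                simp only [c, hi, dif_neg, not_false_iff, zero_mul]
            rw [h3, ← hfe (fun i : I0 => xpt β t i)]
            exact hf (Submodule.subset_span ⟨⟨t, ht⟩, rfl⟩)
          · intro i hi
            simp only [c, hi, dif_neg, not_false_iff]
        apply LinearMap.ext
        intro x
        rw [hfe, LinearMap.zero_apply]
        apply Finset.sum_eq_zero
        intro i _
        have h4 := congrFun hc i.1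
        simp only [c, i.2, dif_pos, Pi.zero_apply] at h4
        rw [h4, mul_zero]
      have hspanΩ : Submodule.span Ω
          (Set.range (fun t : Δ => fun i : I0 => algebraMap k Ω (xpt β t.1 i))) = ⊤ := by
        rw [eq_top_iff]
        intro u _
        have hk : ∀ v : I0 → k, (fun i => algebraMap k Ω (v i)) ∈ Submodule.span Ω
            (Set.range (fun t : Δ => fun i : I0 => algebraMap k Ω (xpt β t.1 i))) := by
          intro v
          have hv : v ∈ Submodule.span k
            (Set.range (fun t : Δ => fun i : I0 => xpt β t.1 i)) := by rw [hspank]; trivial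
          induction hv using Submodule.span_induction with
          | mem x hx =>
            obtain ⟨t, rfl⟩ := hx
            exact Submodule.subset_span ⟨t, rfl⟩
          | zero =>
            simp only [Pi.zero_apply, map_zero]
            exact Submodule.zero_mem _
          | add x y _ _ hx hy =>
            have := Submodule.add_mem _ hx hy
            simpa [Pi.add_def] using this
          | smul c x _ hx =>
            have := Submodule.smul_mem _ (algebraMap k Ω c) hx
            convert this using 1
            funext i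
            simp only [Pi.smul_apply, smul_eq_mul, map_mul]
        rw [pi_eq_sum_univ' u]
        refine Submodule.sum_mem _ (fun i _ => Submodule.smul_mem _ _ ?_)
        have h6 := hk (Pi.single i 1)
        convert h6 using 1
        funext j
        rw [Pi.single_apply, Pi.single_apply]
        split_ifs <;> simp
      have h5 : map (algebraMap k Ω) (coeff μ F) = 0 := by
        refine dense _ ?_ ?_ hspanΩ (fun i : I0 => z (Sum.inl i)) _ ?_
        · refine ⟨0, ?_⟩
          funext i
          simp [xpt]
        · rintro _ ⟨s, rfl⟩ _ ⟨t, rfl⟩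
          refine ⟨s + t, ?_⟩
          funext i
          simp only [Pi.add_apply, ← map_add, ← xpt_add]
          rfl
        · rintro _ ⟨t, rfl⟩
          rw [eval_map, ← aeval_def]
          exact h1 t
      exact map_injective _ (algebraMap k Ω).injective (by rw [h5, map_zero])
    have hF0 : F = 0 := by
      ext1 μ
      by_cases hμ : μ ∈ F.support
      · rw [hcoef μ hμ, coeff_zero]
      · rw [notMem_support_iff.mp hμ, coeff_zero]
    exact (map_eq_zero_iff (sumAlgEquiv k J0 I0) (sumAlgEquiv k J0 I0).injective).mp hF0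
  refine ⟨I0.disjSum J0, ?_, ?_, ?_⟩
  · let e : {x // x ∈ I0.disjSum J0} → {x // x ∈ J0} ⊕ {x // x ∈ I0} := fun i =>
      match i with
      | ⟨Sum.inl i, hi⟩ => Sum.inr ⟨i, Finset.inl_mem_disjSum.mp hi⟩
      | ⟨Sum.inr j, hj⟩ => Sum.inl ⟨j, Finset.inr_mem_disjSum.mp hj⟩
    have he : Function.Injective e := by
      rintro ⟨i | i, hi⟩ ⟨j | j, hj⟩ hij
      · simp only [e, Sum.inr.injEq, Subtype.mk.injEq] at hij
        subst hij; rfl
      · simp [e] at hij
      · simp [e] at hij
      · simp only [e, Sum.inl.injEq, Subtype.mk.injEq] at hij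
        subst hij; rfl
    have h1 := main.comp e he
    convert h1 using 1
    funext i
    rcases i with ⟨i | i, hi⟩ <;> rfl
  · rw [c0]
    convert hI0 using 2
    congr 1
    ext i
    simp
  · rw [c1]
    convert hJ0 using 2
    congr 1
    ext i
    simp

end Pool.Agent.Lib.MP_c50dba_nt.EX
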