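import Pool.Agent.Lib.MP_c50dba_nt.EX.Stmts

set_option autoImplicit false

namespace Pool.Agent.Lib.MP_c50dba_nt.EX

open MvPolynomial

/-- A derivation of a domain of characteristic zero vanishing on a subring over which an element
is algebraic kills the element. -/
lemma deriv_eq_zero_69 {B A : Type*} [CommRing B] [CommRing A] [IsDomain A] [CharZero A]
    [Algebra B A] (hB : Function.Injective (algebraMap B A)) (D : Derivation B A A) (a : A)
    (ha : IsAlgebraic B a) : D a = 0 := by
  obtain ⟨p, hp, hpa⟩ := ha
  have hBd : IsDomain B := hB.isDomain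
  have hBc : CharZero B := ⟨fun m n h => by
    have := congrArg (algebraMap B A) h
    simpa using this⟩
  suffices H : ∀ n : ℕ, ∀ p : Polynomial B, p.natDegree = n → p ≠ 0 → Polynomial.aeval a p = 0 →
      D a = 0 from H _ p rfl hp hpa
  intro n
  induction n using Nat.strong_induction_on with
  | _ n ih =>
    intro p hn hp hpa
    by_cases hn0 : p.natDegree = 0
    · exfalso
      rw [Polynomial.natDegree_eq_zero] at hn0
      obtain ⟨b, rfl⟩ := hn0
      rw [Polynomial.aeval_C] at hpa
      apply hp
      rw [Polynomial.C_eq_zero]
      exact hB (by rw [hpa, map_zero])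
    · have h1 : Polynomial.aeval a (Polynomial.derivative p) * D a = 0 := by
        have := Derivation.map_aeval D p a
        rw [hpa, map_zero] at this
        simpa [smul_eq_mul] using this.symm
      rcases mul_eq_zero.mp h1 with h2 | h2
      · refine ih (Polynomial.derivative p).natDegree ?_ (Polynomial.derivative p) rfl ?_ h2
        · rw [← hn]
          exact Polynomial.natDegree_derivative_lt hn0
        · intro h3
          exact hn0 (Polynomial.derivative_eq_zero.mp h3)
      · exact h2

/-- M2. -/
theorem jac_69 : S_jac := by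
  classical
  intro k Ω _ _ _ _ c Q y hind
  -- `Q` is algebraically independent in the polynomial ring
  have hQ : AlgebraicIndependent k Q := by
    have : AlgebraicIndependent k ((aeval y : MvPolynomial (Fin c) k →ₐ[k] Ω) ∘ Q) := hind
    exact AlgebraicIndependent.of_comp (aeval y) this
  have hT : IsTranscendenceBasis k Q := by
    apply hQ.isTranscendenceBasis_of_trdeg_le_of_finite
    rw [MvPolynomial.trdeg_of_isDomain]
    simp
  have halg : Algebra.IsAlgebraic (Algebra.adjoin k (Set.range Q)) (MvPolynomial (Fin c) k) :=
    hT.isAlgebraic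
  set B := Algebra.adjoin k (Set.range Q) with hB
  -- `aeval y` is injective
  have hinj : Function.Injective (aeval y : MvPolynomial (Fin c) k →ₐ[k] Ω) := by
    rw [injective_iff_map_eq_zero]
    intro f hf
    by_contra hf0
    have h1 := Ideal.comap_ne_bot_of_algebraic_mem (R := B)
      (I := RingHom.ker (aeval y : MvPolynomial (Fin c) k →ₐ[k] Ω)) hf0
      (by rw [RingHom.mem_ker]; exact hf) (halg.isAlgebraic f)
    apply h1
    rw [eq_bot_iff]
    intro b hb
    rw [Ideal.mem_comap, RingHom.mem_ker] at hb
    have hb2 : (b : MvPolynomial (Fin c) k) ∈ Algebra.adjoin k (Set.range Q) := b.2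
    rw [Algebra.adjoin_range_eq_range_aeval] at hb2
    obtain ⟨G, hG⟩ := hb2
    have h3 : aeval (fun i => aeval y (Q i)) G = 0 := by
      have h4 : (aeval y : MvPolynomial (Fin c) k →ₐ[k] Ω) ((aeval Q : MvPolynomial (Fin c) k →ₐ[k] _) G)
          = aeval (fun i => aeval y (Q i)) G := by
        rw [← AlgHom.comp_apply, comp_aeval]
      rw [← h4]
      have h5 : (aeval Q : MvPolynomial (Fin c) k →ₐ[k] _) G = (b : MvPolynomial (Fin c) k) := hG
      rw [h5]
      exact hb
    have h6 : G = 0 := by
      rw [AlgebraicIndependent, injective_iff_map_eq_zero] at hind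
      exact hind G h3
    rw [Ideal.mem_bot]
    apply Subtype.ext
    rw [← hG, h6]
    simp
  -- the determinant in the polynomial ring
  have hdet : (Matrix.of fun i j => aeval y (pderiv j (Q i))).det
      = (aeval y : MvPolynomial (Fin c) k →ₐ[k] Ω) (Matrix.of fun i j => pderiv j (Q i)).det := by
    rw [AlgHom.map_det]
    rfl
  rw [hdet]
  intro h0
  have h1 : (Matrix.of fun i j => pderiv j (Q i)).det = 0 := by
    apply hinj
    rw [h0, map_zero]
  obtain ⟨v, hv0, hv⟩ := Matrix.exists_mulVec_eq_zero_iff.mpr h1
  -- the derivation
  let D0 : Derivation k (MvPolynomial (Fin c) k) (MvPolynomial (Fin c) k) := mkDerivation k v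
  have hD0 : ∀ f, D0 f = ∑ j, pderiv j f * v j := by
    intro f
    have h9 : ∀ (s : Finset (Fin c)) (g : MvPolynomial (Fin c) k),
        (∑ j ∈ s, v j • (pderiv j : Derivation k (MvPolynomial (Fin c) k) _)) g
          = ∑ j ∈ s, pderiv j g * v j := by
      intro s g
      induction s using Finset.induction_on with
      | empty => simp
      | insert a s ha ih =>
        rw [Finset.sum_insert ha, Finset.sum_insert ha, Derivation.add_apply, ih,
          Derivation.smul_apply, smul_eq_mul, mul_comm]
    have h2 : D0 = ∑ j, v j • (pderiv j : Derivation k (MvPolynomial (Fin c) k) _) := by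
      apply MvPolynomial.derivation_ext
      intro i
      rw [mkDerivation_X, h9]
      simp [pderiv_X, Pi.single_apply]
    rw [h2, h9]
  have hD0Q : ∀ i, D0 (Q i) = 0 := by
    intro i
    rw [hD0]
    have := congrFun hv i
    simpa [Matrix.mulVec, dotProduct] using this
  have hD0B : ∀ b ∈ B, D0 b = 0 := by
    intro b hb
    have := Derivation.eqOn_adjoin (D1 := D0) (D2 := 0) (s := Set.range Q) (by
      rintro _ ⟨i, rfl⟩
      simpa using hD0Q i)
    simpa using this hb
  let D : Derivation B (MvPolynomial (Fin c) k) (MvPolynomial (Fin c) k) :=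
    Derivation.mk'
      { toFun := fun f => D0 f
        map_add' := fun f g => map_add _ _ _
        map_smul' := by
          intro b f
          have h3 : b • f = (b : MvPolynomial (Fin c) k) * f := rfl
          rw [h3, Derivation.leibniz, hD0B _ b.2, smul_zero, add_zero]
          rfl }
      (by
        intro f g
        exact D0.leibniz f g)
  apply hv0
  funext j
  have h4 := deriv_eq_zero_69 (B := B) (A := MvPolynomial (Fin c) k) Subtype.val_injective D (X j)
    (halg.isAlgebraic _)
  have h5 : D (X j) = D0 (X j) := rfl
  rw [h5, mkDerivation_X] at h4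
  simpa using h4

end Pool.Agent.Lib.MP_c50dba_nt.EX
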