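import Pool.Agent.Lib.MP_c50dba_nt.EX.Stmts

set_option autoImplicit false

/-! Module M12: the obstruction inequality. -/

namespace Pool.Agent.Lib.MP_c50dba_nt.EX

open NumberField Module

namespace Ob

/-- The vectors orthogonal to `Δ`. -/
def orth (F : Type) [Field F] {D : ℕ} (Δ : Submodule ℤ (Fin D → ℤ)) :
    Submodule F (Fin D → F) where
  carrier := {z | ∀ t ∈ Δ, ∑ ν, (t ν : F) * z ν = 0}
  add_mem' := by
    intro z z' h h' t ht
    simp only [Pi.add_apply, mul_add, Finset.sum_add_distrib, h t ht, h' t ht, add_zero]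
  zero_mem' := by
    intro t _
    simp
  smul_mem' := by
    intro r z h t ht
    have h1 : ∑ ν, (t ν : F) * (r • z) ν = r * ∑ ν, (t ν : F) * z ν := by
      rw [Finset.mul_sum]
      exact Finset.sum_congr rfl fun ν _ => by rw [Pi.smul_apply, smul_eq_mul]; ring
    rw [h1, h t ht, mul_zero]

theorem orth_finrank (F : Type) [Field F] [CharZero F] {D : ℕ}
    (Δ : Submodule ℤ (Fin D → ℤ)) : finrank F (orth F Δ) + finrank ℤ Δ = D := by
  let b := Module.Free.chooseBasis ℤ Δ
  have hb : LinearIndependent ℤ fun i => ((b i : Δ) : Fin D → ℤ) :=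
    b.linearIndependent.map' Δ.subtype (Submodule.ker_subtype Δ)
  have hb2 : LinearIndependent F fun i => algebraMap ℤ F ∘ ((b i : Δ) : Fin D → ℤ) :=
    linearIndependent_algebraMap_comp_iff.2 hb
  let E := dotProductEquiv F (Fin D)
  have hb3 : LinearIndependent F fun i => E (algebraMap ℤ F ∘ ((b i : Δ) : Fin D → ℤ)) :=
    hb2.map' E.toLinearMap E.ker
  let W : Subspace F (Module.Dual F (Fin D → F)) :=
    Submodule.span F (Set.range fun i => E (algebraMap ℤ F ∘ ((b i : Δ) : Fin D → ℤ)))
  have hW : finrank F W = finrank ℤ Δ := by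
    rw [finrank_span_eq_card hb3, Module.finrank_eq_card_basis b]
  have h1 := Subspace.finrank_add_finrank_dualCoannihilator_eq W
  rw [hW, Module.finrank_fin_fun] at h1
  have h2 : W.dualCoannihilator = orth F Δ := by
    ext z
    rw [Submodule.mem_dualCoannihilator]
    constructor
    · intro h t ht
      have h3 : ∀ i, ∑ ν, (((b i : Δ) : Fin D → ℤ) ν : F) * z ν = 0 := fun i =>
        h _ (Submodule.subset_span ⟨i, rfl⟩)
      have h4 := b.sum_repr ⟨t, ht⟩
      have h5 : t = ∑ i, b.repr ⟨t, ht⟩ i • ((b i : Δ) : Fin D → ℤ) := by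
        have h6 := congrArg (fun x : Δ => (x : Fin D → ℤ)) h4
        change ((∑ i, b.repr ⟨t, ht⟩ i • b i : Δ) : Fin D → ℤ) = t at h6
        refine h6.symm.trans ?_
        push_cast
        rfl
      have h7 : ∀ ν, (t ν : F) =
          ∑ i, (b.repr ⟨t, ht⟩ i : F) * (((b i : Δ) : Fin D → ℤ) ν : F) := by
        intro ν
        have h8 := congrFun h5 ν
        rw [Finset.sum_apply] at h8
        rw [h8, Int.cast_sum]
        exact Finset.sum_congr rfl fun i _ => by rw [Pi.smul_apply, smul_eq_mul, Int.cast_mul]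
      calc ∑ ν, (t ν : F) * z ν = ∑ ν, ∑ i, (b.repr ⟨t, ht⟩ i : F) *
            ((((b i : Δ) : Fin D → ℤ) ν : F) * z ν) := by
            refine Finset.sum_congr rfl fun ν _ => ?_
            rw [h7 ν, Finset.sum_mul]
            exact Finset.sum_congr rfl fun i _ => by ring
        _ = ∑ i, (b.repr ⟨t, ht⟩ i : F) *
            ∑ ν, (((b i : Δ) : Fin D → ℤ) ν : F) * z ν := by
            rw [Finset.sum_comm]
            exact Finset.sum_congr rfl fun i _ => by rw [Finset.mul_sum]
        _ = 0 := Finset.sum_eq_zero fun i _ => by rw [h3, mul_zero]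
    · intro h f hf
      refine Submodule.span_induction (p := fun f _ => f z = 0) ?_ ?_ ?_ ?_ hf
      · rintro _ ⟨i, rfl⟩
        exact h _ (b i).2
      · rfl
      · intro x y _ _ hx hy
        rw [LinearMap.add_apply, hx, hy, add_zero]
      · intro a x _ hx
        rw [LinearMap.smul_apply, hx, smul_zero]
  rw [h2] at h1
  omega

/-- The map `z ↦ (∑ ω_ν z_(a,ν))_a`. -/
def phi {K : Type} [Field K] {d δ D : ℕ} (ω : Fin δ → K) (en : Fin D ≃ Fin d × Fin δ) :
    (Fin D → K) →ₗ[K] (Fin d → K) where
  toFun z := fun a => ∑ μ, ω μ * z (en.symm (a, μ))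
  map_add' z z' := by
    funext a
    simp only [Pi.add_apply, mul_add, Finset.sum_add_distrib]
  map_smul' r z := by
    funext a
    simp only [Pi.smul_apply, smul_eq_mul, RingHom.id_apply, Finset.mul_sum]
    exact Finset.sum_congr rfl fun μ _ => by ring

theorem phi_apply {K : Type} [Field K] {d δ D : ℕ} (ω : Fin δ → K)
    (en : Fin D ≃ Fin d × Fin δ) (z : Fin D → K) (a : Fin d) :
    phi ω en z a = ∑ μ, ω μ * z (en.symm (a, μ)) := rfl

/-- Ranks over `ℤ` of subgroups of vector spaces. -/
theorem finrank_le_of_injective {K : Type} [Field K] [NumberField K] {V : Type} [AddCommGroup V]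
    [Module K V] [FiniteDimensional K V] {l : ℕ} (M : Submodule ℤ (Fin l → ℤ)) (f : M →+ V)
    (hf : Function.Injective f) : finrank ℤ M ≤ finrank ℚ K * finrank K V := by
  letI : Module ℚ V := Module.compHom V (algebraMap ℚ K)
  haveI : IsScalarTower ℚ K V := ⟨fun a b v => by
    rw [Algebra.smul_def, mul_smul]
    rfl⟩
  haveI : FiniteDimensional ℚ V := FiniteDimensional.trans ℚ K V
  rw [Module.finrank_mul_finrank ℚ K V]
  let b := Module.Free.chooseBasis ℤ M
  have h1 : LinearIndependent ℤ fun i => f (b i) :=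
    b.linearIndependent.map' f.toIntLinearMap (LinearMap.ker_eq_bot.2 hf)
  have h2 : LinearIndependent ℚ fun i => f (b i) :=
    (LinearIndependent.iff_fractionRing ℤ ℚ).1 h1
  have h3 := h2.fintype_card_le_finrank
  rwa [← Module.finrank_eq_card_basis b] at h3

/-- The arithmetic at the end. -/
theorem arith {d δ N q A c₀ c₁ e ε s : ℕ} (hd : 1 ≤ d) (h0 : c₀ + e ≤ ε) (h1 : ε ≤ δ * e)
    (h2 : c₁ ≤ δ * s) (h3 : d * s ≤ N * e) (hq : 1 ≤ q) (hqA : q ≤ A)
    (h4 : d * ((q - 1) * δ) + q * (δ * N) < d * (A - 1)) (h5 : 1 ≤ c₀ + c₁) :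
    (A - 1) * c₀ + q * c₁ + 1 ≤ (A - q) * ε := by
  obtain ⟨κ, rfl⟩ : ∃ κ, q = κ + 1 := ⟨q - 1, by omega⟩
  obtain ⟨x, rfl⟩ : ∃ x, A = κ + x + 1 := ⟨A - (κ + 1), by omega⟩
  have e1 : κ + x + 1 - 1 = κ + x := by omega
  have e2 : κ + x + 1 - (κ + 1) = x := by omega
  have e3 : κ + 1 - 1 = κ := by omega
  rw [e1, e3] at h4
  rw [e1, e2]
  have he : 1 ≤ e := by
    by_contra h
    have h6 : e = 0 := by omega
    subst h6
    rw [mul_zero] at h1 h3
    have h7 : s = 0 := by
      rcases Nat.mul_eq_zero.1 (Nat.le_zero.1 h3) with h8 | h8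
      · omega
      · exact h8
    subst h7
    rw [mul_zero] at h2
    omega
  obtain ⟨y, rfl⟩ : ∃ y, ε = c₀ + e + y := ⟨ε - (c₀ + e), by omega⟩
  by_contra hcon
  have h6 : x * (c₀ + e + y) ≤ (κ + x) * c₀ + (κ + 1) * c₁ := by omega
  have h7 : d * (x * (c₀ + e + y)) ≤ d * ((κ + x) * c₀ + (κ + 1) * c₁) :=
    Nat.mul_le_mul_left d h6
  have h8 : (κ + 1) * (d * c₁) ≤ (κ + 1) * (δ * (N * e)) := by
    refine Nat.mul_le_mul_left _ ?_
    calc d * c₁ ≤ d * (δ * s) := Nat.mul_le_mul_left d h2
      _ = δ * (d * s) := by ring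
      _ ≤ δ * (N * e) := Nat.mul_le_mul_left δ h3
  have h9 : d * κ * (c₀ + e + y) ≤ d * κ * (δ * e) := Nat.mul_le_mul_left _ h1
  have h10 : (d * (κ * δ) + (κ + 1) * (δ * N)) * e + e ≤ d * (κ + x) * e := by
    have h11 : (d * (κ * δ) + (κ + 1) * (δ * N) + 1) * e ≤ d * (κ + x) * e :=
      Nat.mul_le_mul_right e h4
    calc (d * (κ * δ) + (κ + 1) * (δ * N)) * e + e =
        (d * (κ * δ) + (κ + 1) * (δ * N) + 1) * e := by ring
      _ ≤ _ := h11
  have h12 : 0 ≤ d * (κ + x) * y := Nat.zero_le _
  nlinarith [h7, h8, h9, h10, h12]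

end Ob

open Ob

theorem obst_53 : S_obst := by
  intro K _ _ d n δ' D w l hd ω hω0 hω hδ en ew β hβ R cc hcR hcI a ha hrel hss q A hq hqA hpar Δ
    hc
  have hβs : ∀ i (x : Fin d) (μ : Fin δ'), β i (en.symm (x, μ.succ)) =
      if ew i = (x, μ) then 1 else 0 := by
    intro i x μ
    rw [hβ, Equiv.apply_symm_apply]
    by_cases h : ew i = (x, μ)
    · rw [h, if_pos rfl, if_pos rfl]
    · rw [if_neg h, if_neg, if_neg]
      · intro h1
        exact Fin.succ_ne_zero μ (Prod.ext_iff.1 h1).2
      · intro h1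
        obtain ⟨h2, h3⟩ := Prod.ext_iff.1 h1
        exact h (Prod.ext h2.symm (Fin.succ_injective _ h3).symm)
  have hβ0 : ∀ i (x : Fin d), β i (en.symm (x, 0)) =
      if (ew i).1 = x then - ω (ew i).2.succ else 0 := by
    intro i x
    rw [hβ, Equiv.apply_symm_apply, if_neg]
    · by_cases h : (ew i).1 = x
      · have h1 : ((x, 0) : Fin d × Fin (δ' + 1)) = ((ew i).1, 0) := by rw [h]
        rw [if_pos h, if_pos h1]
      · rw [if_neg h, if_neg fun h1 => h (Prod.ext_iff.1 h1).1.symm]
    · intro h1
      exact Fin.succ_ne_zero _ (Prod.ext_iff.1 h1).2.symm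
  have hφβ : ∀ i, phi ω en (β i) = 0 := by
    intro i
    funext x
    rw [phi_apply, Fin.sum_univ_succ, hω0, one_mul, hβ0]
    simp only [hβs]
    by_cases h : (ew i).1 = x
    · subst h
      rw [if_pos rfl, Finset.sum_eq_single (ew i).2, if_pos rfl, mul_one, neg_add_cancel]
      · rfl
      · intro μ _ hμ
        rw [if_neg fun h1 => hμ (Prod.ext_iff.1 h1).2.symm, mul_zero]
      · intro h1
        exact absurd (Finset.mem_univ _) h1
    · rw [if_neg h, zero_add]
      refine (Finset.sum_eq_zero fun μ _ => ?_).trans rfl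
      rw [if_neg fun h1 => h (Prod.ext_iff.1 h1).1, mul_zero]
  set E : Submodule K (Fin d → K) := (orth K Δ).map (phi ω en) with hE
  -- (A)
  have hA : c0 β Δ + finrank K E ≤ finrank K (orth K Δ) := by
    let ψ : orth K Δ →ₗ[K] (Fin d → K) := (phi ω en).domRestrict (orth K Δ)
    have h1 := LinearMap.finrank_range_add_finrank_ker ψ
    have h2 : LinearMap.range ψ = E := by
      rw [hE]
      exact LinearMap.range_domRestrict _ _
    rw [h2] at h1
    let θ : linRel β Δ →ₗ[K] LinearMap.ker ψ :=
      { toFun := fun c => ⟨⟨fun ν => ∑ i, (c : Fin w → K) i * β i ν, fun t ht => by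
          have h3 := c.2 t ht
          refine Eq.trans ?_ h3
          simp only [Finset.mul_sum, xpt]
          rw [Finset.sum_comm]
          exact Finset.sum_congr rfl fun i _ => Finset.sum_congr rfl fun ν _ => by ring⟩, by
          rw [LinearMap.mem_ker]
          change phi ω en (fun ν => ∑ i, (c : Fin w → K) i * β i ν) = 0
          have h3 : (fun ν => ∑ i, (c : Fin w → K) i * β i ν) =
              ∑ i, (c : Fin w → K) i • β i := by
            funext ν
            rw [Finset.sum_apply]
            rfl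
          rw [h3, map_sum]
          exact Finset.sum_eq_zero fun i _ => by rw [map_smul, hφβ, smul_zero]⟩
        map_add' := fun c c' => by
          refine Subtype.ext (Subtype.ext ?_)
          funext ν
          change ∑ i, ((c : Fin w → K) i + (c' : Fin w → K) i) * β i ν =
            ∑ i, (c : Fin w → K) i * β i ν + ∑ i, (c' : Fin w → K) i * β i ν
          rw [← Finset.sum_add_distrib]
          exact Finset.sum_congr rfl fun i _ => by ring
        map_smul' := fun r c => by
          refine Subtype.ext (Subtype.ext ?_)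
          funext ν
          change ∑ i, (r * (c : Fin w → K) i) * β i ν =
            r * ∑ i, (c : Fin w → K) i * β i ν
          rw [Finset.mul_sum]
          exact Finset.sum_congr rfl fun i _ => by ring }
    have h4 : Function.Injective θ := by
      rw [injective_iff_map_eq_zero]
      intro c hc0
      refine Subtype.ext ?_
      funext i
      have h5 : (fun ν => ∑ i, (c : Fin w → K) i * β i ν) = 0 :=
        congrArg (fun x : LinearMap.ker ψ => ((x : orth K Δ) : Fin D → K)) hc0
      have h6 := congrFun h5 (en.symm ((ew i).1, (ew i).2.succ))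
      simp only [hβs, Pi.zero_apply] at h6
      rw [Finset.sum_eq_single i, if_pos rfl, mul_one] at h6
      · exact h6
      · intro i' _ hi'
        rw [if_neg fun h7 => hi' (ew.injective h7), mul_zero]
      · intro h7
        exact absurd (Finset.mem_univ _) h7
    have h5 := LinearMap.finrank_le_finrank_of_injective h4
    have h6 : c0 β Δ = finrank K (linRel β Δ) := rfl
    omega
  -- (C)
  have hC : finrank ℚ (orth ℚ Δ) ≤ (δ' + 1) * finrank K E := by
    rw [← hδ, Module.finrank_mul_finrank ℚ K E]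
    let θ : orth ℚ Δ →ₗ[ℚ] E :=
      { toFun := fun z => ⟨phi ω en (fun ν => algebraMap ℚ K ((z : Fin D → ℚ) ν)),
          ⟨fun ν => algebraMap ℚ K ((z : Fin D → ℚ) ν), fun t ht => by
            have h1 := congrArg (algebraMap ℚ K) (z.2 t ht)
            rw [map_sum, map_zero] at h1
            refine Eq.trans ?_ h1
            refine Finset.sum_congr rfl fun ν _ => ?_
            rw [map_mul, map_intCast], rfl⟩⟩
        map_add' := fun z z' => by
          refine Subtype.ext ?_
          have h1 : (fun ν => algebraMap ℚ K (((z + z' : orth ℚ Δ) : Fin D → ℚ) ν)) =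
              (fun ν => algebraMap ℚ K ((z : Fin D → ℚ) ν)) +
                fun ν => algebraMap ℚ K ((z' : Fin D → ℚ) ν) := by
            funext ν
            exact map_add _ _ _
          change phi ω en (fun ν => algebraMap ℚ K (((z + z' : orth ℚ Δ) : Fin D → ℚ) ν)) =
            phi ω en (fun ν => algebraMap ℚ K ((z : Fin D → ℚ) ν)) +
              phi ω en fun ν => algebraMap ℚ K ((z' : Fin D → ℚ) ν)
          rw [h1, map_add]
        map_smul' := fun r z => by
          refine Subtype.ext ?_
          have h1 : (fun ν => algebraMap ℚ K (((r • z : orth ℚ Δ) : Fin D → ℚ) ν)) =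
              algebraMap ℚ K r • fun ν => algebraMap ℚ K ((z : Fin D → ℚ) ν) := by
            funext ν
            exact map_mul _ _ _
          change phi ω en (fun ν => algebraMap ℚ K (((r • z : orth ℚ Δ) : Fin D → ℚ) ν)) =
            r • phi ω en (fun ν => algebraMap ℚ K ((z : Fin D → ℚ) ν))
          rw [h1, map_smul, algebraMap_smul] }
    haveI : Module.Finite ℚ E := Module.Finite.trans K E
    refine LinearMap.finrank_le_finrank_of_injective (f := θ) ?_
    rw [injective_iff_map_eq_zero]
    intro z hz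
    refine Subtype.ext ?_
    funext ν
    have h1 : phi ω en (fun ν => algebraMap ℚ K ((z : Fin D → ℚ) ν)) = 0 :=
      congrArg (fun x : E => (x : Fin d → K)) hz
    have h2 := congrFun h1 (en ν).1
    rw [phi_apply, Pi.zero_apply] at h2
    have h3 : ∑ μ, (z : Fin D → ℚ) (en.symm ((en ν).1, μ)) • ω μ = 0 := by
      rw [← h2]
      refine Finset.sum_congr rfl fun μ _ => ?_
      rw [Algebra.smul_def, mul_comm]
    have h4 := Fintype.linearIndependent_iff.1 hω _ h3 (en ν).2
    rw [Prod.mk.eta, Equiv.symm_apply_apply] at h4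
    exact h4
  -- (B)
  have hB : c1 a ha Δ ≤ (δ' + 1) * finrank K (colSub R E) := by
    rw [← hδ]
    have hmemR : ∀ b : Fin l → ℤ,
        (fun i m => ∑ ν, ((∑ j, b j * cc j i m ν : ℤ) : K) * ω ν) ∈ R := by
      intro b
      have h1 : (fun i m => ∑ ν, ((∑ j, b j * cc j i m ν : ℤ) : K) * ω ν) =
          ∑ j, (b j : K) • (fun i m => ∑ ν, (cc j i m ν : K) * ω ν : Fin d → Fin n → K) := by
        funext i m
        rw [Finset.sum_apply, Finset.sum_apply]
        simp only [Pi.smul_apply, smul_eq_mul, Finset.mul_sum]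
        rw [Finset.sum_comm]
        refine Finset.sum_congr rfl fun ν _ => ?_
        rw [Int.cast_sum, Finset.sum_mul]
        refine Finset.sum_congr rfl fun j _ => ?_
        rw [Int.cast_mul]
        ring
      rw [h1]
      exact R.sum_mem fun j _ => R.smul_mem _ (hcR j)
    let θ : mulRel a ha Δ →+ colSub R E :=
      { toFun := fun b => ⟨fun i m => ∑ ν, ((∑ j, (b : Fin l → ℤ) j * cc j i m ν : ℤ) : K) * ω ν,
          hmemR b, fun m => ⟨fun ν => ((∑ j, (b : Fin l → ℤ) j *
            cc j (en ν).1 m (en ν).2 : ℤ) : K), fun t ht => by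
              have h1 := hrel t b (b.2 t ht) m
              have h2 := congrArg (fun x : ℤ => (x : K)) h1
              simp only [Int.cast_sum, Int.cast_mul, Int.cast_zero] at h2 ⊢
              exact h2, by
              funext i
              rw [phi_apply]
              refine Finset.sum_congr rfl fun μ _ => ?_
              rw [Equiv.apply_symm_apply, mul_comm]⟩⟩
        map_zero' := by
          refine Subtype.ext ?_
          funext i m
          change ∑ ν, ((∑ j, (0 : ℤ) * cc j i m ν : ℤ) : K) * ω ν = 0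
          simp
        map_add' := fun b b' => by
          refine Subtype.ext ?_
          funext i m
          change ∑ ν, ((∑ j, ((b : Fin l → ℤ) j + (b' : Fin l → ℤ) j) * cc j i m ν : ℤ) : K) * ω ν =
            ∑ ν, ((∑ j, (b : Fin l → ℤ) j * cc j i m ν : ℤ) : K) * ω ν +
            ∑ ν, ((∑ j, (b' : Fin l → ℤ) j * cc j i m ν : ℤ) : K) * ω ν
          rw [← Finset.sum_add_distrib]
          refine Finset.sum_congr rfl fun ν _ => ?_
          simp only [add_mul, Finset.sum_add_distrib, Int.cast_add] }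
    refine finrank_le_of_injective _ θ ?_
    rw [injective_iff_map_eq_zero]
    intro b hb
    have h1 : (fun i m => ∑ ν, ((∑ j, (b : Fin l → ℤ) j * cc j i m ν : ℤ) : K) * ω ν) = 0 :=
      congrArg (fun x : colSub R E => (x : Fin d → Fin n → K)) hb
    have h2 : ∑ j, (b : Fin l → ℤ) j • cc j = 0 := by
      funext i m ν
      have h3 := congrFun (congrFun h1 i) m
      have h4 : ∑ ν, ((∑ j, (b : Fin l → ℤ) j * cc j i m ν : ℤ) : ℚ) • ω ν = 0 := by
        refine Eq.trans ?_ h3
        refine Finset.sum_congr rfl fun ν _ => ?_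
        rw [Algebra.smul_def, map_intCast]
      have h5 := Fintype.linearIndependent_iff.1 hω _ h4 ν
      rw [Finset.sum_apply, Finset.sum_apply, Finset.sum_apply]
      exact_mod_cast h5
    refine Subtype.ext ?_
    funext j
    exact Fintype.linearIndependent_iff.1 hcI _ h2 j
  have hD := hss E
  have hK := orth_finrank K Δ
  have hQ := orth_finrank ℚ Δ
  have h1 : D - finrank ℤ Δ = finrank K (orth K Δ) := by omega
  rw [h1]
  refine arith hd hA ?_ hB hD hq hqA hpar hc
  have h2 : finrank K (orth K Δ) = finrank ℚ (orth ℚ Δ) := by omega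
  rw [h2]
  exact hC

end Pool.Agent.Lib.MP_c50dba_nt.EX
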