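import Pool.Agent.Lib.MP_c50dba_nt.EX.Stmts

set_option autoImplicit false

/-! Module M11: parameters. -/

namespace Pool.Agent.Lib.MP_c50dba_nt.EX

theorem param_53 : S_param := by
  intro d δ N hd hδ hN
  obtain ⟨e, rfl⟩ : ∃ e, d = e + 1 := ⟨d - 1, by omega⟩
  obtain ⟨f, rfl⟩ : ∃ f, δ = f + 1 := ⟨δ - 1, by omega⟩
  have h1 : e + 1 - 1 = e := Nat.add_sub_cancel e 1
  rw [h1] at hN
  obtain ⟨g, rfl⟩ : ∃ g, N = (e + 1) * e + 1 + g := ⟨N - ((e + 1) * e + 1), by omega⟩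
  refine ⟨e * e + 2 * e + 1, (e * e + 2 * e) * (f + 1) +
    (e + 1) * (f + 1) * ((e + 1) * e + 1 + g) + 1 + 1, by omega, ?_, by omega, ?_, ?_⟩
  · nlinarith [Nat.zero_le ((e * e + 2 * e) * f),
      Nat.zero_le ((e + 1) * (f + 1) * ((e + 1) * e + 1 + g))]
  · rw [Nat.add_sub_cancel, Nat.add_sub_cancel]
    have h4 : 0 < e + 1 := Nat.succ_pos e
    refine Nat.lt_of_lt_of_eq (Nat.lt_add_of_pos_right h4) ?_
    ring
  · have h2 : (e + 1) * (f + 1) - 1 = e * f + e + f := by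
      have h3 : (e + 1) * (f + 1) = (e * f + e + f) + 1 := by ring
      rw [h3, Nat.add_sub_cancel]
    rw [h2, Nat.add_sub_cancel, Nat.add_sub_cancel]
    refine Nat.le.intro (k := e * f + (e + 1) * (f + 1) * g) ?_
    ring

end Pool.Agent.Lib.MP_c50dba_nt.EX
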