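import Pool.Agent.Lib.MP_c50dba_nt.EX.Stmts

set_option autoImplicit false

/-!
EXPANSION project, module M4 (helper52): perturbation of a square system, by Zariski's main
theorem for the finite type algebra `k[Y]` over `k[Q]`.
-/

namespace Pool.Agent.Lib.MP_c50dba_nt.EX.P52

open MvPolynomial

variable {k : Type} [Field k] {c : ℕ}

/-- The maximal ideal of a point. -/
noncomputable def mx (v : Fin c → k) : Ideal (MvPolynomial (Fin c) k) := RingHom.ker (eval v)

lemma mem_mx (v : Fin c → k) (f : MvPolynomial (Fin c) k) : f ∈ mx v ↔ eval v f = 0 := Iff.rfl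

instance mx_prime (v : Fin c → k) : (mx v).IsPrime := RingHom.ker_isPrime _

instance mx_max (v : Fin c → k) : (mx v).IsMaximal :=
  RingHom.ker_isMaximal_of_surjective _ (fun a => ⟨C a, by simp⟩)

/-- A prime over `Q` not containing the product of the `J`-coordinates is the ideal of a point. -/
lemma prime_eq [IsAlgClosed k] (J : Finset (Fin c)) (Q : Fin c → MvPolynomial (Fin c) k)
    (h : ∀ (Ω : Type) [Field Ω] [Algebra k Ω] (y : Fin c → Ω), (∀ j ∈ J, y j ≠ 0) →
      (∀ i, aeval y (Q i) = 0) → ∀ i, IsAlgebraic k (y i))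
    (P : Ideal (MvPolynomial (Fin c) k)) [P.IsPrime] (hQ : ∀ i, Q i ∈ P)
    (hJ : ∀ j ∈ J, X j ∉ P) : ∃ w : Fin c → k, P = mx w := by
  let Ω := FractionRing (MvPolynomial (Fin c) k ⧸ P)
  let φ : MvPolynomial (Fin c) k →ₐ[k] Ω :=
    (IsScalarTower.toAlgHom k (MvPolynomial (Fin c) k ⧸ P) Ω).comp (Ideal.Quotient.mkₐ k P)
  have hφ : ∀ f, φ f = 0 ↔ f ∈ P := by
    intro f
    have : φ f = algebraMap (MvPolynomial (Fin c) k ⧸ P) Ω (Ideal.Quotient.mk P f) := rfl
    rw [this, FaithfulSMul.algebraMap_eq_zero_iff, Ideal.Quotient.eq_zero_iff_mem]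
  have hy : ∀ f, aeval (fun j => φ (X j)) f = φ f := by
    intro f
    rw [← MvPolynomial.comp_aeval_apply]
    simp
  have halg := h Ω (fun j => φ (X j)) (fun j hj => by rw [Ne, hφ]; exact hJ j hj)
    (fun i => by rw [hy, hφ]; exact hQ i)
  have hex : ∀ j, ∃ a : k, algebraMap k Ω a = φ (X j) := fun j =>
    minpoly.mem_range_of_degree_eq_one k _ (IsAlgClosed.degree_eq_one_of_irreducible k
      (minpoly.irreducible (halg j).isIntegral))
  choose w hw using hex
  refine ⟨w, ?_⟩
  ext f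
  rw [mem_mx, ← hφ f, ← hy f]
  have : (fun j => φ (X j)) = fun j => algebraMap k Ω (w j) := by
    funext j
    exact (hw j).symm
  rw [this]
  have h2 : aeval (fun j => algebraMap k Ω (w j)) f = algebraMap k Ω (eval w f) := by
    exact MvPolynomial.aeval_algebraMap_apply Ω w f
  rw [h2, FaithfulSMul.algebraMap_eq_zero_iff]

/-- The ideal of a zero is a minimal prime over `Q`, isolated by some `h`. -/
lemma isolated [IsAlgClosed k] (J : Finset (Fin c)) (Q : Fin c → MvPolynomial (Fin c) k)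
    (h : ∀ (Ω : Type) [Field Ω] [Algebra k Ω] (y : Fin c → Ω), (∀ j ∈ J, y j ≠ 0) →
      (∀ i, aeval y (Q i) = 0) → ∀ i, IsAlgebraic k (y i))
    (v : Fin c → k) (hv : ∀ j ∈ J, v j ≠ 0) :
    ∃ g : MvPolynomial (Fin c) k, g ∉ mx v ∧ ∀ P : Ideal (MvPolynomial (Fin c) k), P.IsPrime →
      (∀ i, Q i ∈ P) → g ∉ P → P = mx v := by
  classical
  let I := Ideal.span (Set.range Q)
  have hI : ∀ P : Ideal (MvPolynomial (Fin c) k), (∀ i, Q i ∈ P) → I ≤ P := by
    intro P hP
    rw [Ideal.span_le]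
    rintro _ ⟨i, rfl⟩
    exact hP i
  have hIQ : ∀ P : Ideal (MvPolynomial (Fin c) k), I ≤ P → ∀ i, Q i ∈ P := fun P hP i =>
    hP (Ideal.subset_span ⟨i, rfl⟩)
  have hmin : ∀ P : Ideal (MvPolynomial (Fin c) k), P.IsPrime → I ≤ P → P ≤ mx v → P = mx v := by
    intro P hP hIP hPv
    obtain ⟨w, hw⟩ := prime_eq J Q h P (hIQ P hIP) (fun j hj hX => hv j hj (by
      have := hPv hX
      rw [mem_mx, eval_X] at this
      exact this))
    rw [hw] at hPv ⊢
    exact (mx_max w).eq_of_le (mx_prime v).ne_top hPv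
  have hfin : I.minimalPrimes.Finite := Ideal.finite_minimalPrimes_of_isNoetherianRing _ I
  have hex : ∀ P ∈ I.minimalPrimes, P ≠ mx v → ∃ g, g ∈ P ∧ g ∉ mx v := by
    intro P hP hne
    by_contra hcon
    push Not at hcon
    exact hne (hmin P hP.1.1 hP.1.2 hcon)
  let T : Finset (Ideal (MvPolynomial (Fin c) k)) := hfin.toFinset.filter (fun P => P ≠ mx v)
  have hT : ∀ P ∈ T, ∃ g, g ∈ P ∧ g ∉ mx v := by
    intro P hP
    rw [Finset.mem_filter, Set.Finite.mem_toFinset] at hP
    exact hex P hP.1 hP.2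
  choose! g hg1 hg2 using hT
  refine ⟨∏ P ∈ T, g P, ?_, ?_⟩
  · intro hmem
    rw [Ideal.IsPrime.prod_mem_iff] at hmem
    obtain ⟨P, hP, hgP⟩ := hmem
    exact hg2 P hP hgP
  · intro P hP hQP hgP
    obtain ⟨P', hP', hle⟩ := Ideal.exists_minimalPrimes_le (hI P hQP)
    by_cases hne : P' = mx v
    · rw [hne] at hle
      exact ((mx_max v).eq_of_le hP.ne_top hle).symm
    · exfalso
      apply hgP
      have hPT : P' ∈ T := by
        rw [Finset.mem_filter, Set.Finite.mem_toFinset]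
        exact ⟨hP', hne⟩
      exact hle (Ideal.prod_mem P' hPT (hg1 P' hPT))

/-- The subalgebra generated by `Q`. -/
noncomputable abbrev BB (Q : Fin c → MvPolynomial (Fin c) k) :
    Subalgebra k (MvPolynomial (Fin c) k) := Algebra.adjoin k (Set.range Q)

lemma finType (Q : Fin c → MvPolynomial (Fin c) k) :
    Algebra.FiniteType (BB Q) (MvPolynomial (Fin c) k) :=
  Algebra.FiniteType.of_restrictScalars_finiteType k (BB Q) (MvPolynomial (Fin c) k)

/-- Zariski's main theorem at a zero. -/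
lemma zmt [IsAlgClosed k] (J : Finset (Fin c)) (Q : Fin c → MvPolynomial (Fin c) k)
    (h : ∀ (Ω : Type) [Field Ω] [Algebra k Ω] (y : Fin c → Ω), (∀ j ∈ J, y j ≠ 0) →
      (∀ i, aeval y (Q i) = 0) → ∀ i, IsAlgebraic k (y i))
    (v : Fin c → k) (hv : ∀ j ∈ J, v j ≠ 0) (hQ : ∀ i, eval v (Q i) = 0) :
    ∃ r : MvPolynomial (Fin c) k, eval v r ≠ 0 ∧ IsIntegral (BB Q) r ∧
      ∀ x, ∃ m : ℕ, IsIntegral (BB Q) (r ^ m * x) := by
  classical
  have := finType Q
  obtain ⟨g, hg, hP⟩ := isolated J Q h v hv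
  let q : PrimeSpectrum (MvPolynomial (Fin c) k) := ⟨mx v, mx_prime v⟩
  have : Algebra.QuasiFiniteAt (BB Q) q.asIdeal := by
    apply Algebra.QuasiFiniteAt.of_isOpen_singleton_fiber
    refine isOpen_induced_iff.mpr ⟨_, (PrimeSpectrum.basicOpen g).isOpen, ?_⟩
    ext ⟨P, hPm⟩
    simp only [Set.mem_preimage, SetLike.mem_coe, PrimeSpectrum.mem_basicOpen,
      Set.mem_singleton_iff]
    constructor
    · intro hgP
      apply Subtype.ext
      apply PrimeSpectrum.ext
      refine hP P.asIdeal P.isPrime (fun i => ?_) hgP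
      have h1 : (⟨Q i, Algebra.subset_adjoin ⟨i, rfl⟩⟩ : BB Q) ∈
          (PrimeSpectrum.comap (algebraMap (BB Q) (MvPolynomial (Fin c) k)) q).asIdeal := hQ i
      have h2 : PrimeSpectrum.comap (algebraMap (BB Q) (MvPolynomial (Fin c) k)) P =
          PrimeSpectrum.comap (algebraMap (BB Q) (MvPolynomial (Fin c) k)) q := hPm
      rw [← h2] at h1
      exact h1
    · intro heq
      have h1 : P = q := congrArg Subtype.val heq
      rw [h1]
      exact hg
  have hZ := Algebra.ZariskisMainProperty.of_finiteType (R := BB Q) q.asIdeal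
  obtain ⟨r, hr, h1, h2⟩ := Algebra.zariskisMainProperty_iff.mp hZ
  exact ⟨r, hr, h1, h2⟩

lemma algInd (Q : Fin c → MvPolynomial (Fin c) k)
    (r : MvPolynomial (Fin c) k) (hr0 : r ≠ 0) (hr : IsIntegral (BB Q) r)
    (hx : ∀ x, ∃ m : ℕ, IsIntegral (BB Q) (r ^ m * x)) :
    Algebra.IsAlgebraic (BB Q) (MvPolynomial (Fin c) k) ∧ AlgebraicIndependent k Q := by
  have halg : Algebra.IsAlgebraic (BB Q) (MvPolynomial (Fin c) k) := by
    refine ⟨fun x => ?_⟩
    obtain ⟨m, hm⟩ := hx x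
    exact IsAlgebraic.of_mul (mem_nonZeroDivisors_of_ne_zero (pow_ne_zero m hr0))
      (hr.pow m).isAlgebraic hm.isAlgebraic
  refine ⟨halg, ?_⟩
  refine (Algebra.IsAlgebraic.isTranscendenceBasis_of_le_trdeg_of_finite k Q ?_).1
  rw [MvPolynomial.trdeg_of_isDomain]
  simp

/-- Separation of two zeros by an element integral over `k[Q]`. -/
lemma sep2 (Q : Fin c → MvPolynomial (Fin c) k) (v v' : Fin c → k) (hne : v ≠ v')
    (r : MvPolynomial (Fin c) k) (hr0 : eval v r ≠ 0) (hr : IsIntegral (BB Q) r)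
    (hx : ∀ x, ∃ m : ℕ, IsIntegral (BB Q) (r ^ m * x)) :
    ∃ a : MvPolynomial (Fin c) k, IsIntegral (BB Q) a ∧ eval v a ≠ eval v' a := by
  by_cases h : eval v r = eval v' r
  · obtain ⟨j, hj⟩ := Function.ne_iff.mp hne
    obtain ⟨m, hm⟩ := hx (X j)
    refine ⟨_, hm, ?_⟩
    rw [map_mul, map_mul, map_pow, map_pow, eval_X, eval_X, ← h]
    exact fun heq => hj (mul_left_cancel₀ (pow_ne_zero m hr0) heq)
  · exact ⟨r, hr, h⟩

lemma isInt_C (Q : Fin c → MvPolynomial (Fin c) k) (a : k) :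
    IsIntegral (BB Q) (C a : MvPolynomial (Fin c) k) := by
  have : (C a : MvPolynomial (Fin c) k) =
      algebraMap (BB Q) (MvPolynomial (Fin c) k) (algebraMap k (BB Q) a) := rfl
  rw [this]
  exact isIntegral_algebraMap

/-- An element integral over `k[Q]` with prescribed values at finitely many zeros. -/
lemma interp (Q : Fin c → MvPolynomial (Fin c) k) (Z : Finset (Fin c → k))
    (hsep : ∀ v ∈ Z, ∀ v' ∈ Z, v ≠ v' →
      ∃ a : MvPolynomial (Fin c) k, IsIntegral (BB Q) a ∧ eval v a ≠ eval v' a)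
    (n : (Fin c → k) → k) :
    ∃ θ : MvPolynomial (Fin c) k, IsIntegral (BB Q) θ ∧ ∀ v ∈ Z, eval v θ = n v := by
  classical
  have hsep' : ∀ v v' : Fin c → k, ∃ a : MvPolynomial (Fin c) k, IsIntegral (BB Q) a ∧
      (v ∈ Z → v' ∈ Z → v ≠ v' → eval v a ≠ eval v' a) := by
    intro v v'
    by_cases h : v ∈ Z ∧ v' ∈ Z ∧ v ≠ v'
    · obtain ⟨a, ha, hne⟩ := hsep v h.1 v' h.2.1 h.2.2
      exact ⟨a, ha, fun _ _ _ => hne⟩
    · exact ⟨0, isIntegral_zero, fun h1 h2 h3 => absurd ⟨h1, h2, h3⟩ h⟩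
  choose a ha hane using hsep'
  let e : (Fin c → k) → MvPolynomial (Fin c) k := fun v =>
    ∏ v' ∈ Z.erase v, (a v v' - C (eval v' (a v v')))
  have he_int : ∀ v, IsIntegral (BB Q) (e v) := by
    intro v
    exact IsIntegral.prod _ (fun v' _ => (ha v v').sub (isInt_C Q _))
  have he_ne : ∀ v ∈ Z, eval v (e v) ≠ 0 := by
    intro v hv
    simp only [e, map_prod, map_sub, eval_C]
    rw [Finset.prod_ne_zero_iff]
    intro v' hv'
    rw [Finset.mem_erase] at hv'
    rw [sub_ne_zero]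
    exact hane v v' hv hv'.2 hv'.1.symm
  have he_zero : ∀ v ∈ Z, ∀ v' ∈ Z, v' ≠ v → eval v' (e v) = 0 := by
    intro v hv v' hv' hne
    simp only [e, map_prod, map_sub, eval_C]
    exact Finset.prod_eq_zero (Finset.mem_erase.mpr ⟨hne, hv'⟩) (sub_self _)
  refine ⟨∑ v ∈ Z, C (n v / eval v (e v)) * e v, ?_, ?_⟩
  · exact IsIntegral.sum _ (fun v _ => (isInt_C Q _).mul (he_int v))
  · intro v hv
    rw [map_sum, Finset.sum_eq_single_of_mem v hv]
    · rw [map_mul, eval_C, div_mul_cancel₀ _ (he_ne v hv)]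
    · intro v' hv' hne
      rw [map_mul, he_zero v' hv' v hv hne.symm, mul_zero]

/-- All zeros give the same evaluation on `k[Q]`. -/
lemma eval_same (Q : Fin c → MvPolynomial (Fin c) k) (v v' : Fin c → k)
    (hv : ∀ i, eval v (Q i) = 0) (hv' : ∀ i, eval v' (Q i) = 0) (b : BB Q) :
    eval v (b : MvPolynomial (Fin c) k) = eval v' (b : MvPolynomial (Fin c) k) := by
  obtain ⟨b, hb⟩ := b
  refine Algebra.adjoin_induction (p := fun x _ => eval v x = eval v' x) ?_ ?_ ?_ ?_ hb
  · rintro _ ⟨i, rfl⟩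
    rw [hv, hv']
  · intro a
    have : algebraMap k (MvPolynomial (Fin c) k) a = C a := rfl
    rw [this, eval_C, eval_C]
  · intro x y _ _ hx hy
    rw [map_add, map_add, hx, hy]
  · intro x y _ _ hx hy
    rw [map_mul, map_mul, hx, hy]

/-- The number of zeros is at most the degree of the minimal polynomial of a separating element. -/
lemma card_le (Q : Fin c → MvPolynomial (Fin c) k) (Z : Finset (Fin c → k))
    (hZ : ∀ v ∈ Z, ∀ i, eval v (Q i) = 0) (θ : MvPolynomial (Fin c) k)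
    (hθ : IsIntegral (BB Q) θ) (hinj : Set.InjOn (fun v => eval v θ) (Z : Set (Fin c → k))) :
    Z.card ≤ (minpoly (BB Q) θ).natDegree := by
  classical
  rcases Z.eq_empty_or_nonempty with rfl | ⟨v₀, hv₀⟩
  · simp
  let ε : BB Q →+* k := (eval v₀).comp (algebraMap (BB Q) (MvPolynomial (Fin c) k))
  have hmon := minpoly.monic hθ
  have hmon' : ((minpoly (BB Q) θ).map ε).Monic := hmon.map ε
  have hroot : ∀ v ∈ Z, ((minpoly (BB Q) θ).map ε).eval (eval v θ) = 0 := by
    intro v hv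
    have hε : ε = (eval v).comp (algebraMap (BB Q) (MvPolynomial (Fin c) k)) := by
      ext b
      exact eval_same Q v₀ v (hZ v₀ hv₀) (hZ v hv) b
    rw [hε, Polynomial.eval_map, ← Polynomial.hom_eval₂, ← Polynomial.aeval_def,
      minpoly.aeval, map_zero]
  rw [← hmon.natDegree_map ε]
  calc Z.card = (Z.image (fun v => eval v θ)).card := (Finset.card_image_of_injOn hinj).symm
    _ ≤ ((minpoly (BB Q) θ).map ε).roots.toFinset.card := by
        apply Finset.card_le_card
        intro x hx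
        rw [Finset.mem_image] at hx
        obtain ⟨v, hv, rfl⟩ := hx
        rw [Multiset.mem_toFinset, Polynomial.mem_roots hmon'.ne_zero]
        exact hroot v hv
    _ ≤ ((minpoly (BB Q) θ).map ε).roots.card := Multiset.toFinset_card_le _
    _ ≤ _ := Polynomial.card_roots' _

/-- Abstract form. -/
lemma abs_pts (k B A : Type) [Field k] [CharZero k] [CommRing B] [IsDomain B] [CommRing A]
    [IsDomain A] [Algebra k B] [Algebra B A] [FaithfulSMul B A]
    [IsIntegrallyClosed B] [Algebra.IsAlgebraic B A] (θ : A) (hθ : IsIntegral B θ) :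
    ∃ (Ω : Type) (_ : Field Ω) (_ : Algebra k Ω) (_ : Algebra B Ω) (_ : IsScalarTower k B Ω),
      Function.Injective (algebraMap B Ω) ∧
      ∃ R : Finset Ω, (minpoly B θ).natDegree ≤ R.card ∧ ∀ ρ ∈ R, ∃ φ : A →ₐ[B] Ω, φ θ = ρ := by
  classical
  let K := FractionRing B
  let L := FractionRing A
  have hinj : FaithfulSMul B L := inferInstance
  let _ : Algebra K L := FractionRing.liftAlgebra B L
  have _ : IsScalarTower B K L := FractionRing.isScalarTower_liftAlgebra B L
  have h1 : Algebra.IsAlgebraic B L :=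
    (IsFractionRing.isAlgebraic_iff' B A L).1 inferInstance
  have h2 : Algebra.IsAlgebraic K L :=
    ⟨fun x => (IsFractionRing.isAlgebraic_iff B K L).1 (h1.isAlgebraic x)⟩
  have hmin := minpoly.isIntegrallyClosed_eq_field_fractions K L hθ
  have hdeg : (minpoly K (algebraMap A L θ)).natDegree = (minpoly B θ).natDegree := by
    rw [hmin, (minpoly.monic hθ).natDegree_map]
  let Ω := AlgebraicClosure K
  have hint : IsIntegral K (algebraMap A L θ) := (h2.isAlgebraic _).isIntegral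
  have : CharZero B := charZero_of_injective_algebraMap (algebraMap k B).injective
  have : CharZero K := IsFractionRing.charZero_of_isFractionRing B
  have hsep : (minpoly K (algebraMap A L θ)).Separable := (minpoly.irreducible hint).separable
  have hcard := Polynomial.card_rootSet_eq_natDegree (K := Ω) hsep (IsAlgClosed.splits _)
  refine ⟨Ω, inferInstance, inferInstance, inferInstance, inferInstance, ?_, ?_⟩
  · exact (algebraMap K Ω).injective.comp (IsFractionRing.injective B K)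
  · refine ⟨((minpoly K (algebraMap A L θ)).rootSet Ω).toFinset, ?_, ?_⟩
    · rw [Set.toFinset_card, hcard, hdeg]
    · intro ρ hρ
      rw [Set.mem_toFinset, ← Algebra.IsAlgebraic.range_eval_eq_rootSet_minpoly Ω] at hρ
      obtain ⟨ψ, hψ⟩ := hρ
      exact ⟨(ψ.restrictScalars B).comp (IsScalarTower.toAlgHom B A L), hψ⟩

/-- Points over the generic values of `Q`, as many as the degree of an integral element. -/
lemma pts [CharZero k] (Q : Fin c → MvPolynomial (Fin c) k)
    (halg : Algebra.IsAlgebraic (BB Q) (MvPolynomial (Fin c) k)) (hind : AlgebraicIndependent k Q)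
    (θ : MvPolynomial (Fin c) k) (hθ : IsIntegral (BB Q) θ) :
    ∃ (Ω : Type) (_ : Field Ω) (_ : Algebra k Ω) (s : Fin c → Ω) (Z' : Finset (Fin c → Ω)),
      AlgebraicIndependent k s ∧ (minpoly (BB Q) θ).natDegree ≤ Z'.card ∧
      ∀ y ∈ Z', ∀ i, aeval y (Q i) = s i := by
  classical
  have hIC : IsIntegrallyClosed (BB Q) := IsIntegrallyClosed.of_equiv hind.aevalEquiv.toRingEquiv
  have hFS : FaithfulSMul (BB Q) (MvPolynomial (Fin c) k) :=
    (faithfulSMul_iff_algebraMap_injective _ _).mpr Subtype.val_injective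
  obtain ⟨Ω, i1, i2, i3, i4, hinj, R, hR, hφ⟩ :=
    abs_pts k (BB Q) (MvPolynomial (Fin c) k) θ hθ
  have hφ' : ∀ ρ : R, ∃ φ : MvPolynomial (Fin c) k →ₐ[BB Q] Ω, φ θ = ρ := fun ρ => hφ ρ ρ.2
  choose φ hφ using hφ'
  have hk : ∀ (ρ : R) (a : k), φ ρ (C a) = algebraMap k Ω a := by
    intro ρ a
    have h1 : (C a : MvPolynomial (Fin c) k) =
      algebraMap (BB Q) (MvPolynomial (Fin c) k) (algebraMap k (BB Q) a) := rfl
    rw [h1, AlgHom.commutes, ← IsScalarTower.algebraMap_apply]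
  have hae : ∀ (ρ : R) (f : MvPolynomial (Fin c) k), aeval (fun j => φ ρ (X j)) f = φ ρ f := by
    intro ρ f
    induction f using MvPolynomial.induction_on with
    | C a => rw [aeval_C, hk]
    | add p q hp hq => rw [map_add, map_add, hp, hq]
    | mul_X p j hp => rw [map_mul, map_mul, hp, aeval_X]
  let qq : Fin c → BB Q := fun i => ⟨Q i, Algebra.subset_adjoin ⟨i, rfl⟩⟩
  refine ⟨Ω, i1, i2, fun i => algebraMap (BB Q) Ω (qq i), R.attach.image (fun ρ j => φ ρ (X j)),
    ?_, ?_, ?_⟩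
  · have h1 : AlgebraicIndependent k qq := by
      have h2 : AlgebraicIndependent k ((BB Q).val ∘ qq) := hind
      exact AlgebraicIndependent.of_comp (BB Q).val h2
    exact h1.map' (f := IsScalarTower.toAlgHom k (BB Q) Ω) hinj
  · rw [Finset.card_image_of_injOn, Finset.card_attach]
    · exact hR
    · intro ρ _ ρ' _ heq
      apply Subtype.ext
      rw [← hφ ρ, ← hφ ρ', ← hae, ← hae]
      exact congrArg (fun y => aeval y θ) heq
  · intro y hy i
    rw [Finset.mem_image] at hy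
    obtain ⟨ρ, _, rfl⟩ := hy
    rw [hae]
    exact (φ ρ).commutes (qq i)

end Pool.Agent.Lib.MP_c50dba_nt.EX.P52

namespace Pool.Agent.Lib.MP_c50dba_nt.EX

open MvPolynomial

/-- M4: perturbation. -/
theorem perturb_52 : S_perturb := by
  classical
  intro k _ _ _ c _ J Q h Z hZ
  rcases Z.eq_empty_or_nonempty with rfl | ⟨v₀, hv₀⟩
  · refine ⟨FractionRing (MvPolynomial (Fin c) k), inferInstance, inferInstance,
      fun i => algebraMap (MvPolynomial (Fin c) k) _ (X i), ∅, ?_, le_refl _, by simp⟩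
    exact (MvPolynomial.algebraicIndependent_X (Fin c) k).map'
      (f := IsScalarTower.toAlgHom k (MvPolynomial (Fin c) k)
        (FractionRing (MvPolynomial (Fin c) k)))
      (IsFractionRing.injective _ _)
  · have hz : ∀ v ∈ Z, ∃ r : MvPolynomial (Fin c) k, eval v r ≠ 0 ∧ IsIntegral (P52.BB Q) r ∧
        ∀ x, ∃ m : ℕ, IsIntegral (P52.BB Q) (r ^ m * x) := fun v hv =>
      P52.zmt J Q h v (hZ v hv).1 (hZ v hv).2
    obtain ⟨r, hr0, hr, hrx⟩ := hz v₀ hv₀
    obtain ⟨halg, hind⟩ := P52.algInd Q r (fun h0 => hr0 (by rw [h0, map_zero])) hr hrx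
    obtain ⟨n, hn⟩ : ∃ n : (Fin c → k) → k, Set.InjOn n (Z : Set (Fin c → k)) := by
      let f : Z → k := fun z => ((Z.equivFin z : ℕ) : k)
      have hf : Function.Injective f := fun z z' hzz =>
        Z.equivFin.injective (Fin.val_injective (Nat.cast_injective hzz))
      exact ⟨fun v => if hv : v ∈ Z then f ⟨v, hv⟩ else 0, fun v hv v' hv' heq => by
        have h1 : v ∈ Z := hv
        have h2 : v' ∈ Z := hv'
        simp only [h1, h2, dif_pos] at heq
        exact congrArg Subtype.val (hf heq)⟩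
    obtain ⟨θ, hθ, hval⟩ := P52.interp Q Z (fun v hv v' hv' hne => by
      obtain ⟨r, hr0, hr, hrx⟩ := hz v hv
      exact P52.sep2 Q v v' hne r hr0 hr hrx) n
    obtain ⟨Ω, i1, i2, s, Z', hs, hcard, hq⟩ := P52.pts Q halg hind θ hθ
    refine ⟨Ω, i1, i2, s, Z', hs, (P52.card_le Q Z (fun v hv => (hZ v hv).2) θ hθ ?_).trans
      hcard, hq⟩
    intro v hv v' hv' heq
    have heq' : eval v θ = eval v' θ := heq
    rw [hval v hv, hval v' hv'] at heq'
    exact hn hv hv' heq'

end Pool.Agent.Lib.MP_c50dba_nt.EX
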