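import Pool.Agent.Lib.MP_c50dba_nt.EX.Stmts
import Pool.Agent.Lib.MP_c50dba_nt.RankCore

set_option autoImplicit false

/-!
EXPANSION, module M14 (helper90): the strong rank theorem from the core statement over a number
field, `S_core → S_rank`.
-/

namespace Pool.Agent.Lib.MP_c50dba_nt.EX

open Module NumberField

section Abstract

variable {k Ω : Type} [Field k] [Field Ω] [Algebra k Ω]

/-- The relation map of the families `v`, `l`. -/
def TT90 {n : ℕ} (l : Fin n → Ω) {e : ℕ} (v : Fin e → Ω) : (Fin e → Fin n → k) →ₗ[k] Ω where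
  toFun c := ∑ i, ∑ j, c i j • (v i * l j)
  map_add' c c' := by simp only [Pi.add_apply, add_smul, Finset.sum_add_distrib]
  map_smul' r c := by
    simp only [Pi.smul_apply, smul_eq_mul, mul_smul, Finset.smul_sum, RingHom.id_apply]

lemma TT90_apply {n : ℕ} (l : Fin n → Ω) {e : ℕ} (v : Fin e → Ω) (c : Fin e → Fin n → k) :
    TT90 l v c = ∑ i, ∑ j, c i j • (v i * l j) := rfl

lemma TT90_range {n : ℕ} (l : Fin n → Ω) {e : ℕ} (v : Fin e → Ω) :
    LinearMap.range (TT90 (k := k) l v) =
      Submodule.span k (Set.range (fun ij : Fin e × Fin n => v ij.1 * l ij.2)) := by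
  classical
  apply le_antisymm
  · rintro x ⟨c, rfl⟩
    rw [TT90_apply]
    exact Submodule.sum_mem _ (fun i _ => Submodule.sum_mem _ (fun j _ =>
      Submodule.smul_mem _ _ (Submodule.subset_span ⟨(i, j), rfl⟩)))
  · rw [Submodule.span_le]
    rintro x ⟨⟨i, j⟩, rfl⟩
    refine ⟨Pi.single i (Pi.single j 1), ?_⟩
    rw [TT90_apply, Finset.sum_eq_single i, Finset.sum_eq_single j]
    · simp
    · intro b _ hb
      simp [Pi.single_eq_of_ne hb]
    · intro h
      exact absurd (Finset.mem_univ _) h
    · intro b _ hb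
      simp [Pi.single_eq_of_ne hb]
    · intro h
      exact absurd (Finset.mem_univ _) h

/-- Rank-nullity. -/
lemma TT90_rank {n : ℕ} (l : Fin n → Ω) {e : ℕ} (v : Fin e → Ω) :
    finrank k (Submodule.span k (Set.range (fun ij : Fin e × Fin n => v ij.1 * l ij.2))) +
      finrank k (LinearMap.ker (TT90 (k := k) l v)) = e * n := by
  have h := LinearMap.finrank_range_add_finrank_ker (TT90 (k := k) l v)
  rw [TT90_range] at h
  rw [h, Module.finrank_pi_fintype]
  simp

/-- The extremal family. -/
theorem extremal90 {n : ℕ} (l : Fin n → Ω) (d : ℕ) (u : Fin d → Ω) (hu : LinearIndependent k u)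
    (h : d * (d - 1) < finrank k (LinearMap.ker (TT90 (k := k) l u))) :
    ∃ (d' : ℕ) (u' : Fin d' → Ω), 1 ≤ d' ∧ LinearIndependent k u' ∧
      d' * (d' - 1) < finrank k (LinearMap.ker (TT90 (k := k) l u')) ∧
      ∀ (e : ℕ) (v : Fin e → Ω), 1 ≤ e → e ≤ d' → LinearIndependent k v →
        d' * finrank k (LinearMap.ker (TT90 (k := k) l v)) ≤
          finrank k (LinearMap.ker (TT90 (k := k) l u')) * e := by
  classical
  have hd : 1 ≤ d := by
    rcases Nat.eq_zero_or_pos d with rfl | hd
    · exfalso
      have h1 := TT90_rank (k := k) l u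
      omega
    · exact hd
  set S : Set (ℕ × ℕ) := {x | 1 ≤ x.1 ∧ x.1 ≤ d ∧ ∃ v : Fin x.1 → Ω, LinearIndependent k v ∧
    finrank k (LinearMap.ker (TT90 (k := k) l v)) = x.2} with hS
  have hfin : S.Finite := by
    apply Set.Finite.subset (Set.Finite.prod (Set.finite_Iic d) (Set.finite_Iic (d * n)))
    rintro ⟨e, m⟩ ⟨h1, h2, v, hv, hm⟩
    refine ⟨h2, ?_⟩
    have h3 : finrank k (Submodule.span k (Set.range (fun ij : Fin e × Fin n => v ij.1 * l ij.2))) +
      finrank k (LinearMap.ker (TT90 (k := k) l v)) = e * n := TT90_rank (k := k) l v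
    have hm' : finrank k (LinearMap.ker (TT90 (k := k) l v)) = m := hm
    rw [hm'] at h3
    have h4 : m ≤ e * n := by omega
    exact h4.trans (Nat.mul_le_mul_right n h2)
  have hne : S.Nonempty := ⟨(d, finrank k (LinearMap.ker (TT90 (k := k) l u))), hd, le_rfl, u, hu, rfl⟩
  obtain ⟨⟨d', m'⟩, hmem, hmax⟩ := Set.exists_max_image S
    (fun x : ℕ × ℕ => (x.2 : ℚ) / x.1) hfin hne
  obtain ⟨h1, h2, u', hu', hm'⟩ := hmem
  simp only at h1 h2 hm'
  have hd'Q : (0 : ℚ) < d' := by exact_mod_cast h1
  have hcross : ∀ (e : ℕ) (v : Fin e → Ω), 1 ≤ e → e ≤ d → LinearIndependent k v →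
      d' * finrank k (LinearMap.ker (TT90 (k := k) l v)) ≤ m' * e := by
    intro e v he1 he2 hv
    have h3 := hmax (e, finrank k (LinearMap.ker (TT90 (k := k) l v))) ⟨he1, he2, v, hv, rfl⟩
    simp only at h3
    have heQ : (0 : ℚ) < e := by exact_mod_cast he1
    rw [div_le_div_iff₀ heQ hd'Q] at h3
    have h4 : ((finrank k (LinearMap.ker (TT90 (k := k) l v)) * d' : ℕ) : ℚ) ≤ (m' * e : ℕ) := by
      push_cast
      exact h3
    rw [mul_comm]
    exact_mod_cast h4
  refine ⟨d', u', h1, hu', ?_, ?_⟩
  · rw [hm']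
    have h3 := hcross d u hd le_rfl hu
    -- `d' * N ≤ m' * d`, `d (d-1) < N`
    have h4 : d' * (d * (d - 1)) < m' * d := lt_of_lt_of_le (Nat.mul_lt_mul_of_pos_left h h1) h3
    have h5 : d * (d' * (d - 1)) < d * m' := by
      calc d * (d' * (d - 1)) = d' * (d * (d - 1)) := by ring
        _ < m' * d := h4
        _ = d * m' := by ring
    have h6 := Nat.lt_of_mul_lt_mul_left h5
    exact lt_of_le_of_lt (Nat.mul_le_mul_left d' (Nat.sub_le_sub_right h2 1)) h6
  · intro e v he1 he2 hv
    rw [hm']
    exact hcross e v he1 (he2.trans h2) hv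

variable {K : Type} [Field K] [Algebra K k]

/-- Relations with coefficients in `K`: lower bound for their dimension. -/
theorem lower90 {n : ℕ} (l : Fin n → Ω) {d : ℕ} (u : Fin d → Ω)
    (R : Submodule K (Fin d → Fin n → K))
    (hR : ∀ c : Fin d → Fin n → K,
      c ∈ R ↔ TT90 l u (fun i j => algebraMap K k (c i j)) = 0)
    (b : Fin (finrank k (LinearMap.ker (TT90 (k := k) l u))) → Fin d → Fin n → K)
    (B : Basis (Fin (finrank k (LinearMap.ker (TT90 (k := k) l u)))) k
      (LinearMap.ker (TT90 (k := k) l u)))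
    (hb : ∀ m i j, algebraMap K k (b m i j) = (B m : Fin d → Fin n → k) i j) :
    finrank k (LinearMap.ker (TT90 (k := k) l u)) ≤ finrank K R := by
  classical
  have hmem : ∀ m, b m ∈ R := by
    intro m
    rw [hR]
    have h1 : (fun i j => algebraMap K k (b m i j)) = (B m : Fin d → Fin n → k) := by
      funext i j
      exact hb m i j
    rw [h1]
    exact (B m).2
  -- independence
  let eK : (Fin d → Fin n → K) ≃ₗ[K] (Fin d × Fin n → K) := (LinearEquiv.curry K K (Fin d) (Fin n)).symm
  let ek : (Fin d → Fin n → k) ≃ₗ[k] (Fin d × Fin n → k) := (LinearEquiv.curry k k (Fin d) (Fin n)).symm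
  have h1 : LinearIndependent k (fun m => ek (B m : Fin d → Fin n → k)) := by
    have h2 : LinearIndependent k (fun m => (B m : Fin d → Fin n → k)) :=
      B.linearIndependent.map' (LinearMap.ker (TT90 (k := k) l u)).subtype
        (Submodule.ker_subtype _)
    exact h2.map' ek.toLinearMap (LinearEquiv.ker ek)
  have h3 : (fun m => ek (B m : Fin d → Fin n → k)) =
      (fun m => algebraMap K k ∘ (eK (b m))) := by
    funext m ij
    exact (hb m ij.1 ij.2).symm
  rw [h3, linearIndependent_algebraMap_comp_iff] at h1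
  have h4 : LinearIndependent K b := LinearIndependent.of_comp eK.toLinearMap h1
  have h5 : LinearIndependent K (fun m => (⟨b m, hmem m⟩ : R)) :=
    LinearIndependent.of_comp R.subtype h4
  have h6 := h5.fintype_card_le_finrank
  rwa [Fintype.card_fin] at h6

/-- Relations with coefficients in `K` all whose columns lie in `E`: upper bound. -/
theorem upper90 {n : ℕ} (l : Fin n → Ω) {d : ℕ} (u : Fin d → Ω) (hu : LinearIndependent k u)
    (R : Submodule K (Fin d → Fin n → K))
    (hR : ∀ c : Fin d → Fin n → K,
      c ∈ R ↔ TT90 l u (fun i j => algebraMap K k (c i j)) = 0)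
    (E : Submodule K (Fin d → K)) :
    ∃ v : Fin (finrank K E) → Ω, LinearIndependent k v ∧
      finrank K (colSub R E) ≤ finrank k (LinearMap.ker (TT90 (k := k) l v)) := by
  classical
  set e := finrank K E with he
  let bE : Basis (Fin e) K E := finBasisOfFinrankEq K E he.symm
  let ε : Fin e → Fin d → K := fun a => (bE a : Fin d → K)
  have hε : LinearIndependent K ε := bE.linearIndependent.map' E.subtype (Submodule.ker_subtype _)
  let ψ : (Fin d → k) →ₗ[k] Ω := Fintype.linearCombination k u
  have hψ : LinearMap.ker ψ = ⊥ := by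
    rw [LinearMap.ker_eq_bot]
    exact linearIndependent_iff_injective_fintypeLinearCombination.mp hu
  have hε' : LinearIndependent k (fun a => algebraMap K k ∘ ε a) :=
    linearIndependent_algebraMap_comp_iff.mpr hε
  let v : Fin e → Ω := fun a => ψ (algebraMap K k ∘ ε a)
  have hv : LinearIndependent k v := hε'.map' ψ hψ
  refine ⟨v, hv, ?_⟩
  -- the family
  set M := finrank K (colSub R E) with hM
  let f : Basis (Fin M) K (colSub R E) := finBasisOfFinrankEq K _ hM.symm
  let x : Fin M → Fin e → Fin n → K := fun m a j =>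
    bE.repr ⟨fun i => (f m : Fin d → Fin n → K) i j, (f m).2.2 j⟩ a
  have hx : ∀ m i j, (f m : Fin d → Fin n → K) i j = ∑ a, x m a j * ε a i := by
    intro m i j
    have h1 := bE.sum_repr ⟨fun i => (f m : Fin d → Fin n → K) i j, (f m).2.2 j⟩
    have h2 : (∑ a, (bE.repr ⟨fun i => (f m : Fin d → Fin n → K) i j, (f m).2.2 j⟩ a • bE a) :
        E).1 i = (f m : Fin d → Fin n → K) i j := congrFun (congrArg Subtype.val h1) i
    rw [← h2, Submodule.coe_sum, Finset.sum_apply]
    rfl
  -- `f = image of x`
  let Θ : (Fin e → Fin n → K) →ₗ[K] (Fin d → Fin n → K) :=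
    { toFun := fun y i j => ∑ a, y a j * ε a i
      map_add' := by
        intro y y'
        funext i j
        simp only [Pi.add_apply, add_mul, Finset.sum_add_distrib]
      map_smul' := by
        intro r y
        funext i j
        simp only [Pi.smul_apply, smul_eq_mul, mul_assoc, Finset.mul_sum, RingHom.id_apply] }
  have hΘ : ∀ m, Θ (x m) = (f m : Fin d → Fin n → K) := by
    intro m
    funext i j
    exact (hx m i j).symm
  have hf : LinearIndependent K (fun m => (f m : Fin d → Fin n → K)) :=
    f.linearIndependent.map' (colSub R E).subtype (Submodule.ker_subtype _)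
  have hxl : LinearIndependent K x := by
    apply LinearIndependent.of_comp Θ
    have : Θ ∘ x = fun m => (f m : Fin d → Fin n → K) := funext hΘ
    rw [this]
    exact hf
  let eK : (Fin e → Fin n → K) ≃ₗ[K] (Fin e × Fin n → K) := (LinearEquiv.curry K K (Fin e) (Fin n)).symm
  let ek : (Fin e → Fin n → k) ≃ₗ[k] (Fin e × Fin n → k) := (LinearEquiv.curry k k (Fin e) (Fin n)).symm
  let g : Fin M → Fin e → Fin n → k := fun m a j => algebraMap K k (x m a j)
  have hg : LinearIndependent k g := by
    apply LinearIndependent.of_comp ek.toLinearMap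
    have h1 : (ek.toLinearMap ∘ g) = fun m => algebraMap K k ∘ (eK (x m)) := by
      funext m ij
      rfl
    rw [h1, linearIndependent_algebraMap_comp_iff]
    exact hxl.map' eK.toLinearMap (LinearEquiv.ker eK)
  have hgmem : ∀ m, g m ∈ LinearMap.ker (TT90 (k := k) l v) := by
    intro m
    rw [LinearMap.mem_ker]
    have h1 := (hR _).mp (f m).2.1
    rw [← h1, TT90_apply, TT90_apply]
    have h2 : ∀ a j, g m a j • (v a * l j) =
        ∑ i, (algebraMap K k (x m a j * ε a i)) • (u i * l j) := by
      intro a j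
      simp only [g, v, ψ, Fintype.linearCombination_apply, Function.comp_apply]
      rw [Finset.sum_mul, Finset.smul_sum]
      apply Finset.sum_congr rfl
      intro i _
      rw [map_mul, mul_smul, smul_mul_assoc]
    simp only [h2]
    have h3 : ∀ i j, (algebraMap K k ((f m : Fin d → Fin n → K) i j)) • (u i * l j) =
        ∑ a, (algebraMap K k (x m a j * ε a i)) • (u i * l j) := by
      intro i j
      rw [hx m i j, map_sum, Finset.sum_smul]
    simp only [h3]
    calc ∑ a, ∑ j, ∑ i, (algebraMap K k (x m a j * ε a i)) • (u i * l j)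
        = ∑ a, ∑ i, ∑ j, (algebraMap K k (x m a j * ε a i)) • (u i * l j) :=
          Finset.sum_congr rfl (fun a _ => Finset.sum_comm)
      _ = ∑ i, ∑ a, ∑ j, (algebraMap K k (x m a j * ε a i)) • (u i * l j) := Finset.sum_comm
      _ = ∑ i, ∑ j, ∑ a, (algebraMap K k (x m a j * ε a i)) • (u i * l j) :=
          Finset.sum_congr rfl (fun i _ => Finset.sum_comm)
  have h5 : LinearIndependent k (fun m => (⟨g m, hgmem m⟩ : LinearMap.ker (TT90 (k := k) l v))) :=
    LinearIndependent.of_comp (LinearMap.ker (TT90 (k := k) l v)).subtype hg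
  have h6 := h5.fintype_card_le_finrank
  rwa [Fintype.card_fin] at h6

end Abstract

open Pool.Agent.Lib.MP_c50dba_nt in
/-- M14. The strong rank theorem from the core statement. -/
theorem rank_90 (hcore : S_core) : S_rank := by
  classical
  intro p hp L hmul hLp hser n α hα0 halg hind d u hu
  by_contra hcon
  push Not at hcon
  let Ω := PadicAlgCl p
  let k := algebraicClosure ℚ (PadicAlgCl p)
  let l : Fin n → PadicAlgCl p := fun j => L (α j)
  have hrk := TT90_rank (k := k) l u
  have hN : d * (d - 1) < finrank k (LinearMap.ker (TT90 (k := k) l u)) := by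
    have h1 : finrank k (Submodule.span k (Set.range (fun ij : Fin d × Fin n => u ij.1 * l ij.2)))
      + d * d < d * (n + 1) := hcon
    have h2 : d * (n + 1) = d * n + d := by ring
    have h3 : d * (d - 1) + d = d * d := by
      rcases Nat.eq_zero_or_pos d with rfl | hd
      · rfl
      · obtain ⟨e, rfl⟩ : ∃ e, d = e + 1 := ⟨d - 1, by omega⟩
        rw [Nat.add_sub_cancel]
        ring
    omega
  obtain ⟨d', u', hd', hu', hN', hext⟩ := extremal90 (k := k) l d u hu hN
  -- near-one powers of the `α i`
  have hpne : (p : PadicAlgCl p) ≠ 0 := by exact_mod_cast hp.out.ne_zero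
  choose κ m hκ hκm using fun i => exists_pow_mul_near_one (hα0 i)
  set N := ∏ i, κ i with hNdef
  have hN0 : N ≠ 0 := Finset.prod_ne_zero_iff.mpr (fun i _ => by have := hκ i; omega)
  have hdvd : ∀ i, ∃ r, N = κ i * r := fun i => Finset.dvd_prod_of_mem κ (Finset.mem_univ i)
  choose ρ hρ using hdvd
  let β : Fin n → PadicAlgCl p := fun i => (α i ^ (κ i) * (p : PadicAlgCl p) ^ (m i)) ^ (ρ i)
  have hβ1 : ∀ i, ‖β i - 1‖ ≤ 1 / 4 := fun i => norm_pow_sub_one_le (hκm i) _
  have hβ0 : ∀ i, β i ≠ 0 := fun i => pow_ne_zero _ (mul_ne_zero (pow_ne_zero _ (hα0 i))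
    (zpow_ne_zero _ hpne))
  have hβL : ∀ i, L (β i) = (N : PadicAlgCl p) * L (α i) := by
    intro i
    have h1 : α i ^ (κ i) ≠ 0 := pow_ne_zero _ (hα0 _)
    have h2 : (p : PadicAlgCl p) ^ (m i) ≠ 0 := zpow_ne_zero _ hpne
    simp only [β]
    rw [L_pow L hmul (mul_ne_zero h1 h2), hmul _ _ h1 h2, L_pow L hmul (hα0 _),
      L_zpow L hmul hpne, hLp, hρ i]
    push_cast
    ring
  have hβalg : ∀ i, IsAlgebraic ℚ (β i) := by
    intro i
    have h1 : IsAlgebraic ℚ ((p : PadicAlgCl p) ^ (m i)) := by
      have h2 : IsAlgebraic ℚ (p : PadicAlgCl p) := isAlgebraic_natCast p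
      cases m i with
      | ofNat n => simpa using h2.pow n
      | negSucc n =>
        rw [zpow_negSucc]
        exact (h2.pow _).inv
    exact (((halg _).pow _).mul h1).pow _
  -- elements of the algebraic closure
  let β' : Fin n → k := fun i => ⟨β i, mem_algebraicClosure_iff.mpr (hβalg i)⟩
  set ν := finrank k (LinearMap.ker (TT90 (k := k) l u')) with hν
  have : Module.Finite k (LinearMap.ker (TT90 (k := k) l u')) := inferInstance
  let B : Basis (Fin ν) k (LinearMap.ker (TT90 (k := k) l u')) := finBasisOfFinrankEq k _ hν.symm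
  let S : Set k := Set.range β' ∪
    Set.range (fun x : Fin ν × Fin d' × Fin n => (B x.1 : Fin d' → Fin n → k) x.2.1 x.2.2)
  let K := IntermediateField.adjoin ℚ S
  have hSfin : S.Finite := (Set.finite_range _).union (Set.finite_range _)
  have hkalg : Algebra.IsAlgebraic ℚ k := algebraicClosure.isAlgebraic ℚ (PadicAlgCl p)
  have hKfin : FiniteDimensional ℚ K := by
    have : Finite S := hSfin
    apply IntermediateField.finiteDimensional_adjoin
    intro x _
    exact (hkalg.isAlgebraic x).isIntegral
  have hKnf : NumberField K := { to_charZero := inferInstance, to_finiteDimensional := hKfin }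
  have hSK : ∀ x ∈ S, x ∈ K := fun x hx => IntermediateField.subset_adjoin _ _ hx
  let φ : K →+* PadicComplex p := (emb p).comp ((algebraMap k (PadicAlgCl p)).comp (algebraMap K k))
  let a : Fin n → K := fun i => ⟨β' i, hSK _ (Or.inl ⟨i, rfl⟩)⟩
  let b : Fin ν → Fin d' → Fin n → K := fun x i j =>
    ⟨(B x : Fin d' → Fin n → k) i j, hSK _ (Or.inr ⟨(x, i, j), rfl⟩)⟩
  let lam : Fin n → PadicComplex p := fun j => emb p (L (β j))
  have hex : ∀ j, ex (L (β j)) = β j ∧ ‖L (β j)‖ ≤ 1 / 4 := by
    intro j
    have h1 := ex_L L hmul hser (hβ1 j)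
    exact ⟨h1.1, by rw [h1.2]; exact hβ1 j⟩
  have hembinj : Function.Injective (emb p) := (emb p).injective
  have hNne : (N : PadicAlgCl p) ≠ 0 := by exact_mod_cast hN0
  -- the relation space
  have hrel : ∀ c : Fin d' → Fin n → K, (∑ i, ∑ j, φ (c i j) * emb p (u' i) * lam j = 0) ↔
      TT90 l u' (fun i j => algebraMap K k (c i j)) = 0 := by
    intro c
    have h1 : ∑ i, ∑ j, φ (c i j) * emb p (u' i) * lam j =
        emb p ((N : PadicAlgCl p) * TT90 l u' (fun i j => algebraMap K k (c i j))) := by
      rw [TT90_apply, Finset.mul_sum, map_sum]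
      apply Finset.sum_congr rfl
      intro i _
      rw [Finset.mul_sum, map_sum]
      apply Finset.sum_congr rfl
      intro j _
      simp only [φ, lam, RingHom.comp_apply, l]
      rw [← map_mul, ← map_mul, hβL, Algebra.smul_def]
      congr 1
      ring
    rw [h1]
    constructor
    · intro h
      have h2 : (N : PadicAlgCl p) * TT90 l u' (fun i j => algebraMap K k (c i j)) = 0 :=
        hembinj (by rw [h, map_zero])
      exact (mul_eq_zero.mp h2).resolve_left hNne
    · intro h
      rw [h, mul_zero, map_zero]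
  let R : Submodule K (Fin d' → Fin n → K) :=
    { carrier := {c | TT90 (k := k) l u' (fun i j => algebraMap K k (c i j)) = 0}
      add_mem' := by
        intro c c' h h'
        have h1 : (fun i j => algebraMap K k ((c + c') i j)) =
            (fun i j => algebraMap K k (c i j)) + (fun i j => algebraMap K k (c' i j)) := by
          funext i j
          simp only [Pi.add_apply, map_add]
        rw [Set.mem_ofPred_eq] at h h' ⊢
        rw [h1, map_add, h, h', add_zero]
      zero_mem' := by
        rw [Set.mem_ofPred_eq]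
        have h1 : (fun i j => algebraMap K k ((0 : Fin d' → Fin n → K) i j)) =
            (0 : Fin d' → Fin n → k) := by
          funext i j
          simp only [Pi.zero_apply, map_zero]
        rw [h1, map_zero]
      smul_mem' := by
        intro r c h
        rw [Set.mem_ofPred_eq] at h ⊢
        have h1 : (fun i j => algebraMap K k ((r • c) i j)) =
            (algebraMap K k r) • (fun i j => algebraMap K k (c i j)) := by
          funext i j
          simp only [Pi.smul_apply, smul_eq_mul, map_mul]
        rw [h1, map_smul, h, smul_zero] }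
  have hR : ∀ c : Fin d' → Fin n → K,
      c ∈ R ↔ TT90 l u' (fun i j => algebraMap K k (c i j)) = 0 := fun c => Iff.rfl
  have hlow : ν ≤ finrank K R := lower90 l u' R hR b B (fun m i j => rfl)
  refine hcore p (PadicComplex p) K φ d' n hd' (fun i => emb p (u' i)) ?_ a ?_ lam ?_ ?_ ?_ R ?_ ?_ ?_
  · intro h
    have h1 := congrFun h ⟨0, hd'⟩
    have h2 : u' ⟨0, hd'⟩ = 0 := hembinj (by rw [map_zero]; exact h1)
    exact hu'.ne_zero _ h2
  · intro i h
    have h1 : β' i = 0 := congrArg Subtype.val h
    exact hβ0 i (congrArg Subtype.val h1)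
  · intro j
    simp only [lam]
    rw [emb_norm]
    exact (hex j).2
  · intro j
    have h3 : φ (a j) = emb p (β j) := rfl
    rw [h3]
    simp only [lam]
    rw [← emb_ex (hex j).2, (hex j).1]
  · intro c hc
    apply hind c
    have h1 : ∑ i, (c i : PadicComplex p) * lam i =
        emb p ((N : PadicAlgCl p) * ∑ i, (c i : PadicAlgCl p) * L (α i)) := by
      rw [Finset.mul_sum, map_sum]
      apply Finset.sum_congr rfl
      intro i _
      simp only [lam]
      rw [← map_intCast (emb p), ← map_mul, hβL]
      congr 1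
      ring
    rw [h1] at hc
    have h2 : (N : PadicAlgCl p) * ∑ i, (c i : PadicAlgCl p) * L (α i) = 0 :=
      hembinj (by rw [hc, map_zero])
    exact (mul_eq_zero.mp h2).resolve_left hNne
  · intro c hc
    exact (hrel c).mpr hc
  · exact lt_of_lt_of_le hN' hlow
  · intro E
    obtain ⟨v, hv, hvR⟩ := upper90 l u' hu' R hR E
    rcases Nat.eq_zero_or_pos (finrank K E) with h0 | hpos
    · -- `E = 0`
      have h1 : colSub R E = ⊥ := by
        have hE : E = ⊥ := Submodule.finrank_eq_zero.mp h0
        rw [eq_bot_iff]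
        intro c hc
        rw [Submodule.mem_bot]
        funext i j
        have h2 := hc.2 j
        rw [hE, Submodule.mem_bot] at h2
        exact congrFun h2 i
      rw [h1, finrank_bot, mul_zero]
      exact Nat.zero_le _
    · have hle : finrank K E ≤ d' := by
        have := Submodule.finrank_le E
        rwa [Module.finrank_fin_fun] at this
      calc d' * finrank K (colSub R E)
          ≤ d' * finrank k (LinearMap.ker (TT90 (k := k) l v)) := Nat.mul_le_mul_left _ hvR
        _ ≤ ν * finrank K E := hext _ v hpos hle hv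
        _ ≤ finrank K R * finrank K E := Nat.mul_le_mul_right _ hlow

end Pool.Agent.Lib.MP_c50dba_nt.EX
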