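import Pool.Agent.Lib.MP_c50dba_nt.EX.Stmts

set_option autoImplicit false

/-!
EXPANSION project, module Z (helper47): the zero estimate on `G_a^w × G_m^l` from `S_indep`,
`S_count`, `S_fiber`, `S_bezout`.
-/

namespace Pool.Agent.Lib.MP_c50dba_nt.EX

open MvPolynomial Module

namespace Zero47

section Tr

variable {k : Type} [Field k] {w l D : ℕ}

theorem xpt_add (β : Fin w → Fin D → k) (s t : Fin D → ℤ)
    (i : Fin w) : xpt β (s + t) i = xpt β s i + xpt β t i := by
  simp only [xpt, Pi.add_apply, Int.cast_add, add_mul, Finset.sum_add_distrib]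

theorem Xpt_add (a : Fin l → Fin D → k) (ha : ∀ j ν, a j ν ≠ 0)
    (s t : Fin D → ℤ) (j : Fin l) : Xpt a (s + t) j = Xpt a s j * Xpt a t j := by
  simp only [Xpt, Pi.add_apply, fun ν => zpow_add₀ (ha j ν) (s ν) (t ν), Finset.prod_mul_distrib]

theorem Xpt_ne (a : Fin l → Fin D → k) (ha : ∀ j ν, a j ν ≠ 0)
    (t : Fin D → ℤ) (j : Fin l) : Xpt a t j ≠ 0 :=
  Finset.prod_ne_zero_iff.mpr (fun ν _ => zpow_ne_zero _ (ha j ν))

theorem xpt_zero (β : Fin w → Fin D → k) (i : Fin w) : xpt β (0 : Fin D → ℤ) i = 0 := by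
  simp [xpt]

theorem Xpt_zero (a : Fin l → Fin D → k) (j : Fin l) : Xpt a (0 : Fin D → ℤ) j = 1 := by
  simp [Xpt]

variable (β : Fin w → Fin D → k) (a : Fin l → Fin D → k)
  {Ω : Type} [Field Ω] [Algebra k Ω]

theorem act_zero (z : Fin w ⊕ Fin l → Ω) : act β a 0 z = z := by
  funext x
  cases x with
  | inl i => simp [act, xpt_zero]
  | inr j => simp [act, Xpt_zero]

theorem act_act (ha : ∀ j ν, a j ν ≠ 0) (s t : Fin D → ℤ) (z : Fin w ⊕ Fin l → Ω) :
    act β a s (act β a t z) = act β a (s + t) z := by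
  funext x
  cases x with
  | inl i =>
    simp only [act, Sum.elim_inl, xpt_add, map_add]
    ring
  | inr j =>
    simp only [act, Sum.elim_inr, Xpt_add a ha, map_mul]
    ring

/-- Translated variable. -/
noncomputable def tv {σ' : Type} (π : σ' → Fin w ⊕ Fin l) (t : Fin D → ℤ) (x : σ') :
    MvPolynomial σ' k :=
  Sum.elim (fun i => X x + C (xpt β t i)) (fun j => X x * C (Xpt a t j)) (π x)

theorem aeval_tv {σ' : Type} (π : σ' → Fin w ⊕ Fin l) (t : Fin D → ℤ)
    (z : Fin w ⊕ Fin l → Ω) (f : MvPolynomial σ' k) :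
    aeval (fun x => z (π x)) (aeval (tv β a π t) f) = aeval (fun x => act β a t z (π x)) f := by
  rw [comp_aeval_apply]
  congr 1
  congr 1
  funext x
  simp only [tv]
  cases h : π x with
  | inl i => simp [act, h]
  | inr j => simp [act, h]

theorem tv_tv (ha : ∀ j ν, a j ν ≠ 0) {σ' : Type} (π : σ' → Fin w ⊕ Fin l) (s t : Fin D → ℤ)
    (f : MvPolynomial σ' k) :
    aeval (tv β a π s) (aeval (tv β a π t) f) = aeval (tv β a π (s + t)) f := by
  rw [comp_aeval_apply]
  congr 1
  congr 1
  funext x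
  simp only [tv]
  cases h : π x with
  | inl i =>
    simp only [Sum.elim_inl, map_add, aeval_X, aeval_C, algebraMap_eq, tv, h, xpt_add, add_assoc]
  | inr j =>
    simp only [Sum.elim_inr, map_mul, aeval_X, aeval_C, algebraMap_eq, tv, h, Xpt_add a ha,
      mul_assoc]

theorem tv_zero {σ' : Type} (π : σ' → Fin w ⊕ Fin l) (f : MvPolynomial σ' k) :
    aeval (tv β a π 0) f = f := by
  have : tv β a π 0 = X := by
    funext x
    simp only [tv]
    cases h : π x with
    | inl i => simp [xpt_zero]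
    | inr j => simp [Xpt_zero]
  rw [this, aeval_X_left_apply]

theorem algInd_act (ha : ∀ j ν, a j ν ≠ 0) {σ' : Type} (π : σ' → Fin w ⊕ Fin l) (t : Fin D → ℤ)
    (z : Fin w ⊕ Fin l → Ω) (hz : AlgebraicIndependent k (fun x => z (π x))) :
    AlgebraicIndependent k (fun x => act β a t z (π x)) := by
  rw [algebraicIndependent_iff] at hz ⊢
  intro p hp
  rw [← aeval_tv] at hp
  have h1 := hz _ hp
  have h2 := tv_tv β a ha π (-t) t p
  rw [h1, map_zero, neg_add_cancel, tv_zero] at h2
  exact h2.symm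

/-- Stabiliser of the ideal of `z`. -/
def stab (ha : ∀ j ν, a j ν ≠ 0) (z : Fin w ⊕ Fin l → Ω) : AddSubgroup (Fin D → ℤ) where
  carrier := {t | ∀ f : MvPolynomial (Fin w ⊕ Fin l) k, aeval (act β a t z) f = 0 ↔ aeval z f = 0}
  add_mem' := by
    intro s t hs ht f
    rw [← act_act β a ha]
    have h1 := aeval_tv β a id s (act β a t z) f
    have h2 := aeval_tv β a id s z f
    simp only [id] at h1 h2
    rw [← h1, ht, h2, hs]
  zero_mem' := by
    intro f
    rw [act_zero]
  neg_mem' := by
    intro t ht f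
    have h1 := aeval_tv β a id (-t) (act β a t z) f
    have h2 := aeval_tv β a id (-t) z f
    simp only [id] at h1 h2
    rw [← h2, ← ht, h1, act_act β a ha, neg_add_cancel, act_zero]

theorem sub_mem_stab (ha : ∀ j ν, a j ν ≠ 0) (z : Fin w ⊕ Fin l → Ω) (t t' : Fin D → ℤ)
    (h : ∀ f : MvPolynomial (Fin w ⊕ Fin l) k,
      aeval (act β a t z) f = 0 ↔ aeval (act β a t' z) f = 0) :
    t - t' ∈ stab β a ha z := by
  intro f
  have h1 := aeval_tv β a id (-t') (act β a t z) f
  have h2 := aeval_tv β a id (-t') (act β a t' z) f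
  simp only [id] at h1 h2
  rw [act_act β a ha, neg_add_eq_sub] at h1
  rw [act_act β a ha, neg_add_cancel, act_zero] at h2
  rw [← h1, ← h2]
  exact h _

theorem adjoin_act_le (t : Fin D → ℤ) (z : Fin w ⊕ Fin l → Ω) (I : Set (Fin w ⊕ Fin l)) :
    IntermediateField.adjoin k (act β a t z '' I) ≤ IntermediateField.adjoin k (z '' I) := by
  rw [IntermediateField.adjoin_le_iff]
  rintro _ ⟨x, hx, rfl⟩
  have hzx : z x ∈ IntermediateField.adjoin k (z '' I) :=
    IntermediateField.subset_adjoin _ _ ⟨x, hx, rfl⟩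
  cases x with
  | inl i => exact add_mem hzx (IntermediateField.algebraMap_mem _ _)
  | inr j => exact mul_mem hzx (IntermediateField.algebraMap_mem _ _)

theorem adjoin_act (ha : ∀ j ν, a j ν ≠ 0) (t : Fin D → ℤ) (z : Fin w ⊕ Fin l → Ω)
    (I : Set (Fin w ⊕ Fin l)) :
    IntermediateField.adjoin k (z '' I) = IntermediateField.adjoin k (act β a t z '' I) := by
  apply le_antisymm
  · have h := adjoin_act_le β a (-t) (act β a t z) I
    rwa [act_act β a ha, neg_add_cancel, act_zero] at h
  · exact adjoin_act_le β a t z I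

end Tr

section Field

variable {k Ω : Type} [Field k] [Field Ω] [Algebra k Ω] {σ : Type} [Fintype σ]

theorem isAlgebraic_field (S : Set Ω) (x : Ω) (hx : IsAlgebraic (Algebra.adjoin k S) x) :
    IsAlgebraic (IntermediateField.adjoin k S) x := by
  let i : Algebra (Algebra.adjoin k S) (IntermediateField.adjoin k S) :=
    (Subalgebra.inclusion (IntermediateField.algebra_adjoin_le_adjoin k S)).toRingHom.toAlgebra
  have : IsScalarTower (Algebra.adjoin k S) (IntermediateField.adjoin k S) Ω :=
    IsScalarTower.of_algebraMap_eq (congrFun rfl)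
  exact hx.extendScalars (Subalgebra.inclusion_injective _)

/-- Maximal independent sets of coordinates. -/
theorem exists_basis (z : σ → Ω) (I : Finset σ) (hI : AlgebraicIndependent k (fun i : I => z i)) :
    ∃ I' : Finset σ, I ⊆ I' ∧ AlgebraicIndependent k (fun i : I' => z i) ∧
      (∀ i, IsAlgebraic (IntermediateField.adjoin k (z '' (I' : Set σ))) (z i)) ∧
      ∀ I₁ : Finset σ, AlgebraicIndependent k (fun i : I₁ => z i) → I₁.card ≤ I'.card := by
  classical
  obtain ⟨I', hI', hmax⟩ := Finset.exists_max_image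
    (Finset.univ.filter (fun J : Finset σ => I ⊆ J ∧ AlgebraicIndependent k (fun i : J => z i)))
    Finset.card ⟨I, by simp [hI]⟩
  simp only [Finset.mem_filter, Finset.mem_univ, true_and, and_imp] at hI' hmax
  have halg0 : ∀ i, IsAlgebraic (Algebra.adjoin k (z '' (I' : Set σ))) (z i) := by
    intro i
    by_cases hi : i ∈ I'
    · exact isAlgebraic_algebraMap (⟨z i, Algebra.subset_adjoin ⟨i, hi, rfl⟩⟩ :
        Algebra.adjoin k (z '' (I' : Set σ)))
    · by_contra hcon
      have h1 : AlgebraicIndepOn k z (insert i (I' : Set σ)) :=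
        (AlgebraicIndepOn.insert_iff (by simpa using hi)).mpr ⟨hI'.2, hcon⟩
      have h2 : AlgebraicIndependent k (fun j : (insert i I' : Finset σ) => z j) := by
        rw [← Finset.coe_insert] at h1
        exact h1
      have h3 := hmax _ (hI'.1.trans (Finset.subset_insert _ _)) h2
      rw [Finset.card_insert_of_notMem hi] at h3
      omega
  refine ⟨I', hI'.1, hI'.2, fun i => isAlgebraic_field _ _ (halg0 i), ?_⟩
  intro I₁ hI₁
  have hinj : ∀ J : Finset σ, AlgebraicIndependent k (fun i : J => z i) →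
      Set.InjOn z (J : Set σ) := fun J hJ => Set.injOn_iff_injective.mpr hJ.injective
  have himg : ∀ J : Finset σ, AlgebraicIndependent k (fun i : J => z i) →
      AlgebraicIndepOn k id (z '' (J : Set σ)) := fun J hJ =>
    (algebraicIndependent_image (hinj J hJ)).mp hJ
  let M := AlgebraicIndependent.matroid k Ω
  have hb : M.IsBasis (z '' (I' : Set σ)) (Set.range z) := by
    rw [AlgebraicIndependent.matroid_isBasis_iff]
    refine ⟨himg I' hI'.2, Set.image_subset_range _ _, ?_⟩
    rintro _ ⟨i, rfl⟩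
    exact halg0 i
  have hi : M.Indep (z '' (I₁ : Set σ)) := himg I₁ hI₁
  obtain ⟨B, hB, hsub⟩ := hi.subset_isBasis_of_subset (Set.image_subset_range z _) (by
    intro x _
    exact Set.mem_univ x)
  have h4 : (z '' (I₁ : Set σ)).encard ≤ (z '' (I' : Set σ)).encard :=
    (Set.encard_le_encard hsub).trans (hB.encard_eq_encard hb).le
  rw [(hinj I₁ hI₁).encard_image, (hinj I' hI'.2).encard_image, Set.encard_coe_eq_coe_finsetCard,
    Set.encard_coe_eq_coe_finsetCard] at h4
  exact_mod_cast h4

omit [Fintype σ] in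
/-- A coordinate outside a basis is algebraic. -/
theorem algebraic_of_max {F : Type} [Field F] [Algebra k F] (z : σ → F) (I : Finset σ)
    (hI : AlgebraicIndependent k (fun i : I => z i)) {Ω' : Type} [Field Ω'] [Algebra F Ω']
    [Algebra k Ω'] [IsScalarTower k F Ω'] (p : σ → Ω') (hp : ∀ i ∈ I, p i = algebraMap F Ω' (z i))
    (hmax : ∀ I₁ : Finset σ, AlgebraicIndependent k (fun i : I₁ => p i) → I₁.card ≤ I.card)
    (i : σ) (hi : i ∉ I) : IsAlgebraic F (p i) := by
  classical
  by_contra hcon
  have h1 : AlgebraicIndependent F (fun _ : Unit => p i) :=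
    algebraicIndependent_unique_type_iff.mpr hcon
  have h2 := hI.sumElim_comp h1
  let e : {x // x ∈ insert i I} → Unit ⊕ {x // x ∈ I} := fun x =>
    if h : x.1 ∈ I then Sum.inr ⟨x.1, h⟩ else Sum.inl ()
  have he : Function.Injective e := by
    rintro ⟨x, hx⟩ ⟨y, hy⟩ hxy
    apply Subtype.ext
    by_cases h : x ∈ I <;> by_cases h' : y ∈ I
    · simp only [e, h, h', dif_pos, Sum.inr.injEq, Subtype.mk.injEq] at hxy
      exact hxy
    · simp only [e, h, h', dif_pos, dif_neg, not_false_iff, reduceCtorEq] at hxy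
    · simp only [e, h, h', dif_pos, dif_neg, not_false_iff, reduceCtorEq] at hxy
    · rw [Finset.mem_insert] at hx hy
      exact (hx.resolve_right h).trans (hy.resolve_right h').symm
  have h3 := h2.comp e he
  have h4 : AlgebraicIndependent k (fun x : (insert i I : Finset σ) => p x) := by
    convert h3 using 1
    funext x
    by_cases h : x.1 ∈ I
    · simp only [Function.comp_apply, e, h, dif_pos, Sum.elim_inr, hp x.1 h]
    · simp only [Function.comp_apply, e, h, dif_neg, not_false_iff, Sum.elim_inl]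
      rw [(Finset.mem_insert.mp x.2).resolve_right h]
  have h5 := hmax _ h4
  rw [Finset.card_insert_of_notMem hi] at h5
  omega

/-- Degrees after a substitution. -/
theorem degreeOf_subst {R S τ : Type} [CommRing R] [CommRing S] [Algebra R S]
    (g : σ → MvPolynomial τ S) (P : MvPolynomial σ R) (x₀ : σ) (j : τ)
    (h₀ : (g x₀).degreeOf j ≤ 1) (h : ∀ x, x ≠ x₀ → (g x).degreeOf j = 0) :
    (aeval g P).degreeOf j ≤ P.degreeOf x₀ := by
  classical
  rw [aeval_def, eval₂_eq']
  refine (degreeOf_sum_le _ _ _).trans (Finset.sup_le (fun μ hμ => ?_))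
  refine (degreeOf_mul_le _ _ _).trans ?_
  have h1 : (algebraMap R (MvPolynomial τ S) (coeff μ P)).degreeOf j = 0 := by
    rw [MvPolynomial.algebraMap_apply, degreeOf_C]
  rw [h1, zero_add]
  refine (degreeOf_prod_le _ _ _).trans ?_
  rw [Finset.sum_eq_single x₀]
  · refine (degreeOf_pow_le _ _ _).trans ?_
    refine (Nat.mul_le_mul_left _ h₀).trans ?_
    rw [mul_one]
    exact monomial_le_degreeOf x₀ hμ
  · intro x _ hx
    have h2 := degreeOf_pow_le j (g x) (μ x)
    rw [h x hx, mul_zero] at h2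
    omega
  · intro hcon
    exact absurd (Finset.mem_univ _) hcon

end Field

section Main

variable {k : Type} [Field k] [CharZero k] {w l D : ℕ}

theorem main_step (hS_indep : S_indep) (hS_count : S_count) (hS_fiber : S_fiber)
    (hS_bezout : S_bezout) (β : Fin w → Fin D → k) (a : Fin l → Fin D → k)
    (ha : ∀ j ν, a j ν ≠ 0) (L₀ S T : ℕ) (hL₀ : 1 ≤ L₀) (hS : 1 ≤ S)
    (P : MvPolynomial (Fin w ⊕ Fin l) k) (hdl : ∀ i, P.degreeOf (Sum.inl i) ≤ L₀)
    (hdr : ∀ j, P.degreeOf (Sum.inr j) ≤ S) (n j : ℕ) (hnm : n < w + l)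
    (hmax : ∀ (Ω' : Type) [Field Ω'] [Algebra k Ω'] (p : Fin w ⊕ Fin l → Ω'),
      (∀ i, p (Sum.inr i) ≠ 0) →
      (∀ t : Fin D → ℤ, (∀ ν, 0 ≤ t ν ∧ t ν ≤ ((j * T : ℕ) : ℤ)) → aeval (act β a t p) P = 0) →
      ∀ I₁ : Finset (Fin w ⊕ Fin l), AlgebraicIndependent k (fun i : I₁ => p i) → I₁.card ≤ n)
    {Ω : Type} [Field Ω] [Algebra k Ω] [IsAlgClosed Ω] (z : Fin w ⊕ Fin l → Ω)
    (hz : ∀ i, z (Sum.inr i) ≠ 0)
    (hvan : ∀ t : Fin D → ℤ, (∀ ν, 0 ≤ t ν ∧ t ν ≤ (((j + 1) * T : ℕ) : ℤ)) →
      aeval (act β a t z) P = 0)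
    (I₀ : Finset (Fin w ⊕ Fin l)) (hI₀ : I₀.card = n)
    (hI₀ind : AlgebraicIndependent k (fun i : I₀ => z i)) :
    ∃ Δ : Submodule ℤ (Fin D → ℤ), 1 ≤ c0 β Δ + c1 a ha Δ ∧
      (T + 1) ^ (D - finrank ℤ Δ) ≤ (w + l + 1) ^ (w + l) * L₀ ^ (c0 β Δ) * S ^ (c1 a ha Δ) := by
  classical
  have hchar : CharZero Ω := charZero_of_injective_algebraMap (algebraMap k Ω).injective
  let Δ : Submodule ℤ (Fin D → ℤ) := (stab β a ha z).toIntSubmodule
  obtain ⟨I, hIind, hI0, hI1⟩ := hS_indep k Ω w l D β a ha Δ z hz (fun t ht f hf => (ht f).mpr hf)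
  obtain ⟨I', hII', hI'ind, halg, hImax⟩ := exists_basis z I hIind
  have hcard : I'.card = n := by
    apply le_antisymm
    · refine hmax Ω z hz (fun t ht => hvan t (fun ν => ⟨(ht ν).1, (ht ν).2.trans ?_⟩)) I' hI'ind
      exact_mod_cast Nat.mul_le_mul_right T (Nat.le_succ j)
    · rw [← hI₀]
      exact hImax I₀ hI₀ind
  obtain ⟨A, hA1, hA2, hA3⟩ := hS_count D T Δ
  -- conjugates
  have hconj : ∀ t : Fin D → ℤ, ∃ z'' : Fin w ⊕ Fin l → Ω, (∀ i ∈ I', z'' i = z i) ∧
      ∀ f : MvPolynomial (Fin w ⊕ Fin l) k, aeval z'' f = 0 ↔ aeval (act β a t z) f = 0 := by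
    intro t
    refine hS_fiber k Ω _ I' z (act β a t z) hI'ind
      (algInd_act β a ha (fun x : I' => x.1) t z hI'ind)
      (adjoin_act β a ha t z _) ?_
    intro i
    have hk : ∀ c : k, IsAlgebraic (IntermediateField.adjoin k (z '' (I' : Set (Fin w ⊕ Fin l))))
        (algebraMap k Ω c) := fun c => isAlgebraic_algebraMap
          (algebraMap k (IntermediateField.adjoin k (z '' (I' : Set (Fin w ⊕ Fin l)))) c)
    cases i with
    | inl i => exact (halg (Sum.inl i)).add (hk _)
    | inr j => exact (halg (Sum.inr j)).mul (hk _)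
  choose zz hzz1 hzz2 using hconj
  refine ⟨Δ, ?_, ?_⟩
  · have h1 : I.card = (Finset.univ.filter (fun i : Fin w => Sum.inl i ∈ I)).card +
        (Finset.univ.filter (fun j : Fin l => Sum.inr j ∈ I)).card := by
      rw [Finset.card_filter, Finset.card_filter, ← Fintype.sum_sum_type
        (fun x : Fin w ⊕ Fin l => if x ∈ I then 1 else 0), ← Finset.card_filter]
      simp
    have h2 := Finset.card_le_card hII'
    omega
  -- the Bezout bound
  let c : ℕ := Fintype.card {x : Fin w ⊕ Fin l // x ∉ I'}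
  let en : Fin c ≃ {x : Fin w ⊕ Fin l // x ∉ I'} := (Fintype.equivFin _).symm
  let v : Fin w ⊕ Fin l → MvPolynomial (Fin c) Ω := fun x =>
    if h : x ∈ I' then C (z x) else X (en.symm ⟨x, h⟩)
  let g : (Fin D → ℤ) → Fin w ⊕ Fin l → MvPolynomial (Fin c) Ω := fun t =>
    Sum.elim (fun i => v (Sum.inl i) + C (algebraMap k Ω (xpt β t i)))
      (fun i => v (Sum.inr i) * C (algebraMap k Ω (Xpt a t i)))
  let box : Finset (Fin D → ℤ) := Fintype.piFinset (fun _ => Finset.Icc 0 ((j * T : ℕ) : ℤ))
  have hbox : ∀ t, t ∈ box ↔ ∀ ν, 0 ≤ t ν ∧ t ν ≤ ((j * T : ℕ) : ℤ) := by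
    intro t
    simp only [box, Fintype.mem_piFinset, Finset.mem_Icc]
  let eb : Fin box.card ≃ box := box.equivFin.symm
  let eσ : Fin w ⊕ Fin l → ℕ := Sum.elim (fun _ => L₀) (fun _ => S)
  have hdeg : ∀ (κ : Fin box.card) (i : Fin c),
      (aeval (g (eb κ)) P).degreeOf i ≤ eσ (en i).1 := by
    intro κ i
    have hv0 : v (en i).1 = X i := by
      simp only [v, (en i).2, dif_neg, not_false_iff, Subtype.coe_eta, Equiv.symm_apply_apply]
    have hv1 : ∀ x, x ≠ (en i).1 → (v x).degreeOf i = 0 := by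
      intro x hx
      by_cases h : x ∈ I'
      · simp only [v, h, dif_pos, degreeOf_C]
      · simp only [v, h, dif_neg, not_false_iff]
        rw [degreeOf_X, if_neg]
        intro h'
        apply hx
        rw [h', Equiv.apply_symm_apply]
    have h1 : (aeval (g (eb κ)) P).degreeOf i ≤ P.degreeOf (en i).1 := by
      apply degreeOf_subst
      · rcases hx : (en i).1 with x | x
        · simp only [g, Sum.elim_inl]
          rw [← hx, hv0]
          refine (degreeOf_add_le _ _ _).trans ?_
          simp [degreeOf_C]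
        · simp only [g, Sum.elim_inr]
          rw [← hx, hv0]
          refine (degreeOf_mul_le _ _ _).trans ?_
          simp [degreeOf_C]
      · intro x hx
        apply Nat.le_zero.mp
        rcases x with x | x
        · simp only [g, Sum.elim_inl]
          refine (degreeOf_add_le _ _ _).trans ?_
          rw [hv1 _ hx, degreeOf_C, max_self]
        · simp only [g, Sum.elim_inr]
          refine (degreeOf_mul_le _ _ _).trans ?_
          rw [hv1 _ hx, degreeOf_C]
    refine h1.trans ?_
    rcases (en i).1 with x | x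
    · exact hdl x
    · exact hdr x
  -- evaluation
  have hev : ∀ (Ω' : Type) [Field Ω'] [Algebra Ω Ω'] [Algebra k Ω'] [IsScalarTower k Ω Ω']
      (y : Fin c → Ω') (p : Fin w ⊕ Fin l → Ω'), (∀ x ∈ I', p x = algebraMap Ω Ω' (z x)) →
      (∀ i, p (en i).1 = y i) → ∀ t : Fin D → ℤ,
      aeval y (aeval (g t) P) = aeval (act β a t p) P := by
    intro Ω' _ _ _ _ y p hp1 hp2 t
    have h1 := comp_aeval_apply (φ := ((aeval y : MvPolynomial (Fin c) Ω →ₐ[Ω] Ω').restrictScalars k))
      (f := g t) P
    simp only [AlgHom.restrictScalars_apply] at h1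
    rw [h1]
    congr 1
    congr 1
    have hv : ∀ x, aeval y (v x) = p x := by
      intro x
      by_cases h : x ∈ I'
      · simp only [v, h, dif_pos, aeval_C, hp1 x h]
      · simp only [v, h, dif_neg, not_false_iff, aeval_X]
        rw [← hp2, Equiv.apply_symm_apply]
    funext x
    rcases x with x | x
    · simp only [g, Sum.elim_inl, map_add, hv, aeval_C, act]
      rw [← IsScalarTower.algebraMap_apply]
    · simp only [g, Sum.elim_inr, map_mul, hv, aeval_C, act]
      rw [← IsScalarTower.algebraMap_apply]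
  let Jt : Finset (Fin c) := Finset.univ.filter (fun i => ∃ x, (en i).1 = Sum.inr x)
  let Z : Finset (Fin c → Ω) := A.image (fun t => fun i => zz t (en i).1)
  have hZcard : Z.card = A.card := by
    apply Finset.card_image_of_injOn
    intro t ht t' ht' heq
    have h1 : zz t = zz t' := by
      funext x
      by_cases h : x ∈ I'
      · rw [hzz1 t x h, hzz1 t' x h]
      · have h2 := congrFun heq (en.symm ⟨x, h⟩)
        simpa using h2
    apply hA2 t ht t' ht'
    apply sub_mem_stab β a ha z
    intro f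
    rw [← hzz2 t, ← hzz2 t', h1]
  have hbez := hS_bezout Ω c box.card Jt (fun κ => aeval (g (eb κ)) P) (fun i => eσ (en i).1)
    hdeg (by
      intro Ω' _ _ y hy1 hy2 i
      let _ : Algebra k Ω' := ((algebraMap Ω Ω').comp (algebraMap k Ω)).toAlgebra
      have _ : IsScalarTower k Ω Ω' := IsScalarTower.of_algebraMap_eq (fun _ => rfl)
      let p : Fin w ⊕ Fin l → Ω' := fun x =>
        if h : x ∈ I' then algebraMap Ω Ω' (z x) else y (en.symm ⟨x, h⟩)
      have hp1 : ∀ x ∈ I', p x = algebraMap Ω Ω' (z x) := fun x hx => by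
        simp only [p, hx, dif_pos]
      have hp2 : ∀ i, p (en i).1 = y i := fun i => by
        simp only [p, (en i).2, dif_neg, not_false_iff, Subtype.coe_eta, Equiv.symm_apply_apply]
      rw [← hp2 i]
      refine algebraic_of_max z I' hI'ind p hp1 ?_ (en i).1 (en i).2
      intro I₁ hI₁
      rw [hcard]
      refine hmax Ω' p ?_ ?_ I₁ hI₁
      · intro x
        by_cases h : Sum.inr x ∈ I'
        · rw [hp1 _ h]
          intro h0
          exact hz x ((map_eq_zero _).mp h0)
        · have h2 := hp2 (en.symm ⟨Sum.inr x, h⟩)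
          rw [Equiv.apply_symm_apply] at h2
          rw [h2]
          apply hy1
          simp only [Jt, Finset.mem_filter, Finset.mem_univ, true_and, Equiv.apply_symm_apply]
          exact ⟨x, rfl⟩
      · intro t ht
        have h3 := hy2 (eb.symm ⟨t, (hbox t).mpr ht⟩)
        rw [Equiv.apply_symm_apply] at h3
        rw [← hev Ω' y p hp1 hp2 t]
        exact h3) Z (by
      intro y hy
      obtain ⟨t, ht, rfl⟩ := Finset.mem_image.mp hy
      refine ⟨?_, ?_⟩
      · intro i hi
        simp only [Jt, Finset.mem_filter, Finset.mem_univ, true_and] at hi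
        obtain ⟨x, hx⟩ := hi
        show zz t (en i).1 ≠ 0
        rw [hx]
        intro h0
        have h1 := (hzz2 t (X (Sum.inr x))).mp (by rw [aeval_X, h0])
        rw [aeval_X] at h1
        simp only [act, Sum.elim_inr, mul_eq_zero, map_eq_zero] at h1
        rcases h1 with h1 | h1
        · exact hz x h1
        · exact Xpt_ne a ha t x h1
      · intro κ
        have h1 := hev Ω (fun i => zz t (en i).1) (zz t)
          (fun x hx => by rw [hzz1 t x hx]; rfl) (fun i => rfl) (eb κ)
        have h2 : eval (fun i => zz t (en i).1) (aeval (g (eb κ)) P) =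
            aeval (fun i => zz t (en i).1) (aeval (g (eb κ)) P) := by
          rw [← MvPolynomial.coe_aeval_eq_eval]
          rfl
        rw [h2, h1]
        have h3 := aeval_tv β a id (eb κ).1 (zz t) P
        have h4 := aeval_tv β a id (eb κ).1 (act β a t z) P
        simp only [id] at h3 h4
        rw [← h3]
        apply (hzz2 t _).mpr
        rw [h4, act_act β a ha]
        apply hvan
        intro ν
        have h5 := (hbox _).mp (eb κ).2 ν
        have h6 := hA1 t ht ν
        refine ⟨add_nonneg h5.1 h6.1, ?_⟩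
        have h7 : (((j + 1) * T : ℕ) : ℤ) = ((j * T : ℕ) : ℤ) + T := by push_cast; ring
        rw [h7]
        exact add_le_add h5.2 h6.2)
  rw [hZcard] at hbez
  refine hA3.trans (hbez.trans ?_)
  have hc : c ≤ w + l := by
    have h1 := Fintype.card_subtype_le (fun x : Fin w ⊕ Fin l => x ∉ I')
    rw [Fintype.card_sum, Fintype.card_fin, Fintype.card_fin] at h1
    exact h1
  have heσ : ∀ x, 1 ≤ eσ x := by
    rintro (x | x)
    · exact hL₀
    · exact hS
  calc ∏ i : Fin c, (c * eσ (en i).1 + 1) ≤ ∏ i : Fin c, ((w + l + 1) * eσ (en i).1) := by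
        refine Finset.prod_le_prod' (fun i _ => ?_)
        have h1 := heσ (en i).1
        nlinarith
    _ = (w + l + 1) ^ c * ∏ i : Fin c, eσ (en i).1 := by
        rw [Finset.prod_mul_distrib, Finset.prod_const, Finset.card_univ, Fintype.card_fin]
    _ = (w + l + 1) ^ c * ∏ x : {x : Fin w ⊕ Fin l // x ∉ I'}, eσ x.1 := by
        rw [Equiv.prod_comp en (fun x => eσ x.1)]
    _ = (w + l + 1) ^ c * ∏ x : Fin w ⊕ Fin l, (if x ∈ I' then 1 else eσ x) := by
        congr 1
        rw [Finset.prod_ite, Finset.prod_const_one, one_mul]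
        rw [← Finset.prod_subtype (Finset.univ.filter (fun x => x ∉ I')) (by simp) eσ]
    _ ≤ (w + l + 1) ^ (w + l) * ∏ x : Fin w ⊕ Fin l, (if x ∈ I then 1 else eσ x) := by
        refine Nat.mul_le_mul (Nat.pow_le_pow_right (by omega) hc) ?_
        refine Finset.prod_le_prod' (fun x _ => ?_)
        by_cases h : x ∈ I
        · rw [if_pos h, if_pos (hII' h)]
        · rw [if_neg h]
          split_ifs
          · exact heσ x
          · exact le_rfl
    _ = (w + l + 1) ^ (w + l) * L₀ ^ (c0 β Δ) * S ^ (c1 a ha Δ) := by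
        rw [Fintype.prod_sum_type, mul_assoc]
        congr 2
        · simp only [eσ, Sum.elim_inl]
          rw [Finset.prod_ite, Finset.prod_const_one, one_mul, Finset.prod_const]
          congr 1
          have h1 := Finset.card_filter_add_card_filter_not (s := (Finset.univ : Finset (Fin w)))
            (fun i => Sum.inl i ∈ I)
          rw [Finset.card_univ, Fintype.card_fin] at h1
          omega
        · simp only [eσ, Sum.elim_inr]
          rw [Finset.prod_ite, Finset.prod_const_one, one_mul, Finset.prod_const]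
          congr 1
          have h1 := Finset.card_filter_add_card_filter_not (s := (Finset.univ : Finset (Fin l)))
            (fun i => Sum.inr i ∈ I)
          rw [Finset.card_univ, Fintype.card_fin] at h1
          omega

end Main

end Zero47

open Zero47 in
theorem zero_47 (hS_indep : S_indep) (hS_count : S_count) (hS_fiber : S_fiber)
    (hS_bezout : S_bezout) : S_zero := by
  intro k _ _ w l D β a ha L₀ S T hL₀ hS P hP hdl hdr hvan
  classical
  let DimGE : ℕ → ℕ → Prop := fun j n => ∃ (Ω : Type) (_ : Field Ω) (_ : Algebra k Ω)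
    (z : Fin w ⊕ Fin l → Ω), (∀ i, z (Sum.inr i) ≠ 0) ∧
    (∀ t : Fin D → ℤ, (∀ ν, 0 ≤ t ν ∧ t ν ≤ ((j * T : ℕ) : ℤ)) → aeval (act β a t z) P = 0) ∧
    ∃ I : Finset (Fin w ⊕ Fin l), I.card = n ∧ AlgebraicIndependent k (fun i : I => z i)
  have hlt : ∀ j n, DimGE j n → n < w + l := by
    rintro j n ⟨Ω, i1, i2, z, h1, h2, I, hI, hind⟩
    have hle : n ≤ w + l := by
      rw [← hI]
      simpa using Finset.card_le_univ I
    refine lt_of_le_of_ne hle (fun hnm => hP ?_)
    have hIu : I = Finset.univ := by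
      apply Finset.eq_univ_of_card
      rw [hI, hnm]
      simp
    subst hIu
    have h3 := h2 0 (fun ν => ⟨le_rfl, Int.natCast_nonneg _⟩)
    rw [act_zero] at h3
    have h4 : AlgebraicIndependent k z :=
      hind.comp (fun x => ⟨x, Finset.mem_univ x⟩) (fun x y h => congrArg Subtype.val h)
    exact algebraicIndependent_iff.mp h4 P h3
  have h00 : DimGE (w + l) 0 := by
    refine ⟨k, inferInstance, Algebra.id k, Sum.elim (fun _ => 0) (fun _ => 1),
      fun i => one_ne_zero, fun t ht => ?_, ∅, Finset.card_empty, ?_⟩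
    · have h1 : act β a t (Sum.elim (fun _ => (0 : k)) (fun _ => 1)) =
          Sum.elim (xpt β t) (Xpt a t) := by
        funext x
        rcases x with x | x
        · simp [act]
        · simp [act]
      rw [h1]
      have h2 := hvan t ht
      rw [← MvPolynomial.coe_aeval_eq_eval] at h2
      exact h2
    · rw [algebraicIndependent_empty_type_iff]
      exact (algebraMap k k).injective
  have hpig : ∃ j, j < w + l ∧ ∃ n, DimGE (j + 1) n ∧ ∀ n', DimGE j n' → n' ≤ n := by
    by_contra hcon
    push Not at hcon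
    have h1 : ∀ i, i ≤ w + l → ∃ n, i ≤ n ∧ DimGE (w + l - i) n := by
      intro i
      induction i with
      | zero =>
        intro _
        exact ⟨0, le_rfl, h00⟩
      | succ i ih =>
        intro hi
        obtain ⟨n, hn, hD⟩ := ih (by omega)
        have hmi : w + l - i = (w + l - (i + 1)) + 1 := by omega
        rw [hmi] at hD
        obtain ⟨n', hD', hlt'⟩ := hcon (w + l - (i + 1)) (by omega) n hD
        exact ⟨n', by omega, hD'⟩
    obtain ⟨n, hn, hD⟩ := h1 (w + l) le_rfl
    have := hlt _ _ hD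
    omega
  obtain ⟨j, hj, n, ⟨Ω₀, i1, i2, z₀, hz₀, hv₀, I₀, hI₀, hind₀⟩, hmax⟩ := hpig
  have hnm : n < w + l := hlt (j + 1) n ⟨Ω₀, i1, i2, z₀, hz₀, hv₀, I₀, hI₀, hind₀⟩
  let Ω := AlgebraicClosure Ω₀
  let z : Fin w ⊕ Fin l → Ω := fun x => algebraMap Ω₀ Ω (z₀ x)
  refine main_step hS_indep hS_count hS_fiber hS_bezout β a ha L₀ S T hL₀ hS P hdl hdr n j hnm
    ?_ (Ω := Ω) z ?_ ?_ I₀ hI₀ ?_
  · intro Ω' _ _ p hp1 hp2 I₁ hI₁
    exact hmax _ ⟨Ω', inferInstance, inferInstance, p, hp1, hp2, I₁, rfl, hI₁⟩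
  · intro i h0
    exact hz₀ i ((map_eq_zero _).mp h0)
  · intro t ht
    have h1 : act β a t z = fun x => algebraMap Ω₀ Ω (act β a t z₀ x) := by
      funext x
      rcases x with x | x
      · simp only [act, Sum.elim_inl, z, map_add]
        rw [← IsScalarTower.algebraMap_apply]
      · simp only [act, Sum.elim_inr, z, map_mul]
        rw [← IsScalarTower.algebraMap_apply]
    rw [h1]
    have h2 := comp_aeval_apply (φ := IsScalarTower.toAlgHom k Ω₀ Ω) (f := act β a t z₀) P
    rw [hv₀ t ht, map_zero] at h2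
    exact h2.symm
  · exact hind₀.map' (f := IsScalarTower.toAlgHom k Ω₀ Ω) (algebraMap Ω₀ Ω).injective

end Pool.Agent.Lib.MP_c50dba_nt.EX
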