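import Pool.Agent.Lib.MP_c50dba_nt.EX.BezGlue83
import Pool.Agent.Lib.MP_c50dba_nt.EX.GrowthGlue83
import Pool.Agent.Lib.MP_c50dba_nt.EX.CoreGlue83
import Pool.Agent.Lib.MP_c50dba_nt.EX.Generic69
import Pool.Agent.Lib.MP_c50dba_nt.EX.Perturb52
import Pool.Agent.Lib.MP_c50dba_nt.EX.Jac69
import Pool.Agent.Lib.MP_c50dba_nt.EX.BezFour18
import Pool.Agent.Lib.MP_c50dba_nt.EX.Indep47
import Pool.Agent.Lib.MP_c50dba_nt.EX.Count74
import Pool.Agent.Lib.MP_c50dba_nt.EX.Fiber47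
import Pool.Agent.Lib.MP_c50dba_nt.EX.Zero47
import Pool.Agent.Lib.MP_c50dba_nt.EX.Det32
import Pool.Agent.Lib.MP_c50dba_nt.EX.Param53
import Pool.Agent.Lib.MP_c50dba_nt.EX.Obst53
import Pool.Agent.Lib.MP_c50dba_nt.EX.Rank90
import Pool.Agent.Lib.MP_c50dba_nt.EX.Hyper90

set_option autoImplicit false

/-!
EXPANSION project: assembly of phase 1.
-/

namespace Pool.Agent.Lib.MP_c50dba_nt.EX

theorem bezout_all_83 : S_bezout := bezout_83 generic_69 perturb_52 jac_69 Bez18.bez4_18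

theorem zero_all_83 : S_zero := zero_47 indep_47 count_74 fiber_47 bezout_all_83

theorem core_all_83 : S_core := core_83 zero_all_83 det_32 obst_53 param_53

theorem rank_all_83 : S_rank := rank_90 core_all_83

theorem growth_all_83 : S_growth := growth_83 rank_all_83 hyper90

end Pool.Agent.Lib.MP_c50dba_nt.EX

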