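import Pool.Agent.Lib.MP_c50dba_nt.EX.Stmts

set_option autoImplicit false

namespace Pool.Agent.Lib.MP_c50dba_nt.EX

open MvPolynomial

lemma degreeOf_map_le_83 {R S σ : Type*} [CommSemiring R] [CommSemiring S] (f : R →+* S)
    (p : MvPolynomial σ R) (i : σ) : (map f p).degreeOf i ≤ p.degreeOf i := by
  classical
  rw [degreeOf_def, degreeOf_def]
  exact Multiset.count_le_of_le _ degrees_map_le

/-- M5: the Bezout bound from B1-B4. -/
theorem bezout_83 (h1 : S_generic) (h2 : S_perturb) (h3 : S_jac) (h4 : S_bez4) : S_bezout := by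
  classical
  intro F _ _ c M J P e hdeg hfin Z hZ
  rcases Nat.eq_zero_or_pos c with rfl | hc
  · have : Z.card ≤ 1 := by
      apply Finset.card_le_one.mpr
      intro a _ b _
      exact Subsingleton.elim a b
    simpa using this
  obtain ⟨F₁, _, _, _, ξ, hξ⟩ := h1 F c M J P hfin
  have hF₁ : CharZero F₁ := charZero_of_injective_algebraMap (algebraMap F F₁).injective
  let Q : Fin c → MvPolynomial (Fin c) F₁ := fun i => ∑ κ, C (ξ i κ) * map (algebraMap F F₁) (P κ)
  have hQdeg : ∀ i j, (Q i).degreeOf j ≤ e j := by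
    intro i j
    refine (degreeOf_sum_le j _ _).trans ?_
    apply Finset.sup_le
    intro κ _
    refine (degreeOf_C_mul_le _ _ _).trans ?_
    refine le_trans ?_ (hdeg κ j)
    exact degreeOf_map_le_83 _ _ _
  let ι : (Fin c → F) ↪ (Fin c → F₁) :=
    ⟨fun y i => algebraMap F F₁ (y i), by
      intro y y' h
      funext i
      exact (algebraMap F F₁).injective (congrFun h i)⟩
  obtain ⟨Ω, _, _, s, Z', hs, hcard, hZ'⟩ := h2 F₁ c hc J Q hξ (Z.map ι) (by
    intro y hy
    rw [Finset.mem_map] at hy
    obtain ⟨x, hx, rfl⟩ := hy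
    obtain ⟨hx1, hx2⟩ := hZ x hx
    refine ⟨fun j hj h => hx1 j hj ((algebraMap F F₁).injective (by rw [map_zero]; exact h)), ?_⟩
    intro i
    simp only [Q, map_sum, map_mul, eval_C]
    apply Finset.sum_eq_zero
    intro κ _
    have h5 : eval (ι x) (map (algebraMap F F₁) (P κ)) = algebraMap F F₁ (eval x (P κ)) := by
      have h6 := eval₂_comp_left (algebraMap F F₁) (RingHom.id F) x (P κ)
      rw [RingHom.comp_id] at h6
      rw [eval_map]
      exact h6.symm
    rw [h5, hx2 κ, map_zero, mul_zero])
  rw [Finset.card_map] at hcard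
  refine hcard.trans ?_
  have hCZ : CharZero Ω := charZero_of_injective_algebraMap (algebraMap F₁ Ω).injective
  refine h4 Ω c (fun i => map (algebraMap F₁ Ω) (Q i) - C (s i)) e ?_ Z' ?_
  · intro i j
    refine (degreeOf_sub_le j _ _).trans (max_le ?_ ?_)
    · exact (degreeOf_map_le_83 _ _ _).trans (hQdeg i j)
    · rw [degreeOf_C]
      exact Nat.zero_le _
  · intro y hy
    have hval : ∀ i, eval y (map (algebraMap F₁ Ω) (Q i)) = aeval y (Q i) := by
      intro i
      rw [eval_map]
      rfl
    refine ⟨fun i => ?_, ?_⟩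
    · rw [map_sub, eval_C, hval, hZ' y hy i, sub_self]
    · have h6 := h3 F₁ Ω c Q y (by
        have : (fun i => aeval y (Q i)) = s := funext (hZ' y hy)
        rw [this]
        exact hs)
      have h7 : (Matrix.of fun i j => eval y (pderiv j (map (algebraMap F₁ Ω) (Q i) - C (s i)))) =
          Matrix.of fun i j => aeval y (pderiv j (Q i)) := by
        ext i j
        simp only [Matrix.of_apply]
        rw [map_sub, pderiv_C, sub_zero, pderiv_map, eval_map]
        rfl
      rw [h7]
      exact h6

end Pool.Agent.Lib.MP_c50dba_nt.EX
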