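import Pool.Agent.Lib.MP_c50dba_nt.EX.Stmts
import Pool.Agent.Lib.MP_c50dba_nt.SixExp

set_option autoImplicit false

/-!
Integral bases for the core argument.
-/

namespace Pool.Agent.Lib.MP_c50dba_nt.EX

open Module NumberField

lemma exists_omega_83 (K : Type) [Field K] [NumberField K] : ∃ (δ' : ℕ) (ω : Fin (δ' + 1) → 𝓞 K),
    ω 0 = 1 ∧ LinearIndependent ℚ (fun i => (ω i : K)) ∧ finrank ℚ K = δ' + 1 := by
  classical
  let pb := Field.powerBasisOfFiniteOfSeparable ℚ K
  obtain ⟨m, θ, A, hm0, hθ, -, -⟩ := exists_denominator K (fun _ : Fin 1 => pb.gen)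
  have hdim : finrank ℚ K = pb.dim := pb.finrank
  obtain ⟨δ', hδ'⟩ : ∃ δ', pb.dim = δ' + 1 := ⟨pb.dim - 1, by
    have := finrank_pos (R := ℚ) (M := K)
    omega⟩
  refine ⟨δ', fun i => (θ 0) ^ (i : ℕ), by simp, ?_, hdim.trans hδ'⟩
  have h1 : LinearIndependent ℚ (fun i : Fin (δ' + 1) => pb.gen ^ (i : ℕ)) := by
    have h2 := pb.basis.linearIndependent
    rw [pb.coe_basis] at h2
    exact h2.comp (Fin.cast hδ'.symm) (Fin.cast_injective _)
  have hm' : (m : ℚ) ≠ 0 := by exact_mod_cast hm0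
  have h3 := h1.units_smul (fun i : Fin (δ' + 1) => (Units.mk0 (m : ℚ) hm') ^ (i : ℕ))
  convert h3 using 1
  funext i
  have h4 : ((θ 0 ^ (i : ℕ) : 𝓞 K) : K) = ((m : K) * pb.gen) ^ (i : ℕ) := by
    rw [← hθ 0]
    exact map_pow (algebraMap (𝓞 K) K) _ _
  rw [h4, mul_pow]
  simp only [Pi.smul_apply', Units.smul_def, Units.val_pow_eq_pow_val, Units.val_mk0]
  rw [Algebra.smul_def, map_pow, map_natCast]

/-- Integral coordinates of a basis of a space of relations. -/
lemma exists_cc_83 (K : Type) [Field K] [NumberField K] (d n δ' : ℕ) (ω : Fin (δ' + 1) → K)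
    (hω : LinearIndependent ℚ ω) (hδ : finrank ℚ K = δ' + 1)
    (R : Submodule K (Fin d → Fin n → K)) :
    ∃ cc : Fin ((δ' + 1) * finrank K R) → Fin d → Fin n → Fin (δ' + 1) → ℤ,
      (∀ j, (fun i m => ∑ ν, (cc j i m ν : K) * ω ν) ∈ R) ∧ LinearIndependent ℤ cc := by
  classical
  have hl : finrank ℚ R = (δ' + 1) * finrank K R := by
    rw [← hδ]
    exact (finrank_mul_finrank ℚ K R).symm
  have hRfin : Module.Finite ℚ R := Module.Finite.trans K R
  let b := finBasisOfFinrankEq ℚ R hl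
  let bω : Basis (Fin (δ' + 1)) ℚ K := basisOfLinearIndependentOfCardEqFinrank hω (by simp [hδ])
  have hbω : ∀ ν, bω ν = ω ν := fun ν => by simp [bω]
  -- coordinates
  let x : Fin ((δ' + 1) * finrank K R) → Fin d → Fin n → Fin (δ' + 1) → ℚ :=
    fun j i m ν => bω.repr ((b j : Fin d → Fin n → K) i m) ν
  have hx : ∀ j i m, ∑ ν, (x j i m ν : K) * ω ν = (b j : Fin d → Fin n → K) i m := by
    intro j i m
    have h1 := bω.sum_repr ((b j : Fin d → Fin n → K) i m)
    rw [← h1]
    apply Finset.sum_congr rfl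
    intro ν _
    rw [hbω, Algebra.smul_def]
    rfl
  -- common denominator
  let N : ℕ := ∏ j, ∏ i, ∏ m, ∏ ν, (x j i m ν).den
  have hN : N ≠ 0 := by
    refine Finset.prod_ne_zero_iff.mpr (fun j _ => Finset.prod_ne_zero_iff.mpr (fun i _ =>
      Finset.prod_ne_zero_iff.mpr (fun m _ => Finset.prod_ne_zero_iff.mpr (fun ν _ => ?_))))
    exact (x j i m ν).den_ne_zero
  have hdvd : ∀ j i m ν, (x j i m ν).den ∣ N := by
    intro j i m ν
    refine (Finset.dvd_prod_of_mem (fun ν => (x j i m ν).den) (Finset.mem_univ ν)).trans ?_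
    refine (Finset.dvd_prod_of_mem (fun m => ∏ ν, (x j i m ν).den) (Finset.mem_univ m)).trans ?_
    refine (Finset.dvd_prod_of_mem (fun i => ∏ m, ∏ ν, (x j i m ν).den) (Finset.mem_univ i)).trans ?_
    exact Finset.dvd_prod_of_mem (fun j => ∏ i, ∏ m, ∏ ν, (x j i m ν).den) (Finset.mem_univ j)
  have hint : ∀ j i m ν, ∃ z : ℤ, (z : ℚ) = (N : ℚ) * x j i m ν := by
    intro j i m ν
    obtain ⟨c, hc⟩ := hdvd j i m ν
    refine ⟨(c : ℤ) * (x j i m ν).num, ?_⟩
    rw [hc]
    push_cast
    have h1 := Rat.mul_den_eq_num (x j i m ν)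
    rw [mul_comm ((x j i m ν).den : ℚ) (c : ℚ), mul_assoc, mul_comm ((x j i m ν).den : ℚ), h1]
  choose cc hcc using hint
  have hval : ∀ j i m, ∑ ν, (cc j i m ν : K) * ω ν = (N : K) * (b j : Fin d → Fin n → K) i m := by
    intro j i m
    rw [← hx, Finset.mul_sum]
    apply Finset.sum_congr rfl
    intro ν _
    have h1 : ((cc j i m ν : ℤ) : K) = ((N : ℚ) * x j i m ν : ℚ) := by
      rw [← hcc j i m ν]
      push_cast
      rfl
    rw [h1]
    push_cast
    ring
  refine ⟨cc, ?_, ?_⟩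
  · intro j
    have h1 : (fun i m => ∑ ν, (cc j i m ν : K) * ω ν) = (N : K) • (b j : Fin d → Fin n → K) := by
      funext i m
      rw [hval]
      rfl
    rw [h1]
    exact R.smul_mem _ (b j).2
  · rw [Fintype.linearIndependent_iff]
    intro s hs j₀
    have h1 : ∑ j, ((s j : ℚ) * N) • b j = 0 := by
      apply Subtype.ext
      rw [Submodule.coe_sum, Submodule.coe_zero]
      funext i m
      rw [Finset.sum_apply, Finset.sum_apply]
      simp only [Pi.zero_apply]
      have h2 : ∀ j, (((((s j : ℚ) * N) • b j : R) : Fin d → Fin n → K)) i m =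
          ∑ ν, ((s j * cc j i m ν : ℤ) : K) * ω ν := by
        intro j
        have h3 : (((((s j : ℚ) * N) • b j : R) : Fin d → Fin n → K)) i m =
            ((s j : ℚ) * N) • ((b j : Fin d → Fin n → K) i m) := rfl
        rw [h3, Algebra.smul_def, map_mul, map_intCast, map_natCast, mul_assoc, ← hval,
          Finset.mul_sum]
        apply Finset.sum_congr rfl
        intro ν _
        push_cast
        ring
      simp only [h2]
      rw [Finset.sum_comm]
      apply Finset.sum_eq_zero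
      intro ν _
      rw [← Finset.sum_mul]
      have h4 := congrFun (congrFun (congrFun hs i) m) ν
      simp only [Finset.sum_apply, Pi.smul_apply, smul_eq_mul, Pi.zero_apply] at h4
      rw [← Int.cast_sum, h4, Int.cast_zero, zero_mul]
    have h5 := (Fintype.linearIndependent_iff.mp b.linearIndependent) _ h1 j₀
    rcases mul_eq_zero.mp h5 with h6 | h6
    · exact_mod_cast h6
    · exact absurd (by exact_mod_cast h6) hN

end Pool.Agent.Lib.MP_c50dba_nt.EX
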