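import Pool.Agent.Lib.MP_c50dba_nt.EX.Stmts2
import Pool.Agent.Lib.MP_c50dba_nt.RD.ProjU
import Pool.Agent.Lib.MP_c50dba_nt.RD.Rank

set_option autoImplicit false

/-!
EXPANSION project, phase 2, module N3: the improved bound for the exceptional subgroups.
-/

namespace Pool.Agent.Lib.MP_c50dba_nt.EX

open scoped BigOperators
open Pool.Agent.Lib.MP_c50dba_nt Pool.Agent.Lib.MP_c50dba_nt.Gen
open Pool.Agent.Lib.MP_c50dba_nt.LR Pool.Agent.Lib.MP_c50dba_nt.RD MvPolynomial

namespace ExcN84

/-- The exceptional cosets, with the spaces of the family. -/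
theorem cosetsN (hF : StFamUN) (s d M : ℕ) : ∃ C : ℕ,
    ∀ {F Ω : Type} [Field F] [IsAlgClosed F] [CharZero F]
    [Field Ω] [IsAlgClosed Ω] [Algebra F Ω] {t : Fin s → Ω}
    (_ : Function.Injective (aeval t : MvPolynomial (Fin s) F →ₐ[F] Ω)) (_ : 1 ≤ d)
    (l : Fin M → Ω) (y : Ω),
    ∃ E : Finset ((Fin M → ℤ) × AddSubgroup (Fin M → ℤ)), E.card ≤ C ∧
      (∀ e ∈ E, ∃ V : Submodule F Ω, FiniteDimensional F V ∧ (1 : Ω) ∈ V ∧ (∀ j, t j ∈ V) ∧
        e.2 = grp l V ∧ ∀ m, 1 ≤ m →
          Module.finrank F (V ^ m : Submodule F Ω) ≤ (s + m * d).choose s) ∧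
      (y = 0 → ∀ e ∈ E, e.1 = 0) ∧
      ∀ k : Fin M → ℤ, ¬ Ind F d (Fin.cons (y + ∑ i, (k i : F) • l i) t : Fin (s + 1) → Ω) →
        ∃ e ∈ E, k - e.1 ∈ e.2 := by
  obtain ⟨C, hC⟩ := hF s d (s + M + 2)
  refine ⟨C, ?_⟩
  intro F Ω _ _ _ _ _ _ t ht hd l y
  classical
  let U : Submodule F Ω := Submodule.span F (insert 1 (insert y (Set.range t ∪ Set.range l)))
  have hfin : FiniteDimensional F U :=
    FiniteDimensional.span_of_finite F
      ((((Set.finite_range t).union (Set.finite_range l)).insert y).insert 1)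
  have hUn : Module.finrank F U ≤ s + M + 2 := by
    have hfs : (insert 1 (insert y (Set.range t ∪ Set.range l))).Finite :=
      (((Set.finite_range t).union (Set.finite_range l)).insert y).insert 1
    have := Fintype.ofFinite (insert 1 (insert y (Set.range t ∪ Set.range l)) : Set Ω)
    refine (finrank_span_le_card (insert 1 (insert y (Set.range t ∪ Set.range l)))).trans ?_
    rw [← Set.ncard_eq_toFinset_card']
    have e1 := Set.ncard_insert_le (1 : Ω) (insert y (Set.range t ∪ Set.range l))
    have e2 := Set.ncard_insert_le y (Set.range t ∪ Set.range l)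
    have e3 := Set.ncard_union_le (Set.range t) (Set.range l)
    have e4 : (Set.range t).ncard ≤ s := by
      rw [← Set.image_univ]
      refine (Set.ncard_image_le (Set.toFinite _)).trans ?_
      rw [Set.ncard_univ, Nat.card_eq_fintype_card, Fintype.card_fin]
    have e5 : (Set.range l).ncard ≤ M := by
      rw [← Set.image_univ]
      refine (Set.ncard_image_le (Set.toFinite _)).trans ?_
      rw [Set.ncard_univ, Nat.card_eq_fintype_card, Fintype.card_fin]
    omega
  have h1U : (1 : Ω) ∈ U := Submodule.subset_span (Set.mem_insert _ _)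
  have hyU : y ∈ U := Submodule.subset_span (Set.mem_insert_of_mem _ (Set.mem_insert _ _))
  have htU : ∀ j, t j ∈ U := fun j => Submodule.subset_span
    (Set.mem_insert_of_mem _ (Set.mem_insert_of_mem _ (Or.inl ⟨j, rfl⟩)))
  have hlU : ∀ j, l j ∈ U := fun j => Submodule.subset_span
    (Set.mem_insert_of_mem _ (Set.mem_insert_of_mem _ (Or.inr ⟨j, rfl⟩)))
  obtain ⟨𝒱, hcard𝒱, h1, h2⟩ := hC F Ω t ht hd U hUn h1U htU
  have hmem : ∀ k : Fin M → ℤ, y + ∑ i, (k i : F) • l i ∈ U := fun k =>
    U.add_mem hyU (U.sum_mem fun i _ => U.smul_mem _ (hlU i))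
  let base : Submodule F Ω → (Fin M → ℤ) := fun V =>
    if y = 0 then 0 else
      if h : ∃ k : Fin M → ℤ, y + ∑ i, (k i : F) • l i ∈ V then h.choose else 0
  refine ⟨𝒱.image (fun V => (base V, grp l V)), Finset.card_image_le.trans hcard𝒱, ?_, ?_, ?_⟩
  · intro e he
    obtain ⟨V, hV, rfl⟩ := Finset.mem_image.mp he
    obtain ⟨hle, hone, htV, hrk⟩ := h1 V hV
    exact ⟨V, Submodule.finiteDimensional_of_le hle, hone, htV, rfl, hrk⟩
  · intro hy e he
    obtain ⟨V, -, rfl⟩ := Finset.mem_image.mp he
    exact if_pos hy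
  · intro k hk
    obtain ⟨V, hV, hkV⟩ := h2 _ (hmem k) hk
    have hex : ∃ k : Fin M → ℤ, y + ∑ i, (k i : F) • l i ∈ V := ⟨k, hkV⟩
    refine ⟨(base V, grp l V), Finset.mem_image.mpr ⟨V, hV, rfl⟩, ?_⟩
    have hb : y + ∑ i, (base V i : F) • l i ∈ V := by
      by_cases hy : y = 0
      · have : base V = 0 := if_pos hy
        rw [this, hy]
        simp
      · have : base V = hex.choose := by
          show (if y = 0 then 0 else _) = _
          rw [if_neg hy]
          exact dif_pos hex
        rw [this]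
        exact hex.choose_spec
    rw [mem_grp]
    have h3 : ∑ i, ((k - base V) i : F) • l i =
        (y + ∑ i, (k i : F) • l i) - (y + ∑ i, (base V i : F) • l i) := by
      rw [add_sub_add_left_eq_sub, ← Finset.sum_sub_distrib]
      refine Finset.sum_congr rfl fun i _ => ?_
      rw [Pi.sub_apply, Int.cast_sub, sub_smul]
    rw [h3]
    exact V.sub_mem hkV hb

/-- Products of powers of independent logarithms along independent integer vectors. -/
theorem li_grp {F Ω : Type} [Field F] [CharZero F] [Field Ω] [Algebra F Ω] {r M g : ℕ}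
    {b : Fin r → Ω} {l : Fin M → Ω} (hbl : LinearIndependent F (Sum.elim b l : Fin r ⊕ Fin M → Ω))
    (c : Fin g → Fin M → ℤ) (hc : LinearIndependent ℤ c) :
    LinearIndependent F
      (Sum.elim b (fun j => ∑ i, (c j i : F) • l i) : Fin r ⊕ Fin g → Ω) := by
  obtain ⟨hbi, hli, hdis⟩ := linearIndependent_sum.mp hbl
  rw [Sum.elim_comp_inl] at hbi hdis
  rw [Sum.elim_comp_inr] at hli hdis
  have h1 := li_int (F := F) _ hc
  have h2 : LinearIndependent F (fun j => ∑ i, (c j i : F) • l i) := by
    have h3 := h1.map' (Fintype.linearCombination F l) (by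
      rw [LinearMap.ker_eq_bot]
      exact linearIndependent_iff_injective_fintypeLinearCombination.mp hli)
    have h4 : (fun j => ∑ i, (c j i : F) • l i) =
        (Fintype.linearCombination F l) ∘ (fun j i => (c j i : F)) := by
      funext j
      rfl
    rw [h4]
    exact h3
  have h3 : Submodule.span F (Set.range fun j => ∑ i, (c j i : F) • l i) ≤
      Submodule.span F (Set.range l) := by
    rw [Submodule.span_le]
    rintro _ ⟨j, rfl⟩
    exact Submodule.sum_mem _ fun i _ =>
      Submodule.smul_mem _ _ (Submodule.subset_span (Set.mem_range_self i))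
  exact hbi.sum_type h2 (hdis.mono_right h3)

/-- Floor of a quarter of a square. -/
theorem sq_quarter (n : ℕ) : n ^ 2 / 4 + n / 2 * (n / 2) = n / 2 * n := by
  obtain ⟨k, rfl | rfl⟩ := Nat.even_or_odd' n
  · have h1 : 2 * k / 2 = k := by omega
    have h2 : (2 * k) ^ 2 / 4 = k * k := by
      have : (2 * k) ^ 2 = 4 * (k * k) := by ring
      rw [this]
      omega
    rw [h1, h2]
    ring
  · have h1 : (2 * k + 1) / 2 = k := by omega
    have h2 : (2 * k + 1) ^ 2 / 4 = k * k + k := by
      have : (2 * k + 1) ^ 2 = 4 * (k * k + k) + 1 := by ring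
      rw [this]
      omega
    rw [h1, h2]
    ring

/-- Growth of the dimension, for a space which contains logarithms divided by `w`. -/
theorem growth (hG : S_growth) {p : ℕ} [Fact p.Prime] {L : PadicAlgCl p → PadicAlgCl p}
    (hL : IsIwasawaLog p L) {ι : Type} [Fintype ι] (α : ι → PadicAlgCl p) (h0 : ∀ i, α i ≠ 0)
    (ha : ∀ i, IsAlgebraic ℚ (α i))
    (hli : ∀ c : ι → ℤ, ∑ i, (c i : PadicAlgCl p) * L (α i) = 0 → c = 0)
    (U V : Submodule (algebraicClosure ℚ (PadicAlgCl p)) (PadicAlgCl p))
    [FiniteDimensional (algebraicClosure ℚ (PadicAlgCl p)) U]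
    [FiniteDimensional (algebraicClosure ℚ (PadicAlgCl p)) V]
    {w : PadicAlgCl p} (hw : w ≠ 0) (h1 : (1 : PadicAlgCl p) ∈ V) (hV : ∀ i, L (α i) / w ∈ V)
    (hn : Fintype.card ι / 2 ≤ Module.finrank (algebraicClosure ℚ (PadicAlgCl p)) U) :
    Module.finrank (algebraicClosure ℚ (PadicAlgCl p)) U + Fintype.card ι ^ 2 / 4 ≤
      Module.finrank (algebraicClosure ℚ (PadicAlgCl p))
        (U * V : Submodule (algebraicClosure ℚ (PadicAlgCl p)) (PadicAlgCl p)) := by
  have hfg : (U * V).FG :=
    Submodule.FG.mul (Module.Finite.iff_fg.mp inferInstance) (Module.Finite.iff_fg.mp inferInstance)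
  have hfin : FiniteDimensional (algebraicClosure ℚ (PadicAlgCl p))
      (U * V : Submodule (algebraicClosure ℚ (PadicAlgCl p)) (PadicAlgCl p)) :=
    Module.Finite.iff_fg.mpr hfg
  by_cases hc : Fintype.card ι = 0
  · rw [hc]
    refine (Nat.add_zero _).le.trans (Submodule.finrank_mono ?_)
    intro u hu
    have h2 := Submodule.mul_mem_mul hu h1
    rwa [mul_one] at h2
  · let e := (Fintype.equivFin ι).symm
    have h2 := hG p L hL.1 hL.2.1 hL.2.2 (Fintype.card ι) (Nat.one_le_iff_ne_zero.mpr hc)
      (fun i => α (e i)) (fun i => h0 _) (fun i => ha _) (fun c hc' => by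
        have h3 := hli (fun i => c (e.symm i)) (by
          rw [← hc', ← e.sum_comp]
          refine Finset.sum_congr rfl fun i _ => ?_
          rw [e.symm_apply_apply])
        funext i
        have h4 := congrFun h3 (e i)
        rwa [e.symm_apply_apply] at h4) U (Fintype.card ι / 2) hn
    have h3 : U * Submodule.span (algebraicClosure ℚ (PadicAlgCl p))
        (Set.range (fun i => L (α (e i)))) ≤
        (U * V).map (LinearMap.mulRight (algebraicClosure ℚ (PadicAlgCl p)) w) := by
      rw [Submodule.mul_le]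
      intro u hu x hx
      have h4 : Submodule.span (algebraicClosure ℚ (PadicAlgCl p))
          (Set.range (fun i => L (α (e i)))) ≤
          V.map (LinearMap.mulRight (algebraicClosure ℚ (PadicAlgCl p)) w) := by
        rw [Submodule.span_le]
        rintro _ ⟨i, rfl⟩
        exact ⟨_, hV (e i), div_mul_cancel₀ _ hw⟩
      obtain ⟨v, hv, rfl⟩ := h4 hx
      exact ⟨u * v, Submodule.mul_mem_mul hu hv, mul_assoc _ _ _⟩
    have h5 := (Submodule.finrank_mono h3).trans (Submodule.finrank_map_le _ _)
    have h6 := sq_quarter (Fintype.card ι)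
    omega

end ExcN84

open ExcN84 Projaux Finalaux

/-- N3. The improved bound for the exceptional subgroups. -/
theorem excN_84 (hF : StFamUN) (hR : StRank) (hB : StBakerI) (hG : S_growth) : StExcN := by
  intro r q d M hd
  obtain ⟨C, hC⟩ := cosetsN hF (r + q) d M
  refine ⟨C, ?_⟩
  intro p _ L hL1 hL2 hL3 a ha b hb t w ε hw ht y
  have hL : IsIwasawaLog p L := ⟨hL1, hL2, hL3⟩
  have : IsAlgClosed (algebraicClosure ℚ (PadicAlgCl p)) :=
    (algebraicClosure.isAlgClosure ℚ (PadicAlgCl p)).isAlgClosed
  have : Algebra.IsAlgebraic ℚ (algebraicClosure ℚ (PadicAlgCl p)) :=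
    algebraicClosure.isAlgebraic ℚ (PadicAlgCl p)
  obtain ⟨hε, b₀, hb0, hb1, hb2⟩ : ε ≤ 1 ∧ ∃ b₀ : PadicAlgCl p, b₀ ≠ 0 ∧ IsAlgebraic ℚ b₀ ∧
      (ε = 0 ∨ L b₀ = w) := by
    rcases hw with ⟨h1, -⟩ | ⟨h1, b₀, h2, h3, h4, -⟩
    · exact ⟨by omega, 1, one_ne_zero, isAlgebraic_one, Or.inl h1⟩
    · exact ⟨by omega, b₀, h2, h3, Or.inr h4.symm⟩
  have hw' : (w = 1 ∧ LinearIndependent ℚ
        (Fin.append (fun j => L (b j)) (fun i => L (a i)) : Fin (r + M) → PadicAlgCl p)) ∨
      ∃ b₀, b₀ ≠ 0 ∧ IsAlgebraic ℚ b₀ ∧ w = L b₀ ∧ LinearIndependent ℚ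
        (Fin.cons (L b₀) (Fin.append (fun j => L (b j)) (fun i => L (a i))) :
          Fin (r + M + 1) → PadicAlgCl p) := by
    rcases hw with ⟨-, h⟩ | ⟨-, h⟩
    · exact Or.inl h
    · exact Or.inr h
  have hli0 := li_w hB hL a ha b hb w hw'
  have hw0 : w ≠ 0 := by
    have := hli0.ne_zero (Sum.inl 0)
    simpa using this
  -- division by `w`
  have hli1 : LinearIndependent (algebraicClosure ℚ (PadicAlgCl p))
      (Sum.elim (Fin.cons 1 (fun j => L (b j) / w) : Fin (r + 1) → PadicAlgCl p)
        fun i => L (a i) / w) := li_div hw0 hli0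
  -- algebraic independence
  have ht1 : AlgebraicIndependent ℚ (fun j : Fin (r + q) =>
      (Fin.append (fun j => L (b j)) t : Fin (r + q) → PadicAlgCl p) j / w) := by
    rcases ht with ⟨hr, hq⟩ | ht
    · subst hr
      subst hq
      have htr : AlgebraicIndependent ℚ (fun _ : Fin 1 => L (b 0) / w) := by
        rw [algebraicIndependent_unique_type_iff]
        intro halgL
        have h3 := hli1.comp (Sum.inl : Fin (1 + 1) → Fin (1 + 1) ⊕ Fin M) Sum.inl_injective
        rw [Fintype.linearIndependent_iff] at h3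
        have h4 := h3 (Fin.cons (-⟨L (b 0) / w, mem_algebraicClosure_iff.2 halgL⟩) fun _ => 1) (by
          rw [Fin.sum_univ_two]
          simp only [Function.comp_apply, Sum.elim_inl, Fin.cons_zero, Fin.cons_one, one_smul,
            neg_smul]
          rw [Algebra.smul_def, mul_one]
          exact neg_add_cancel (L (b 0) / w)) 1
        simp at h4
      have heq : (fun j : Fin (1 + 0) =>
          (Fin.append (fun j => L (b j)) t : Fin (1 + 0) → PadicAlgCl p) j / w) =
          fun _ : Fin 1 => L (b 0) / w := by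
        funext i
        refine Fin.addCases (fun j => ?_) (fun j => j.elim0) i
        rw [Fin.append_left, Subsingleton.elim j 0]
      rw [heq]
      exact htr
    · exact ht
  have ht' : AlgebraicIndependent (algebraicClosure ℚ (PadicAlgCl p)) (fun j : Fin (r + q) =>
      (Fin.append (fun j => L (b j)) t : Fin (r + q) → PadicAlgCl p) j / w) :=
    ht1.extendScalars (algebraicClosure ℚ (PadicAlgCl p))
  obtain ⟨E, h0, h1, h2, h3⟩ := hC (F := algebraicClosure ℚ (PadicAlgCl p)) ht' hd
    (fun i => L (a i) / w) (y / w)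
  refine ⟨E, h0, ?_, fun hy => h2 (by rw [hy, zero_div]), ?_⟩
  · intro e he
    obtain ⟨V, hfinV, hone, htV, hgrp, hrk⟩ := h1 e he
    have hbV : ∀ j, L (b j) / w ∈ V := by
      intro j
      have h4 := htV (Fin.castAdd q j)
      rwa [Fin.append_left] at h4
    -- the rank
    have hbase : Module.finrank ℤ (grp (fun i => L (a i) / w) V) + (r + 1) ≤
        Module.finrank (algebraicClosure ℚ (PadicAlgCl p)) V :=
      hR (algebraicClosure ℚ (PadicAlgCl p)) (PadicAlgCl p) (r + 1) M
        (Fin.cons 1 fun j => L (b j) / w) (fun i => L (a i) / w) hli1 V (fun j => by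
          refine Fin.cases ?_ (fun i => ?_) j
          · exact hone
          · rw [Fin.cons_succ]
            exact hbV i)
    -- a basis of the group
    have hfree : Module.Free ℤ (grp (fun i => L (a i) / w) V) :=
      inferInstanceAs (Module.Free ℤ
        (AddSubgroup.toIntSubmodule (grp (fun i => L (a i) / w) V)))
    have hfinite : Module.Finite ℤ (grp (fun i => L (a i) / w) V) :=
      inferInstanceAs (Module.Finite ℤ
        (AddSubgroup.toIntSubmodule (grp (fun i => L (a i) / w) V)))
    let c := Module.finBasis ℤ (grp (fun i => L (a i) / w) V)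
    have hc : LinearIndependent ℤ (fun j => (c j : Fin M → ℤ)) :=
      c.linearIndependent.map' (grp (fun i => L (a i) / w) V).subtype.toIntLinearMap (by
        rw [LinearMap.ker_eq_bot]
        exact Subtype.val_injective)
    have hli2 := li_grp hli0 (fun j => (c j : Fin M → ℤ)) hc
    -- the logarithms
    let α : Fin (Module.finrank ℤ (grp (fun i => L (a i) / w) V)) ⊕ (Fin r ⊕ Fin ε) →
        PadicAlgCl p :=
      Sum.elim (fun j => ∏ i, a i ^ (c j : Fin M → ℤ) i) (Sum.elim b fun _ => b₀)
    have hα0 : ∀ i, α i ≠ 0 := by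
      rintro (j | j | j)
      · exact Finset.prod_ne_zero_iff.mpr fun i _ => zpow_ne_zero _ (ha i).1
      · exact (hb j).1
      · exact hb0
    have hαa : ∀ i, IsAlgebraic ℚ (α i) := by
      rintro (j | j | j)
      · exact isAlgebraic_iff_isIntegral.mpr (IsIntegral.prod _ fun i _ => by
          have h5 : IsAlgebraic ℚ (a i ^ (c j : Fin M → ℤ) i) := by
            have h6 : a i ∈ algebraicClosure ℚ (PadicAlgCl p) :=
              mem_algebraicClosure_iff.2 (ha i).2
            exact mem_algebraicClosure_iff.1 (zpow_mem h6 _)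
          exact h5.isIntegral)
      · exact (hb j).2
      · exact hb1
    let κ : Fin (Module.finrank ℤ (grp (fun i => L (a i) / w) V)) ⊕ (Fin r ⊕ Fin ε) →
        Fin (r + 1) ⊕ Fin (Module.finrank ℤ (grp (fun i => L (a i) / w) V)) :=
      Sum.elim Sum.inr (Sum.elim (fun j => Sum.inl j.succ) fun _ => Sum.inl 0)
    have hκ : Function.Injective κ := by
      rintro (j | j | j) (j' | j' | j') h
      · exact congrArg _ (Sum.inr_injective h)
      · exact absurd h (by simp [κ])
      · exact absurd h (by simp [κ])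
      · exact absurd h (by simp [κ])
      · have h5 : j.succ = j'.succ := Sum.inl_injective h
        rw [Fin.succ_injective _ h5]
      · exact absurd (Sum.inl_injective h : j.succ = 0) (Fin.succ_ne_zero _)
      · exact absurd h (by simp [κ])
      · exact absurd (Sum.inl_injective h : 0 = j'.succ).symm (Fin.succ_ne_zero _)
      · have h5 : j = j' := Fin.ext (by have := j.isLt; have := j'.isLt; omega)
        rw [h5]
    have hLα : ∀ i, L (α i) = (Sum.elim (Fin.cons w (fun j => L (b j)) :
        Fin (r + 1) → PadicAlgCl p) (fun j => ∑ i, (((c j : Fin M → ℤ) i : ℤ) :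
          algebraicClosure ℚ (PadicAlgCl p)) • L (a i))) (κ i) := by
      rintro (j | j | j)
      · change L (∏ i, a i ^ (c j : Fin M → ℤ) i) = ∑ i, (((c j : Fin M → ℤ) i : ℤ) :
          algebraicClosure ℚ (PadicAlgCl p)) • L (a i)
        rw [log_prod hL Finset.univ a (fun i => (ha i).1) _]
        rfl
      · rfl
      · have hj := j.isLt
        change L b₀ = w
        rcases hb2 with h5 | h5
        · omega
        · exact h5
    have hli3 : LinearIndependent (algebraicClosure ℚ (PadicAlgCl p)) (fun i => L (α i)) := by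
      have h5 := hli2.comp κ hκ
      have h6 : (fun i => L (α i)) = (Sum.elim (Fin.cons w (fun j => L (b j)) :
        Fin (r + 1) → PadicAlgCl p) (fun j => ∑ i, (((c j : Fin M → ℤ) i : ℤ) :
          algebraicClosure ℚ (PadicAlgCl p)) • L (a i))) ∘ κ := funext hLα
      rw [h6]
      exact h5
    have hli4 : ∀ f : Fin (Module.finrank ℤ (grp (fun i => L (a i) / w) V)) ⊕
        (Fin r ⊕ Fin ε) → ℤ, ∑ i, (f i : PadicAlgCl p) * L (α i) = 0 → f = 0 := by
      intro f hf
      rw [Fintype.linearIndependent_iff] at hli3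
      have h5 := hli3 (fun i => ((f i : ℤ) : algebraicClosure ℚ (PadicAlgCl p))) hf
      funext i
      have h6 := h5 i
      exact_mod_cast h6
    have hVα : ∀ i, L (α i) / w ∈ V := by
      rintro (j | j | j)
      · have h5 : (c j : Fin M → ℤ) ∈ grp (fun i => L (a i) / w) V := (c j).2
        rw [mem_grp] at h5
        have h6 : L (α (Sum.inl j)) / w = ∑ i, (((c j : Fin M → ℤ) i : ℤ) :
            algebraicClosure ℚ (PadicAlgCl p)) • (L (a i) / w) := by
          change L (∏ i, a i ^ (c j : Fin M → ℤ) i) / w = _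
          rw [log_prod hL Finset.univ a (fun i => (ha i).1) _, Finset.sum_div]
          refine Finset.sum_congr rfl fun i _ => ?_
          rw [mul_div_assoc]
          rfl
        rw [h6]
        exact h5
      · exact hbV j
      · have hj := j.isLt
        have h5 : L (α (Sum.inr (Sum.inr j))) = w := by
          rcases hb2 with h5 | h5
          · omega
          · exact h5
        rw [h5, div_self hw0]
        exact hone
    have hcard : Fintype.card (Fin (Module.finrank ℤ (grp (fun i => L (a i) / w) V)) ⊕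
        (Fin r ⊕ Fin ε)) = Module.finrank ℤ (grp (fun i => L (a i) / w) V) + r + ε := by
      rw [Fintype.card_sum, Fintype.card_sum, Fintype.card_fin, Fintype.card_fin,
        Fintype.card_fin, add_assoc]
    -- induction
    have hind : ∀ m, FiniteDimensional (algebraicClosure ℚ (PadicAlgCl p))
        (V ^ (m + 1) : Submodule (algebraicClosure ℚ (PadicAlgCl p)) (PadicAlgCl p)) ∧
        Module.finrank ℤ (grp (fun i => L (a i) / w) V) + r + 1 +
        m * ((Module.finrank ℤ (grp (fun i => L (a i) / w) V) + r + ε) ^ 2 / 4) ≤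
        Module.finrank (algebraicClosure ℚ (PadicAlgCl p))
          (V ^ (m + 1) : Submodule (algebraicClosure ℚ (PadicAlgCl p)) (PadicAlgCl p)) := by
      intro m
      induction m with
      | zero =>
        rw [zero_add, pow_one, Nat.zero_mul, Nat.add_zero]
        exact ⟨hfinV, (by omega : Module.finrank ℤ (grp (fun i => L (a i) / w) V) + r + 1 =
          Module.finrank ℤ (grp (fun i => L (a i) / w) V) + (r + 1)).le.trans hbase⟩
      | succ m ih =>
        obtain ⟨ih1, ih2⟩ := ih
        have h5 := growth hG hL α hα0 hαa hli4 (V ^ (m + 1)) V hw0 hone hVα (by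
          rw [hcard]
          have h6 := Nat.zero_le
            (m * ((Module.finrank ℤ (grp (fun i => L (a i) / w) V) + r + ε) ^ 2 / 4))
          omega)
        rw [hcard, ← pow_succ] at h5
        refine ⟨?_, ?_⟩
        · rw [pow_succ]
          exact Module.Finite.iff_fg.mpr (Submodule.FG.mul (Module.Finite.iff_fg.mp ih1)
            (Module.Finite.iff_fg.mp hfinV))
        · rw [Nat.succ_mul]
          omega
    intro m hm
    obtain ⟨m, rfl⟩ : ∃ m', m = m' + 1 := ⟨m - 1, by omega⟩
    rw [hgrp, Nat.add_sub_cancel]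
    refine (hind m).2.trans ((hrk (m + 1) hm).trans ?_)
    rw [Nat.choose_symm_add]
  · intro k hk
    refine h3 k ?_
    have h4 := not_ind hw0 hk
    have h5 : (y + L (∏ i, a i ^ k i)) / w = y / w +
        ∑ i, ((k i : ℤ) : algebraicClosure ℚ (PadicAlgCl p)) • (L (a i) / w) := by
      rw [log_prod hL Finset.univ a (fun i => (ha i).1) k, add_div, Finset.sum_div]
      congr 1
      refine Finset.sum_congr rfl fun i _ => ?_
      rw [mul_div_assoc]
      rfl
    rw [h5] at h4
    exact h4

end Pool.Agent.Lib.MP_c50dba_nt.EX
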