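import Pool.Agent.Lib.MP_c50dba_nt.EX.Stmts2
import Pool.Agent.Lib.MP_c50dba_nt.RD.FamU

set_option autoImplicit false

/-!
EXPANSION project, module N2 (helper74): the family of subspaces, with bounds for the dimensions of
all their powers.
-/

namespace Pool.Agent.Lib.MP_c50dba_nt.EX

open scoped BigOperators
open Pool.Agent.Lib.MP_c50dba_nt Pool.Agent.Lib.MP_c50dba_nt.Gen
open Pool.Agent.Lib.MP_c50dba_nt.LR Pool.Agent.Lib.MP_c50dba_nt.RD MvPolynomial

open Famaux

section

variable {F Ω : Type} [Field F] [Field Ω] [Algebra F Ω] {s : ℕ} {t : Fin s → Ω}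

theorem pow_le_Fsp74 (L : IntermediateField (IntermediateField.adjoin F (Set.range t)) Ω)
    {V : Submodule F Ω} (hV : V ≤ Fsp L) (m : ℕ) : V ^ m ≤ Fsp L := by
  induction m with
  | zero =>
    rw [pow_zero, Submodule.one_le]
    exact L.one_mem
  | succ m ih =>
    rw [pow_succ, Submodule.mul_le]
    intro a ha b hb
    exact L.mul_mem (ih ha) (hV hb)

theorem pow_le_Esp74 (L : IntermediateField (IntermediateField.adjoin F (Set.range t)) Ω)
    (σ σ' : L →ₐ[IntermediateField.adjoin F (Set.range t)] Ω)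
    {V : Submodule F Ω} (hV : V ≤ Esp L σ σ') (m : ℕ) : V ^ m ≤ Esp L σ σ' := by
  induction m with
  | zero =>
    rw [pow_zero, Submodule.one_le]
    refine ⟨L.one_mem, ?_⟩
    have h : (⟨1, L.one_mem⟩ : L) = 1 := rfl
    rw [h, map_one, map_one]
  | succ m ih =>
    rw [pow_succ, Submodule.mul_le]
    intro a ha b hb
    obtain ⟨ha1, ha2⟩ := ih ha
    obtain ⟨hb1, hb2⟩ := hV hb
    refine ⟨L.mul_mem ha1 hb1, ?_⟩
    have h : (⟨a * b, L.mul_mem ha1 hb1⟩ : L) = ⟨a, ha1⟩ * ⟨b, hb1⟩ := rfl
    rw [h, map_mul, map_mul, ha2, hb2]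

theorem pow_le_Bsp74 (L : IntermediateField (IntermediateField.adjoin F (Set.range t)) Ω)
    (σ : L →ₐ[IntermediateField.adjoin F (Set.range t)] Ω) (W : ValuationSubring Ω)
    (hW : ∀ c : F, W.valuation (algebraMap F Ω c) ≤ 1) {T : Ω} {γ : W.ValueGroup}
    {V : Submodule F Ω} (hV : V ≤ Bsp L σ W hW T γ) (m : ℕ) :
    V ^ m ≤ Bsp L σ W hW (T ^ m) (γ ^ m) := by
  induction m with
  | zero =>
    rw [pow_zero, pow_zero, pow_zero, Submodule.one_le]
    refine ⟨L.one_mem, ?_⟩
    have h : (⟨1, L.one_mem⟩ : L) = 1 := rfl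
    rw [h, map_one, div_one, map_one]
  | succ m ih =>
    rw [pow_succ, Submodule.mul_le]
    intro a ha b hb
    obtain ⟨ha1, ha2⟩ := ih ha
    obtain ⟨hb1, hb2⟩ := hV hb
    refine ⟨L.mul_mem ha1 hb1, ?_⟩
    have h : (⟨a * b, L.mul_mem ha1 hb1⟩ : L) = ⟨a, ha1⟩ * ⟨b, hb1⟩ := rfl
    rw [h, map_mul, pow_succ, pow_succ, mul_div_mul_comm, map_mul]
    exact mul_le_mul' ha2 hb2

end

open Famaux FamUaux in
/-- N2. -/
theorem famUN_74 (h1 : StOverPrime) (h2 : StOverInf) (h6 : StDepN) : StFamUN := by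
  classical
  intro s d n
  rcases s with _ | s
  · refine ⟨1, ?_⟩
    intro F Ω _ _ _ _ _ _ t ht hd U hUfin hUn h1U htU
    refine ⟨{Submodule.span F {(1 : Ω)}}, (Finset.card_singleton _).le, ?_, ?_⟩
    · intro V hV
      rw [Finset.mem_singleton] at hV
      subst hV
      refine ⟨?_, Submodule.mem_span_singleton_self 1, fun j => j.elim0, fun m _ => ?_⟩
      · rw [Submodule.span_le, Set.singleton_subset_iff]
        exact h1U
      · have h8 : (Submodule.span F {(1 : Ω)}) ^ m = Submodule.span F {(1 : Ω)} := by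
          rw [← Submodule.one_eq_span, one_pow]
        rw [Nat.choose_zero_right, h8]
        exact (finrank_span_le_card ({(1 : Ω)} : Set Ω)).trans (by simp)
    · intro x hx h
      exact ⟨_, Finset.mem_singleton_self _, (exc_family_zero U d hx h).2⟩
  · refine ⟨2 ^ (d ^ n * d ^ n) * (n + 1) ^ ((n * d + 1) * d ^ n), ?_⟩
    intro F Ω _ _ _ _ _ _ t ht hd U hUfin hUn h1U htU
    set G : Set Ω := {x | x ∈ U ∧ ¬ Ind F d (Fin.cons x t : Fin (s + 1 + 1) → Ω)} with hG
    set U' : Submodule F Ω := Submodule.span F G with hU'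
    have hU'U : U' ≤ U := Submodule.span_le.mpr fun x hx => hx.1
    have hfinU' : FiniteDimensional F U' := Submodule.finiteDimensional_of_le hU'U
    have hmn : Module.finrank F U' ≤ n := (Submodule.finrank_mono hU'U).trans hUn
    have h1U' : (1 : Ω) ∈ U' := Submodule.subset_span ⟨h1U, dep_one t hd⟩
    have htU' : ∀ j, t j ∈ U' := fun j => Submodule.subset_span ⟨htU j, dep_t t hd j⟩
    obtain ⟨b, hbG, hbspan, -⟩ := Submodule.exists_fun_fin_finrank_span_eq F G
    let L : IntermediateField (IntermediateField.adjoin F (Set.range t)) Ω :=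
      IntermediateField.adjoin _ (Set.range b)
    have hLfin : FiniteDimensional (IntermediateField.adjoin F (Set.range t)) L := by
      have : Finite (Set.range b) := Set.finite_range _
      apply IntermediateField.finiteDimensional_adjoin
      rintro _ ⟨i, rfl⟩
      exact (alg_of_dep ht (hbG i).2).isIntegral
    have hle : ∀ W : Submodule F Ω, (∀ i, b i ∈ W) → U' ≤ W := by
      intro W hW
      rw [hU', ← hbspan, Submodule.span_le]
      rintro _ ⟨i, rfl⟩
      exact hW i
    have hbL : ∀ i, b i ∈ L := fun i => IntermediateField.subset_adjoin _ (Set.range b) ⟨i, rfl⟩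
    have hUL : ∀ u ∈ U', u ∈ L := by
      have h8 : U' ≤ Fsp L := hle _ hbL
      exact fun u hu => h8 hu
    choose P hP0 hPd hPl hP using fun i => exists_pol_dep (hbG i).2
    let D₀ : MvPolynomial (Fin (s + 1)) F := ∏ i, (P i).leadingCoeff
    have hD₀ : D₀ ≠ 0 := Finset.prod_ne_zero_iff.mpr fun i _ =>
      Polynomial.leadingCoeff_ne_zero.mpr (hP0 i)
    have hD₀d : D₀.totalDegree ≤ n * d := by
      refine (totalDegree_finsetProd _ _).trans ?_
      refine (Finset.sum_le_card_nsmul _ _ d fun i _ => hPl i).trans ?_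
      rw [Finset.card_univ, Fintype.card_fin, smul_eq_mul]
      exact Nat.mul_le_mul_right d hmn
    -- the embeddings
    have hH := Fintype.ofFinite (L →ₐ[IntermediateField.adjoin F (Set.range t)] Ω)
    have hHcard : Fintype.card (L →ₐ[IntermediateField.adjoin F (Set.range t)] Ω) ≤ d ^ n := by
      rw [← Nat.card_eq_fintype_card]
      refine (card_emb b (fun i => ((P i).map (aeval t :
        MvPolynomial (Fin (s + 1)) F →ₐ[F] Ω).toRingHom).roots.toFinset) (fun i => ?_)
        fun σ i => ?_).trans (Nat.pow_le_pow_right hd hmn)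
      · refine (Multiset.toFinset_card_le _).trans ((Polynomial.card_roots' _).trans ?_)
        exact (Polynomial.natDegree_map_le).trans (hPd i)
      · rw [Multiset.mem_toFinset, Polynomial.mem_roots
          ((Polynomial.map_ne_zero_iff ht).mpr (hP0 i)), Polynomial.IsRoot, Polynomial.eval_map]
        exact eval_conj L σ ⟨b i, hbL i⟩ (P i) (hP i)
    -- the primes which do not divide the denominator
    have hgood : ∀ π, ¬ π ∣ D₀ → ∀ V : ValuationSubring Ω, OverPrime t π V →
        ∀ σ : L →ₐ[IntermediateField.adjoin F (Set.range t)] Ω, ∀ u (hu : u ∈ U'),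
        V.valuation (σ ⟨u, hUL u hu⟩) ≤ 1 := by
      intro π hπ V hV σ
      have h8 : U' ≤ Bsp L σ V (overPrime_const hV) 1 1 := by
        refine hle _ fun i => ⟨hbL i, ?_⟩
        rw [div_one]
        have h9 := eval_conj L σ ⟨b i, hbL i⟩ (P i) (hP i)
        rw [← Polynomial.eval_map] at h9
        refine val_root V _ (fun j => ?_) ?_ h9
        · rw [Polynomial.coeff_map]
          exact hV.1 _
        · rw [Polynomial.leadingCoeff_map_of_injective ht]
          refine hV.2.1 _ fun h11 => hπ (h11.trans ?_)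
          exact Finset.dvd_prod_of_mem (fun i => (P i).leadingCoeff) (Finset.mem_univ i)
      intro u hu
      obtain ⟨_, h12⟩ := h8 hu
      rwa [div_one] at h12
    -- the valuations
    obtain ⟨f, hf, hfD⟩ := UniqueFactorizationMonoid.exists_prime_factors D₀ hD₀
    obtain ⟨Vinf, hVinf⟩ := h2 F Ω (s + 1) t ht
    choose Vp hVp using h1 F Ω (s + 1) t ht
    have hprime : ∀ π ∈ f.toFinset, Prime π := fun π hπ => hf π (Multiset.mem_toFinset.mp hπ)
    let I : Type := Option {π // π ∈ f.toFinset}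
    have hIcard : Fintype.card I ≤ n * d + 1 := by
      have h8 : Fintype.card I = f.toFinset.card + 1 := by
        rw [Fintype.card_option, Fintype.card_coe]
      rw [h8]
      refine Nat.succ_le_succ ((Multiset.toFinset_card_le f).trans ((card_factors hf).trans ?_))
      exact (totalDegree_le_of_dvd_of_isDomain hfD.dvd hD₀).trans hD₀d
    let W : I → ValuationSubring Ω := fun i => match i with
      | none => Vinf
      | some π => Vp π.1 (hprime π.1 π.2)
    let T : I → Ω := fun i => match i with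
      | none => t 0
      | some _ => 1
    have hWc : ∀ (i : I) (c : F), (W i).valuation (algebraMap F Ω c) ≤ 1 := by
      rintro (_ | π) c
      · exact overInf_const hVinf c
      · exact overPrime_const (hVp π.1 (hprime π.1 π.2)) c
    have hX : ∀ j, (X j : MvPolynomial (Fin (s + 1)) F) ≠ 0 := fun j => X_ne_zero j
    have ht0 : t 0 ≠ 0 := by
      intro h
      apply hX 0
      apply ht
      rw [aeval_X, h, map_zero]
    have hdiv : ∀ y, Vinf.valuation y ≤ Vinf.valuation (t 0) → Vinf.valuation (y / t 0) ≤ 1 := by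
      intro y hy
      rw [map_div₀]
      exact div_le_one_of_le₀ hy zero_le
    have hW1 : ∀ i : I, (W i).valuation (1 / T i) ≤ 1 := by
      rintro (_ | π)
      · apply hdiv
        have h := (hVinf 1 (X 0) one_ne_zero (hX 0)).1 (by
          rw [totalDegree_one]
          exact Nat.zero_le _)
        rwa [map_one, aeval_X] at h
      · change (Vp π.1 (hprime π.1 π.2)).valuation (1 / 1) ≤ 1
        rw [div_one, map_one]
    have hWt : ∀ (i : I) j, (W i).valuation (t j / T i) ≤ 1 := by
      rintro (_ | π) j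
      · apply hdiv
        have h := (hVinf (X j) (X 0) (hX j) (hX 0)).1 (by
          rw [totalDegree_X, totalDegree_X])
        rwa [aeval_X, aeval_X] at h
      · change (Vp π.1 (hprime π.1 π.2)).valuation (t j / 1) ≤ 1
        rw [div_one]
        have h := (hVp π.1 (hprime π.1 π.2)).1 (X j)
        rwa [aeval_X] at h
    -- the patterns
    have hval : ∀ (i : I) (σ : L →ₐ[IntermediateField.adjoin F (Set.range t)] Ω),
        ∃ e : (W i).ValueGroup → Fin (n + 1), Set.InjOn e
          {γ : (W i).ValueGroup | ∃ u : U',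
            γ = max 1 ((W i).valuation (σ ⟨u, hUL u u.2⟩ / T i))} := by
      intro i σ
      have h8 := stFinVal F Ω (W i) (hWc i) (LinearMap.range (conjMap U' L hUL σ (T i)))
      have h9 := card_values (hWc i) (LinearMap.range (conjMap U' L hUL σ (T i)))
      have h10 : {γ : (W i).ValueGroup | ∃ u : U',
            γ = max 1 ((W i).valuation (σ ⟨u, hUL u u.2⟩ / T i))} ⊆
          (fun γ => max 1 γ) '' {γ | ∃ u ∈ LinearMap.range (conjMap U' L hUL σ (T i)),
            γ = (W i).valuation u} := by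
        rintro γ ⟨u, rfl⟩
        exact ⟨_, ⟨_, ⟨u, rfl⟩, rfl⟩, rfl⟩
      have h11 : Module.finrank F (LinearMap.range (conjMap U' L hUL σ (T i))) ≤ n :=
        (LinearMap.finrank_range_le _).trans hmn
      refine exists_code ((h8.image _).subset h10) ?_ (Nat.succ_pos n)
      refine (Set.ncard_le_ncard h10 (h8.image _)).trans ((Set.ncard_image_le h8).trans ?_)
      omega
    choose e he using hval
    let code : L → ((L →ₐ[IntermediateField.adjoin F (Set.range t)] Ω) ×
        (L →ₐ[IntermediateField.adjoin F (Set.range t)] Ω) → Bool) ×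
        (I × (L →ₐ[IntermediateField.adjoin F (Set.range t)] Ω) → Fin (n + 1)) :=
      fun x => (fun p => decide (p.1 x = p.2 x),
        fun q => e q.1 q.2 (max 1 ((W q.1).valuation (q.2 x / T q.1))))
    let Vc : (((L →ₐ[IntermediateField.adjoin F (Set.range t)] Ω) ×
        (L →ₐ[IntermediateField.adjoin F (Set.range t)] Ω) → Bool) ×
        (I × (L →ₐ[IntermediateField.adjoin F (Set.range t)] Ω) → Fin (n + 1))) →
        Submodule F Ω :=
      fun c => Submodule.span F (({1} ∪ Set.range t) ∪ {x | ∃ hx : x ∈ U',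
        ¬ Ind F d (Fin.cons x t : Fin (s + 1 + 1) → Ω) ∧ code ⟨x, hUL x hx⟩ = c})
    let i1 : Fintype (I × (L →ₐ[IntermediateField.adjoin F (Set.range t)] Ω)) := inferInstance
    let i2 : Fintype ((L →ₐ[IntermediateField.adjoin F (Set.range t)] Ω) ×
        (L →ₐ[IntermediateField.adjoin F (Set.range t)] Ω) → Bool) := inferInstance
    let i3 : DecidableEq (I × (L →ₐ[IntermediateField.adjoin F (Set.range t)] Ω)) := inferInstance
    let i4 : Fintype (I × (L →ₐ[IntermediateField.adjoin F (Set.range t)] Ω) → Fin (n + 1)) :=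
      inferInstance
    refine ⟨(Finset.univ.filter fun c => ∃ x, ∃ hx : x ∈ U',
      ¬ Ind F d (Fin.cons x t : Fin (s + 1 + 1) → Ω) ∧ code ⟨x, hUL x hx⟩ = c).image Vc,
      ?_, ?_, ?_⟩
    · refine Finset.card_image_le.trans ((Finset.card_filter_le _ _).trans ?_)
      rw [Finset.card_univ, Fintype.card_prod, Fintype.card_fun, Fintype.card_fun,
        Fintype.card_prod, Fintype.card_prod, Fintype.card_bool, Fintype.card_fin]
      refine Nat.mul_le_mul (Nat.pow_le_pow_right (by norm_num) (Nat.mul_le_mul hHcard hHcard))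
        (Nat.pow_le_pow_right (Nat.succ_pos n) (Nat.mul_le_mul hIcard hHcard))
    · intro V hV
      obtain ⟨c, hc, rfl⟩ := Finset.mem_image.mp hV
      obtain ⟨x₀, hx₀, hdep₀, hc₀⟩ := (Finset.mem_filter.mp hc).2
      subst hc₀
      have hVU' : Vc (code ⟨x₀, hUL x₀ hx₀⟩) ≤ U' := by
        rw [Submodule.span_le]
        rintro y ((hy | ⟨j, rfl⟩) | ⟨hy, -, -⟩)
        · rw [Set.mem_singleton_iff.mp hy]
          exact h1U'
        · exact htU' j
        · exact hy
      have hone : ∀ σ : L →ₐ[IntermediateField.adjoin F (Set.range t)] Ω,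
          ∀ h : (1 : Ω) ∈ L, σ ⟨1, h⟩ = 1 := fun σ h => map_one σ
      have htj : ∀ σ : L →ₐ[IntermediateField.adjoin F (Set.range t)] Ω, ∀ j,
          ∀ h : t j ∈ L, σ ⟨t j, h⟩ = t j := fun σ j h =>
        σ.commutes (⟨t j, t_mem F t j⟩ : IntermediateField.adjoin F (Set.range t))
      refine ⟨hVU'.trans hU'U, Submodule.subset_span (Or.inl (Or.inl rfl)),
        fun j => Submodule.subset_span (Or.inl (Or.inr ⟨j, rfl⟩)), fun m hm => ?_⟩
      have hfinV : FiniteDimensional F (Vc (code ⟨x₀, hUL x₀ hx₀⟩)) :=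
        Submodule.finiteDimensional_of_le hVU'
      have hfinVm : FiniteDimensional F
          ((Vc (code ⟨x₀, hUL x₀ hx₀⟩)) ^ m : Submodule F Ω) :=
        (Submodule.fg_iff_finiteDimensional _).mp
          (((Submodule.fg_iff_finiteDimensional _).mpr hfinV).pow m)
      have hcard : (s + 1 + m * d).choose (s + 1) = (s + 1 + m * d).choose (m * d) :=
        Nat.choose_symm_add
      rw [hcard]
      apply finrank_le_of_dep (ind_t ht (m * d))
      intro z hz
      have hLm : (Vc (code ⟨x₀, hUL x₀ hx₀⟩)) ^ m ≤ Fsp L :=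
        pow_le_Fsp74 L (fun u hu => hUL u (hVU' hu)) m
      have hzL : z ∈ L := hLm hz
      have hB : ∀ (i : I) (σ : L →ₐ[IntermediateField.adjoin F (Set.range t)] Ω),
          (W i).valuation (σ ⟨z, hzL⟩ / T i ^ m) ≤
            max 1 ((W i).valuation (σ ⟨x₀, hUL x₀ hx₀⟩ / T i)) ^ m := by
        intro i σ
        have h8 : Vc (code ⟨x₀, hUL x₀ hx₀⟩) ≤ Bsp L σ (W i) (hWc i) (T i)
            (max 1 ((W i).valuation (σ ⟨x₀, hUL x₀ hx₀⟩ / T i))) := by
          rw [Submodule.span_le]
          rintro y ((hy | ⟨j, rfl⟩) | ⟨hy, -, hpy⟩)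
          · rw [Set.mem_singleton_iff.mp hy]
            refine ⟨hUL _ h1U', ?_⟩
            rw [hone]
            exact (hW1 i).trans (le_max_left _ _)
          · refine ⟨hUL _ (htU' j), ?_⟩
            rw [htj]
            exact (hWt i j).trans (le_max_left _ _)
          · refine ⟨hUL _ hy, ?_⟩
            have h9 := congrFun (congrArg Prod.snd hpy) (i, σ)
            have h10 : max 1 ((W i).valuation (σ ⟨y, hUL y hy⟩ / T i)) =
                max 1 ((W i).valuation (σ ⟨x₀, hUL x₀ hx₀⟩ / T i)) :=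
              he i σ ⟨⟨y, hy⟩, rfl⟩ ⟨⟨x₀, hx₀⟩, rfl⟩ h9
            rw [← h10]
            exact le_max_right _ _
        obtain ⟨_, h10⟩ := pow_le_Bsp74 L σ (W i) (hWc i) h8 m hz
        exact h10
      refine h6 F Ω (s + 1) d m hm t ht 0 L hLfin ⟨x₀, hUL x₀ hx₀⟩ ⟨z, hzL⟩ hdep₀ ?_ ?_ ?_
      · intro σ σ' hσ
        have h8 : Vc (code ⟨x₀, hUL x₀ hx₀⟩) ≤ Esp L σ σ' := by
          rw [Submodule.span_le]
          rintro y ((hy | ⟨j, rfl⟩) | ⟨hy, -, hpy⟩)
          · rw [Set.mem_singleton_iff.mp hy]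
            refine ⟨hUL _ h1U', ?_⟩
            rw [hone, hone]
          · refine ⟨hUL _ (htU' j), ?_⟩
            rw [htj, htj]
          · refine ⟨hUL _ hy, ?_⟩
            have h9 := congrFun (congrArg Prod.fst hpy) (σ, σ')
            have h10 : decide (σ ⟨y, hUL y hy⟩ = σ' ⟨y, hUL y hy⟩) =
                decide (σ ⟨x₀, hUL x₀ hx₀⟩ = σ' ⟨x₀, hUL x₀ hx₀⟩) := h9
            rw [decide_eq_decide] at h10
            exact h10.mpr hσ
        obtain ⟨_, h10⟩ := pow_le_Esp74 L σ σ' h8 m hz
        exact h10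
      · intro π hπ
        by_cases hπD : π ∣ D₀
        · have h8 : π ∣ f.prod := hπD.trans hfD.symm.dvd
          obtain ⟨c, hc, hπc⟩ := hπ.exists_mem_multiset_dvd h8
          have hass : Associated c π := (hπ.associated_of_dvd (hf c hc) hπc).symm
          have hc' : c ∈ f.toFinset := Multiset.mem_toFinset.mpr hc
          refine ⟨Vp c (hprime c hc'), overPrime_of_associated hass (hVp c (hprime c hc')),
            fun σ => ?_⟩
          have h9 := hB (some ⟨c, hc'⟩) σ
          change (Vp c (hprime c hc')).valuation (σ ⟨z, hzL⟩ / 1 ^ m) ≤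
            max 1 ((Vp c (hprime c hc')).valuation (σ ⟨x₀, hUL x₀ hx₀⟩ / 1)) ^ m at h9
          rwa [one_pow, div_one, div_one] at h9
        · refine ⟨Vp π hπ, hVp π hπ, fun σ => ?_⟩
          have h9 : Vc (code ⟨x₀, hUL x₀ hx₀⟩) ≤ Bsp L σ (Vp π hπ)
              (overPrime_const (hVp π hπ)) 1 1 := by
            intro u hu
            refine ⟨hUL u (hVU' hu), ?_⟩
            rw [div_one]
            exact hgood π hπD _ (hVp π hπ) σ u (hVU' hu)
          obtain ⟨_, h10⟩ := pow_le_Bsp74 L σ (Vp π hπ) (overPrime_const (hVp π hπ)) h9 m hz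
          rw [one_pow, one_pow, div_one] at h10
          exact h10.trans (one_le_pow₀ (le_max_left _ _))
      · exact ⟨Vinf, hVinf, fun σ => hB none σ⟩
    · intro x hx hdep
      have hxU' : x ∈ U' := Submodule.subset_span ⟨hx, hdep⟩
      refine ⟨Vc (code ⟨x, hUL x hxU'⟩), Finset.mem_image.mpr ⟨_, Finset.mem_filter.mpr
        ⟨Finset.mem_univ _, x, hxU', hdep, rfl⟩, rfl⟩,
        Submodule.subset_span (Or.inr ⟨hxU', hdep, rfl⟩)⟩

end Pool.Agent.Lib.MP_c50dba_nt.EX
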