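import Pool.Agent.Lib.MP_c50dba_nt.EX.Stmts

set_option autoImplicit false

/-!
EXPANSION project, module Z2 (helper47): conjugates with prescribed coordinates in `I`.
-/

namespace Pool.Agent.Lib.MP_c50dba_nt.EX

open MvPolynomial Module

theorem fiber_47 : S_fiber := by
  intro k Ω _ _ _ _ σ _ I z z' hz hz' heq halg
  classical
  have hr : Set.range (fun i : I => z' i) = z' '' (I : Set σ) := by
    rw [Set.image_eq_range]
    rfl
  rw [heq, ← hr] at halg
  -- the homomorphism on the field of coordinates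
  let φ : IntermediateField.adjoin k (Set.range (fun i : I => z' i)) →ₐ[k] Ω :=
    ((IntermediateField.val _).comp hz.aevalEquivField.toAlgHom).comp
      hz'.aevalEquivField.symm.toAlgHom
  let E : IntermediateField (IntermediateField.adjoin k (Set.range (fun i : I => z' i))) Ω :=
    algebraicClosure _ Ω
  have htow : IsScalarTower k E Ω := IsScalarTower.of_algebraMap_eq (fun x => rfl)
  obtain ⟨ψ, hψ⟩ := IsAlgClosed.surjective_domRestrict_of_isAlgebraic (K := k)
    (L := IntermediateField.adjoin k (Set.range (fun i : I => z' i))) (M := Ω) (E := E) φ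
  have hmem : ∀ i, z' i ∈ E := fun i => mem_algebraicClosure_iff.mpr (halg i)
  have hφ : ∀ i : I, ∀ h, φ ⟨z' i, h⟩ = z i := by
    intro i h
    have h1 : hz'.aevalEquivField (algebraMap _ _ (X i : MvPolynomial I k)) = ⟨z' i, h⟩ := by
      apply Subtype.ext
      rw [hz'.aevalEquivField_algebraMap_apply_coe, aeval_X]
    have h2 : hz'.aevalEquivField.symm ⟨z' i, h⟩ = algebraMap _ _ (X i : MvPolynomial I k) := by
      rw [← h1, AlgEquiv.symm_apply_apply]
    show ((hz.aevalEquivField (hz'.aevalEquivField.symm ⟨z' i, h⟩) : _) : Ω) = z i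
    rw [h2, hz.aevalEquivField_algebraMap_apply_coe, aeval_X]
  refine ⟨fun i => ψ ⟨z' i, hmem i⟩, ?_, ?_⟩
  · intro i hi
    have hF : z' i ∈ IntermediateField.adjoin k (Set.range (fun i : I => z' i)) :=
      IntermediateField.subset_adjoin _ _ ⟨⟨i, hi⟩, rfl⟩
    have h3 : (⟨z' i, hmem i⟩ : E) = algebraMap
        (IntermediateField.adjoin k (Set.range (fun i : I => z' i))) E ⟨z' i, hF⟩ := rfl
    have h4 := congrArg (fun f => f ⟨z' i, hF⟩) hψ
    simp only [AlgHom.domRestrict] at h4
    show ψ ⟨z' i, hmem i⟩ = z i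
    rw [h3, ← hφ ⟨i, hi⟩ hF]
    exact h4
  · intro f
    have h5 : aeval (fun i => ψ ⟨z' i, hmem i⟩) f = ψ (aeval (fun i => (⟨z' i, hmem i⟩ : E)) f) := by
      rw [← AlgHom.comp_apply]
      congr 1
      apply MvPolynomial.algHom_ext
      intro i
      simp
    have h6 : aeval z' f = ((aeval (fun i => (⟨z' i, hmem i⟩ : E)) f : E) : Ω) := by
      have h7 : (aeval z' : MvPolynomial σ k →ₐ[k] Ω) = (IsScalarTower.toAlgHom k E Ω).comp
          (aeval (fun i => (⟨z' i, hmem i⟩ : E))) := by
        apply MvPolynomial.algHom_ext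
        intro i
        simp
      rw [h7]
      rfl
    rw [h5, h6]
    constructor
    · intro h
      rw [(map_eq_zero ψ).mp h]
      rfl
    · intro h
      have h8 : aeval (fun i => (⟨z' i, hmem i⟩ : E)) f = 0 := Subtype.ext h
      rw [h8, map_zero]

end Pool.Agent.Lib.MP_c50dba_nt.EX
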