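import Pool.Agent.Lib.MP_c50dba_nt.PExp

set_option autoImplicit false

/-!
EXPANSION project (chair: helper83): statements of all modules, as Props.
`l_1, ..., l_n` Iwasawa logarithms of algebraic numbers, linearly independent over `ℚ`, `V` their
`ℚ̄`-span; for every finite dimensional `U` and `d ≤ dim U`: `dim (U V) ≥ dim U + d (n - d)`.
-/

namespace Pool.Agent.Lib.MP_c50dba_nt.EX

open MvPolynomial NumberField Module

/-! ### B: Bezout bound for finite zero sets, up to a constant -/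

/-- B1. Generic linear combinations of a system with algebraic zeros only have algebraic zeros
only (zeros with nonzero coordinates in `J`). -/
def S_generic : Prop :=
  ∀ (F : Type) [Field F] [CharZero F] (c M : ℕ) (J : Finset (Fin c))
    (P : Fin M → MvPolynomial (Fin c) F),
    (∀ (Ω : Type) [Field Ω] [Algebra F Ω] (y : Fin c → Ω), (∀ j ∈ J, y j ≠ 0) →
      (∀ κ, aeval y (P κ) = 0) → ∀ i, IsAlgebraic F (y i)) →
    ∃ (F₁ : Type) (_ : Field F₁) (_ : Algebra F F₁) (_ : IsAlgClosed F₁) (ξ : Fin c → Fin M → F₁),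
      ∀ (Ω : Type) [Field Ω] [Algebra F₁ Ω] (y : Fin c → Ω), (∀ j ∈ J, y j ≠ 0) →
        (∀ i, aeval y (∑ κ, C (ξ i κ) * map (algebraMap F F₁) (P κ)) = 0) →
        ∀ i, IsAlgebraic F₁ (y i)

/-- B2. Perturbation: a system `Q` of `c` polynomials in `c` variables all whose zeros are
algebraic has at least as many zeros `y` of `Q = s` for some algebraically independent `s`. -/
def S_perturb : Prop :=
  ∀ (k : Type) [Field k] [CharZero k] [IsAlgClosed k] (c : ℕ) (_ : 1 ≤ c) (J : Finset (Fin c))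
    (Q : Fin c → MvPolynomial (Fin c) k),
    (∀ (Ω : Type) [Field Ω] [Algebra k Ω] (y : Fin c → Ω), (∀ j ∈ J, y j ≠ 0) →
      (∀ i, aeval y (Q i) = 0) → ∀ i, IsAlgebraic k (y i)) →
    ∀ Z : Finset (Fin c → k), (∀ y ∈ Z, (∀ j ∈ J, y j ≠ 0) ∧ ∀ i, eval y (Q i) = 0) →
    ∃ (Ω : Type) (_ : Field Ω) (_ : Algebra k Ω) (s : Fin c → Ω) (Z' : Finset (Fin c → Ω)),
      AlgebraicIndependent k s ∧ Z.card ≤ Z'.card ∧ ∀ y ∈ Z', ∀ i, aeval y (Q i) = s i

/-- B3. Jacobian: if the values `Q i (y)` are algebraically independent the Jacobian determinant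
does not vanish at `y`. -/
def S_jac : Prop :=
  ∀ (k Ω : Type) [Field k] [CharZero k] [Field Ω] [Algebra k Ω] (c : ℕ)
    (Q : Fin c → MvPolynomial (Fin c) k) (y : Fin c → Ω),
    AlgebraicIndependent k (fun i => aeval y (Q i)) →
    (Matrix.of fun i j => aeval y (pderiv j (Q i))).det ≠ 0

/-- B4. Bezoutians: the number of nondegenerate zeros. -/
def S_bez4 : Prop :=
  ∀ (F : Type) [Field F] (c : ℕ) (Q : Fin c → MvPolynomial (Fin c) F) (e : Fin c → ℕ),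
    (∀ i j, (Q i).degreeOf j ≤ e j) → ∀ Z : Finset (Fin c → F),
    (∀ y ∈ Z, (∀ i, eval y (Q i) = 0) ∧ (Matrix.of fun i j => eval y (pderiv j (Q i))).det ≠ 0) →
    Z.card ≤ ∏ j, (c * e j + 1)

/-- B. The Bezout bound. -/
def S_bezout : Prop :=
  ∀ (F : Type) [Field F] [CharZero F] (c M : ℕ) (J : Finset (Fin c))
    (P : Fin M → MvPolynomial (Fin c) F) (e : Fin c → ℕ),
    (∀ κ j, (P κ).degreeOf j ≤ e j) →
    (∀ (Ω : Type) [Field Ω] [Algebra F Ω] (y : Fin c → Ω), (∀ j ∈ J, y j ≠ 0) →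
      (∀ κ, aeval y (P κ) = 0) → ∀ i, IsAlgebraic F (y i)) →
    ∀ Z : Finset (Fin c → F), (∀ y ∈ Z, (∀ j ∈ J, y j ≠ 0) ∧ ∀ κ, eval y (P κ) = 0) →
    Z.card ≤ ∏ j, (c * e j + 1)

/-! ### Z: the zero estimate on `G_a^w × G_m^l` -/

/-- Additive coordinates of the point with parameter `t`. -/
def xpt {k : Type} [Field k] {w D : ℕ} (β : Fin w → Fin D → k) (t : Fin D → ℤ) : Fin w → k :=
  fun i => ∑ ν, (t ν : k) * β i ν

/-- Multiplicative coordinates of the point with parameter `t`. -/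
def Xpt {k : Type} [Field k] {l D : ℕ} (a : Fin l → Fin D → k) (t : Fin D → ℤ) : Fin l → k :=
  fun j => ∏ ν, a j ν ^ t ν

/-- Translation by the point with parameter `t`. -/
def act {k : Type} [Field k] {Ω : Type} [Field Ω] [Algebra k Ω] {w l D : ℕ}
    (β : Fin w → Fin D → k) (a : Fin l → Fin D → k) (t : Fin D → ℤ) (z : Fin w ⊕ Fin l → Ω) :
    Fin w ⊕ Fin l → Ω :=
  Sum.elim (fun i => z (Sum.inl i) + algebraMap k Ω (xpt β t i))
    (fun j => z (Sum.inr j) * algebraMap k Ω (Xpt a t j))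

/-- Linear relations between the additive coordinates on `Δ`. -/
def linRel {k : Type} [Field k] {w D : ℕ} (β : Fin w → Fin D → k)
    (Δ : Submodule ℤ (Fin D → ℤ)) : Submodule k (Fin w → k) where
  carrier := {c | ∀ t ∈ Δ, ∑ i, c i * xpt β t i = 0}
  add_mem' := by
    intro c c' h h' t ht
    simp only [Pi.add_apply, add_mul, Finset.sum_add_distrib, h t ht, h' t ht, add_zero]
  zero_mem' := by
    intro t _
    simp
  smul_mem' := by
    intro r c h t ht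
    simp only [Pi.smul_apply, smul_eq_mul, mul_assoc, ← Finset.mul_sum, h t ht, mul_zero]

/-- Multiplicative relations between the multiplicative coordinates on `Δ` (all `a j ν ≠ 0`). -/
def mulRel {k : Type} [Field k] {l D : ℕ} (a : Fin l → Fin D → k) (ha : ∀ j ν, a j ν ≠ 0)
    (Δ : Submodule ℤ (Fin D → ℤ)) : Submodule ℤ (Fin l → ℤ) where
  carrier := {b | ∀ t ∈ Δ, ∏ j, Xpt a t j ^ b j = 1}
  add_mem' := by
    intro b b' h h' t ht
    have h0 : ∀ j, Xpt a t j ≠ 0 := fun j =>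
      Finset.prod_ne_zero_iff.mpr (fun ν _ => zpow_ne_zero _ (ha j ν))
    simp only [Pi.add_apply]
    simp only [fun j => zpow_add₀ (h0 j) (b j) (b' j), Finset.prod_mul_distrib, h t ht, h' t ht,
      mul_one]
  zero_mem' := by
    intro t _
    simp
  smul_mem' := by
    intro r b h t ht
    simp only [Pi.smul_apply, smul_eq_mul]
    simp only [fun j => mul_comm r (b j), zpow_mul, Finset.prod_zpow, h t ht, one_zpow]

/-- Number of independent linear relations on `Δ`. -/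
noncomputable def c0 {k : Type} [Field k] {w D : ℕ} (β : Fin w → Fin D → k)
    (Δ : Submodule ℤ (Fin D → ℤ)) : ℕ := finrank k (linRel β Δ)

/-- Number of independent multiplicative relations on `Δ`. -/
noncomputable def c1 {k : Type} [Field k] {l D : ℕ} (a : Fin l → Fin D → k)
    (ha : ∀ j ν, a j ν ≠ 0) (Δ : Submodule ℤ (Fin D → ℤ)) : ℕ := finrank ℤ (mulRel a ha Δ)

/-- Z3. If the translates by `Δ` do not enlarge the ideal of `z`, there are `w - c0` additive and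
`l - c1` multiplicative coordinates of `z` which are algebraically independent. -/
def S_indep : Prop :=
  ∀ (k Ω : Type) [Field k] [CharZero k] [Field Ω] [Algebra k Ω] (w l D : ℕ)
    (β : Fin w → Fin D → k) (a : Fin l → Fin D → k) (ha : ∀ j ν, a j ν ≠ 0)
    (Δ : Submodule ℤ (Fin D → ℤ)) (z : Fin w ⊕ Fin l → Ω), (∀ j, z (Sum.inr j) ≠ 0) →
    (∀ t ∈ Δ, ∀ f : MvPolynomial (Fin w ⊕ Fin l) k, aeval z f = 0 → aeval (act β a t z) f = 0) →
    ∃ I : Finset (Fin w ⊕ Fin l), AlgebraicIndependent k (fun i : I => z i) ∧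
      (Finset.univ.filter (fun i : Fin w => Sum.inl i ∈ I)).card + c0 β Δ = w ∧
      (Finset.univ.filter (fun j : Fin l => Sum.inr j ∈ I)).card + c1 a ha Δ = l

/-- Z4. Many classes of a box modulo a subgroup. -/
def S_count : Prop :=
  ∀ (D T : ℕ) (Δ : Submodule ℤ (Fin D → ℤ)), ∃ A : Finset (Fin D → ℤ),
    (∀ t ∈ A, ∀ ν, 0 ≤ t ν ∧ t ν ≤ T) ∧ (∀ t ∈ A, ∀ t' ∈ A, t - t' ∈ Δ → t = t') ∧
    (T + 1) ^ (D - finrank ℤ Δ) ≤ A.card

/-- Z2. Two points `z`, `z'` whose coordinates in `I` are algebraically independent and generate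
the same field `F`, all coordinates being algebraic over `F`: there is a conjugate `z''` of `z'`
over `k` with the same coordinates in `I` as `z`. -/
def S_fiber : Prop :=
  ∀ (k Ω : Type) [Field k] [Field Ω] [Algebra k Ω] [IsAlgClosed Ω] (σ : Type) [Fintype σ]
    (I : Finset σ) (z z' : σ → Ω),
    AlgebraicIndependent k (fun i : I => z i) → AlgebraicIndependent k (fun i : I => z' i) →
    IntermediateField.adjoin k (z '' (I : Set σ)) = IntermediateField.adjoin k (z' '' (I : Set σ)) →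
    (∀ i, IsAlgebraic (IntermediateField.adjoin k (z '' (I : Set σ))) (z' i)) →
    ∃ z'' : σ → Ω, (∀ i ∈ I, z'' i = z i) ∧
      ∀ f : MvPolynomial σ k, aeval z'' f = 0 ↔ aeval z' f = 0

/-- Z. The zero estimate. -/
def S_zero : Prop :=
  ∀ (k : Type) [Field k] [CharZero k] (w l D : ℕ) (β : Fin w → Fin D → k)
    (a : Fin l → Fin D → k) (ha : ∀ j ν, a j ν ≠ 0) (L₀ S T : ℕ) (_ : 1 ≤ L₀) (_ : 1 ≤ S)
    (P : MvPolynomial (Fin w ⊕ Fin l) k), P ≠ 0 → (∀ i, P.degreeOf (Sum.inl i) ≤ L₀) →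
    (∀ j, P.degreeOf (Sum.inr j) ≤ S) →
    (∀ t : Fin D → ℤ, (∀ ν, 0 ≤ t ν ∧ t ν ≤ ((w + l) * T : ℕ)) →
      eval (Sum.elim (xpt β t) (Xpt a t)) P = 0) →
    ∃ Δ : Submodule ℤ (Fin D → ℤ), 1 ≤ c0 β Δ + c1 a ha Δ ∧
      (T + 1) ^ (D - finrank ℤ Δ) ≤ (w + l + 1) ^ (w + l) * L₀ ^ (c0 β Δ) * S ^ (c1 a ha Δ)

/-! ### D: the interpolation determinant -/

/-- D. Existence of a polynomial with many zeros. -/
def S_det : Prop :=
  ∀ (p : ℕ) [Fact p.Prime] (𝒞 : Type) [NormedField 𝒞] [CompleteSpace 𝒞] [IsUltrametricDist 𝒞]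
    [NormedAlgebra ℚ_[p] 𝒞] (r : ℕ) (_ : 1 ≤ r) (w l : ℕ) (K : Type) [Field K] [NumberField K]
    (φ : K →+* 𝒞) (β : Fin w → Fin (r + 1) → 𝓞 K) (a : Fin l → Fin (r + 1) → K)
    (y : Fin l → Fin (r + 1) → 𝒞) (_ : ∀ j ν, ‖y j ν‖ ≤ 1 / 4)
    (_ : ∀ j ν, φ (a j ν) = Pool.Agent.Lib.MP_c50dba_nt.ex (y j ν))
    (i₀ : Fin (r + 1)) (b : Fin r → 𝒞) (_ : ∀ i, ‖b i‖ ≤ 1)
    (_ : ∀ j, y j i₀ = ∑ i, b i * y j (i₀.succAbove i))
    (_ : ∀ j, φ (β j i₀ : K) = ∑ i, b i * φ (β j (i₀.succAbove i) : K))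
    (A q m : ℕ) (_ : 1 ≤ A) (_ : q ≤ A) (_ : A * r + 1 ≤ (A - 1) * w + q * l),
    ∃ X₀ : ℕ, ∀ X ≥ X₀, ∃ P : MvPolynomial (Fin w ⊕ Fin l) K, P ≠ 0 ∧
      (∀ i, P.degreeOf (Sum.inl i) ≤ X ^ (A - 1)) ∧ (∀ j, P.degreeOf (Sum.inr j) ≤ X ^ q) ∧
      ∀ t : Fin (r + 1) → ℤ, (∀ ν, 0 ≤ t ν ∧ t ν ≤ (m * X ^ (A - q) : ℕ)) →
        eval (Sum.elim (xpt (fun i ν => (β i ν : K)) t) (Xpt a t)) P = 0

/-! ### R: restriction of scalars -/

/-- The elements of `R` all whose columns lie in `E`. -/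
def colSub {K : Type} [Field K] {d n : ℕ} (R : Submodule K (Fin d → Fin n → K))
    (E : Submodule K (Fin d → K)) : Submodule K (Fin d → Fin n → K) where
  carrier := {c | c ∈ R ∧ ∀ j, (fun i => c i j) ∈ E}
  add_mem' := fun h h' => ⟨R.add_mem h.1 h'.1, fun j => E.add_mem (h.2 j) (h'.2 j)⟩
  zero_mem' := ⟨R.zero_mem, fun _ => E.zero_mem⟩
  smul_mem' := fun r _ h => ⟨R.smul_mem r h.1, fun j => E.smul_mem r (h.2 j)⟩

/-- R1. Parameters. -/
def S_param : Prop :=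
  ∀ (d δ N : ℕ), 1 ≤ d → 1 ≤ δ → d * (d - 1) < N → ∃ q A : ℕ, 1 ≤ q ∧ q ≤ A ∧ 1 ≤ A ∧
    d * ((q - 1) * δ) + q * (δ * N) < d * (A - 1) ∧
    A * (d * δ - 1) + 1 ≤ (A - 1) * (d * (δ - 1)) + q * (δ * N)

/-- R2. The obstruction inequality. -/
def S_obst : Prop :=
  ∀ (K : Type) [Field K] [NumberField K] (d n δ' D w l : ℕ) (_ : 1 ≤ d) (ω : Fin (δ' + 1) → K)
    (_ : ω 0 = 1) (_ : LinearIndependent ℚ ω) (_ : finrank ℚ K = δ' + 1)
    (en : Fin D ≃ Fin d × Fin (δ' + 1)) (ew : Fin w ≃ Fin d × Fin δ')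
    (β : Fin w → Fin D → K)
    (_ : ∀ i ν, β i ν = if en ν = ((ew i).1, (ew i).2.succ) then 1
      else if en ν = ((ew i).1, 0) then - ω (ew i).2.succ else 0)
    (R : Submodule K (Fin d → Fin n → K)) (cc : Fin l → Fin d → Fin n → Fin (δ' + 1) → ℤ)
    (_ : ∀ j, (fun i m => ∑ ν, (cc j i m ν : K) * ω ν) ∈ R)
    (_ : LinearIndependent ℤ cc)
    (a : Fin l → Fin D → K) (ha : ∀ j ν, a j ν ≠ 0)
    (_ : ∀ (t : Fin D → ℤ) (b : Fin l → ℤ), ∏ j, Xpt a t j ^ b j = 1 →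
      ∀ m : Fin n, ∑ ν, t ν * ∑ j, b j * cc j (en ν).1 m (en ν).2 = 0)
    (_ : ∀ E : Submodule K (Fin d → K), d * finrank K (colSub R E) ≤ finrank K R * finrank K E)
    (q A : ℕ) (_ : 1 ≤ q) (_ : q ≤ A)
    (_ : d * ((q - 1) * (δ' + 1)) + q * ((δ' + 1) * finrank K R) < d * (A - 1))
    (Δ : Submodule ℤ (Fin D → ℤ)), 1 ≤ c0 β Δ + c1 a ha Δ →
    (A - 1) * c0 β Δ + q * c1 a ha Δ + 1 ≤ (A - q) * (D - finrank ℤ Δ)

/-- R3. The core contradiction over a number field. -/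
def S_core : Prop :=
  ∀ (p : ℕ) [Fact p.Prime] (𝒞 : Type) [NormedField 𝒞] [CompleteSpace 𝒞] [IsUltrametricDist 𝒞]
    [NormedAlgebra ℚ_[p] 𝒞] (K : Type) [Field K] [NumberField K] (φ : K →+* 𝒞) (d n : ℕ)
    (_ : 1 ≤ d) (u : Fin d → 𝒞) (_ : u ≠ 0) (α : Fin n → K) (_ : ∀ i, α i ≠ 0) (lam : Fin n → 𝒞)
    (_ : ∀ i, ‖lam i‖ ≤ 1 / 4) (_ : ∀ i, φ (α i) = Pool.Agent.Lib.MP_c50dba_nt.ex (lam i))
    (_ : ∀ c : Fin n → ℤ, ∑ i, (c i : 𝒞) * lam i = 0 → c = 0)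
    (R : Submodule K (Fin d → Fin n → K)) (_ : ∀ c ∈ R, ∑ i, ∑ j, φ (c i j) * u i * lam j = 0)
    (_ : d * (d - 1) < finrank K R)
    (_ : ∀ E : Submodule K (Fin d → K), d * finrank K (colSub R E) ≤ finrank K R * finrank K E),
    False

/-! ### T: the strong rank theorem and the growth theorem -/

/-- T1. The strong rank theorem over `ℚ̄`. -/
def S_rank : Prop :=
  ∀ (p : ℕ) [Fact p.Prime] (L : PadicAlgCl p → PadicAlgCl p)
    (_ : ∀ x y : PadicAlgCl p, x ≠ 0 → y ≠ 0 → L (x * y) = L x + L y)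
    (_ : L (p : PadicAlgCl p) = 0)
    (_ : ∀ x : PadicAlgCl p, ‖x‖ < 1 →
      L (1 + x) = ∑' n : ℕ, (-1 : PadicAlgCl p) ^ n * x ^ (n + 1) / ((n : PadicAlgCl p) + 1))
    (n : ℕ) (α : Fin n → PadicAlgCl p) (_ : ∀ i, α i ≠ 0) (_ : ∀ i, IsAlgebraic ℚ (α i))
    (_ : ∀ c : Fin n → ℤ, ∑ i, (c i : PadicAlgCl p) * L (α i) = 0 → c = 0)
    (d : ℕ) (u : Fin d → PadicAlgCl p)
    (_ : LinearIndependent (algebraicClosure ℚ (PadicAlgCl p)) u),
    d * (n + 1) ≤ finrank (algebraicClosure ℚ (PadicAlgCl p))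
      (Submodule.span (algebraicClosure ℚ (PadicAlgCl p))
        (Set.range (fun ij : Fin d × Fin n => u ij.1 * L (α ij.2)))) + d * d

/-- T2. The hyperplane step. -/
def S_hyper : Prop :=
  ∀ (k 𝒞 : Type) [Field k] [IsAlgClosed k] [Field 𝒞] [Algebra k 𝒞] (U V : Submodule k 𝒞)
    [FiniteDimensional k U] [FiniteDimensional k V], V ≠ ⊥ → U ≠ ⊥ →
    ∃ U' : Submodule k 𝒞, U' ≤ U ∧ finrank k U' + 1 = finrank k U ∧
      finrank k (U' * V : Submodule k 𝒞) + 1 ≤ finrank k (U * V : Submodule k 𝒞)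

/-- T. The theorem. -/
def S_growth : Prop :=
  ∀ (p : ℕ) [Fact p.Prime] (L : PadicAlgCl p → PadicAlgCl p)
    (_ : ∀ x y : PadicAlgCl p, x ≠ 0 → y ≠ 0 → L (x * y) = L x + L y)
    (_ : L (p : PadicAlgCl p) = 0)
    (_ : ∀ x : PadicAlgCl p, ‖x‖ < 1 →
      L (1 + x) = ∑' n : ℕ, (-1 : PadicAlgCl p) ^ n * x ^ (n + 1) / ((n : PadicAlgCl p) + 1))
    (n : ℕ) (_ : 1 ≤ n) (α : Fin n → PadicAlgCl p) (_ : ∀ i, α i ≠ 0)
    (_ : ∀ i, IsAlgebraic ℚ (α i))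
    (_ : ∀ c : Fin n → ℤ, ∑ i, (c i : PadicAlgCl p) * L (α i) = 0 → c = 0)
    (U : Submodule (algebraicClosure ℚ (PadicAlgCl p)) (PadicAlgCl p))
    [FiniteDimensional (algebraicClosure ℚ (PadicAlgCl p)) U]
    (d : ℕ) (_ : d ≤ finrank (algebraicClosure ℚ (PadicAlgCl p)) U),
    finrank (algebraicClosure ℚ (PadicAlgCl p)) U + d * n ≤
      finrank (algebraicClosure ℚ (PadicAlgCl p))
        (U * Submodule.span (algebraicClosure ℚ (PadicAlgCl p)) (Set.range (fun i => L (α i))) :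
          Submodule (algebraicClosure ℚ (PadicAlgCl p)) (PadicAlgCl p)) + d * d

end Pool.Agent.Lib.MP_c50dba_nt.EX
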