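import Pool.Agent.Lib.MP_c50dba_nt.EX.Stmts
import Pool.Agent.Lib.MP_c50dba_nt.RD.FamU

set_option autoImplicit false

/-!
EXPANSION project, phase 2 (chair: helper83): powers of the spaces of the family of `RD/FamU.lean`
and the improved bound for the exceptional subgroups.
-/

namespace Pool.Agent.Lib.MP_c50dba_nt.EX

open scoped BigOperators
open Pool.Agent.Lib.MP_c50dba_nt Pool.Agent.Lib.MP_c50dba_nt.Gen
open Pool.Agent.Lib.MP_c50dba_nt.LR Pool.Agent.Lib.MP_c50dba_nt.RD MvPolynomial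

/-- N1. The version of `StDep` with weight `m`. -/
def StDepN : Prop :=
  ∀ (F Ω : Type) [Field F] [CharZero F] [Field Ω] [IsAlgClosed Ω] [Algebra F Ω] (s d m : ℕ),
    1 ≤ m → ∀ t : Fin s → Ω,
    Function.Injective (aeval t : MvPolynomial (Fin s) F →ₐ[F] Ω) →
    ∀ (j₀ : Fin s)
      (L : IntermediateField (IntermediateField.adjoin F (Set.range t)) Ω),
      FiniteDimensional (IntermediateField.adjoin F (Set.range t)) L → ∀ x z : L,
    ¬ Ind F d (Fin.cons (x : Ω) t : Fin (s + 1) → Ω) →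
    (∀ σ σ' : L →ₐ[IntermediateField.adjoin F (Set.range t)] Ω, σ x = σ' x → σ z = σ' z) →
    (∀ π : MvPolynomial (Fin s) F, Prime π → ∃ V : ValuationSubring Ω, OverPrime t π V ∧
      ∀ σ : L →ₐ[IntermediateField.adjoin F (Set.range t)] Ω,
        V.valuation (σ z) ≤ max 1 (V.valuation (σ x)) ^ m) →
    (∃ V : ValuationSubring Ω, OverInf F t V ∧
      ∀ σ : L →ₐ[IntermediateField.adjoin F (Set.range t)] Ω,
        V.valuation (σ z / t j₀ ^ m) ≤ max 1 (V.valuation (σ x / t j₀)) ^ m) →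
    ¬ Ind F (m * d) (Fin.cons (z : Ω) t : Fin (s + 1) → Ω)

/-- N2. The family of subspaces, with bounds for all powers. -/
def StFamUN : Prop :=
  ∀ (s d n : ℕ), ∃ C : ℕ, ∀ (F Ω : Type) [Field F] [IsAlgClosed F] [CharZero F] [Field Ω]
    [IsAlgClosed Ω] [Algebra F Ω] (t : Fin s → Ω),
    Function.Injective (aeval t : MvPolynomial (Fin s) F →ₐ[F] Ω) →
    1 ≤ d → ∀ (U : Submodule F Ω) [FiniteDimensional F U], Module.finrank F U ≤ n →
    (1 : Ω) ∈ U → (∀ j, t j ∈ U) →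
    ∃ 𝒱 : Finset (Submodule F Ω), 𝒱.card ≤ C ∧
      (∀ V ∈ 𝒱, V ≤ U ∧ (1 : Ω) ∈ V ∧ (∀ j, t j ∈ V) ∧
        ∀ m, 1 ≤ m → Module.finrank F (V ^ m : Submodule F Ω) ≤ (s + m * d).choose s) ∧
      ∀ x ∈ U, ¬ Ind F d (Fin.cons x t : Fin (s + 1) → Ω) → ∃ V ∈ 𝒱, x ∈ V

/-- N3. The improved bound for the exceptional subgroups. -/
def StExcN : Prop :=
  ∀ (r q d M : ℕ), 1 ≤ d → ∃ C : ℕ,
    ∀ (p : ℕ) [Fact p.Prime] (L : PadicAlgCl p → PadicAlgCl p),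
      (∀ x y : PadicAlgCl p, x ≠ 0 → y ≠ 0 → L (x * y) = L x + L y) →
      L (p : PadicAlgCl p) = 0 →
      (∀ x : PadicAlgCl p, ‖x‖ < 1 → L (1 + x) =
        ∑' n : ℕ, (-1 : PadicAlgCl p) ^ n * x ^ (n + 1) / ((n : PadicAlgCl p) + 1)) →
      ∀ a : Fin M → PadicAlgCl p, (∀ i, a i ≠ 0 ∧ IsAlgebraic ℚ (a i)) →
      ∀ b : Fin r → PadicAlgCl p, (∀ j, b j ≠ 0 ∧ IsAlgebraic ℚ (b j)) →
      ∀ (t : Fin q → PadicAlgCl p) (w : PadicAlgCl p) (ε : ℕ),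
      ((ε = 0 ∧ w = 1 ∧ LinearIndependent ℚ
          (Fin.append (fun j => L (b j)) (fun i => L (a i)) : Fin (r + M) → PadicAlgCl p)) ∨
        (ε = 1 ∧ ∃ b₀, b₀ ≠ 0 ∧ IsAlgebraic ℚ b₀ ∧ w = L b₀ ∧ LinearIndependent ℚ
          (Fin.cons (L b₀) (Fin.append (fun j => L (b j)) (fun i => L (a i))) :
            Fin (r + M + 1) → PadicAlgCl p))) →
      ((r = 1 ∧ q = 0) ∨ AlgebraicIndependent ℚ (fun j : Fin (r + q) =>
        (Fin.append (fun j => L (b j)) t : Fin (r + q) → PadicAlgCl p) j / w)) →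
      ∀ y : PadicAlgCl p,
      ∃ E : Finset ((Fin M → ℤ) × AddSubgroup (Fin M → ℤ)), E.card ≤ C ∧
        (∀ e ∈ E, ∀ m, 1 ≤ m →
          Module.finrank ℤ e.2 + r + 1 + (m - 1) * ((Module.finrank ℤ e.2 + r + ε) ^ 2 / 4) ≤
            (r + q + m * d).choose (m * d)) ∧
        (y = 0 → ∀ e ∈ E, e.1 = 0) ∧
        ∀ k : Fin M → ℤ,
          (∃ P : MvPolynomial (Fin (r + q + 2)) (PadicAlgCl p), P ≠ 0 ∧ P.IsHomogeneous d ∧
            (∀ m, IsAlgebraic ℚ (P.coeff m)) ∧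
            MvPolynomial.eval (Fin.cons (y + L (∏ i, a i ^ k i))
              (Fin.cons w (Fin.append (fun j => L (b j)) t))) P = 0) →
          ∃ e ∈ E, k - e.1 ∈ e.2

end Pool.Agent.Lib.MP_c50dba_nt.EX
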